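import Pool.Agent.Rn2.Loc
import Pool.Agent.Rnt.Cnt

/-!
# Rn2 CNT: counting, and the parametrisation of the family
-/

set_option autoImplicit false

namespace Rn2

open Finset Filter Topology Rnt

open scoped Classical

-- BEGIN mem_Reg2
private theorem mem_Reg2_sq (Y : ℝ) (hY : 0 ≤ Y) (x q : ℝ) (hx : 3 * x ^ 2 ≤ 4 * q)
    (hq : 4 * q ^ 3 ≤ Y ^ 6) : |x| ≤ Y := by
  by_contra hc
  have hc' : Y < |x| := lt_of_not_ge hc
  have h3 : Y ^ 2 < x ^ 2 := by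
    rw [← sq_abs x]
    exact pow_lt_pow_left₀ hc' hY (by norm_num)
  have h4 : (Y ^ 2) ^ 3 < (x ^ 2) ^ 3 := pow_lt_pow_left₀ h3 (by positivity) (by norm_num)
  have h5 : (3 * x ^ 2) ^ 3 ≤ (4 * q) ^ 3 := pow_le_pow_left₀ (by positivity) hx 3
  have h6 : (3 * x ^ 2) ^ 3 = 27 * (x ^ 2) ^ 3 := by ring
  have h7 : (4 * q) ^ 3 = 16 * (4 * q ^ 3) := by ring
  have h8 : (Y ^ 2) ^ 3 = Y ^ 6 := by ring
  have h9 : 0 ≤ Y ^ 6 := by positivity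
  rw [h6, h7] at h5
  rw [h8] at h4
  linarith

/-- C1. `a² + ab + b² ≥ 3a²/4, 3b²/4`, so `|a|, |b| ≤ Y`; and `27B² ≤ 4|A|³` (`disc_eq`: `4A³ + 27B² ≤ 0`, `A ≤ 0`). -/
theorem mem_Reg2 (Y : ℝ) (hY : 0 ≤ Y) (a b : ℤ) : (a, b) ∈ Reg2 Y ↔
    4 * |((Af a b : ℤ) : ℝ)| ^ 3 ≤ Y ^ 6 ∧ 27 * ((Bf a b : ℤ) : ℝ) ^ 2 ≤ Y ^ 6 := by
  have hq : |((Af a b : ℤ) : ℝ)| = (a : ℝ) ^ 2 + a * b + b ^ 2 := by
    have h1 : ((Af a b : ℤ) : ℝ) = -((a : ℝ) ^ 2 + a * b + b ^ 2) := by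
      unfold Af
      push_cast
      ring
    have h2 : 0 ≤ (a : ℝ) ^ 2 + a * b + b ^ 2 := by
      nlinarith [sq_nonneg ((a : ℝ) + b), sq_nonneg (a : ℝ), sq_nonneg (b : ℝ)]
    rw [h1, abs_neg, abs_of_nonneg h2]
  unfold Reg2 Box2
  rw [mem_filter, mem_product, mem_Icc, mem_Icc]
  constructor
  · rintro ⟨-, h⟩
    refine ⟨h, le_trans ?_ h⟩
    have hB : ((Bf a b : ℤ) : ℝ) = (a : ℝ) * b * (a + b) := by
      unfold Bf
      push_cast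
      ring
    show 27 * ((Bf a b : ℤ) : ℝ) ^ 2 ≤ 4 * |((Af a b : ℤ) : ℝ)| ^ 3
    rw [hq, hB]
    have h3 : 4 * ((a : ℝ) ^ 2 + a * b + b ^ 2) ^ 3 - 27 * ((a : ℝ) * b * (a + b)) ^ 2 =
        (((a : ℝ) - b) * (a + 2 * b) * (2 * a + b)) ^ 2 := by ring
    have h4 := sq_nonneg (((a : ℝ) - b) * (a + 2 * b) * (2 * a + b))
    linarith
  · rintro ⟨h1, -⟩
    have h2 := h1
    rw [hq] at h2
    have ha : |(a : ℝ)| ≤ Y := mem_Reg2_sq Y hY a ((a : ℝ) ^ 2 + a * b + b ^ 2)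
      (by nlinarith [sq_nonneg ((a : ℝ) + 2 * b)]) h2
    have hb : |(b : ℝ)| ≤ Y := mem_Reg2_sq Y hY b ((a : ℝ) ^ 2 + a * b + b ^ 2)
      (by nlinarith [sq_nonneg (2 * (a : ℝ) + b)]) h2
    have ha1 := abs_le.1 ha
    have hb1 := abs_le.1 hb
    refine ⟨⟨⟨?_, ?_⟩, ?_, ?_⟩, h1⟩
    · have h3 : -a ≤ ⌊Y⌋ := Int.le_floor.2 (by push_cast; linarith)
      show -⌊Y⌋ ≤ a
      omega
    · exact Int.le_floor.2 (by linarith)
    · have h3 : -b ≤ ⌊Y⌋ := Int.le_floor.2 (by push_cast; linarith)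
      show -⌊Y⌋ ≤ b
      omega
    · exact Int.le_floor.2 (by linarith)
-- END mem_Reg2

-- BEGIN exc_a
/-- C2. Union over `n ∈ (T, 3Y]`. `(a, b) ↦ (u, v)` is injective, `0 < |u| ≤ 2Y`, `0 < |v| ≤ 3Y`: at most `(4Y/n)(6Y/n)` pairs for each `n` (`mult_card`); `inv_sq`. -/
theorem exc_a (Y : ℝ) (hY : 1 ≤ Y) (T : ℕ) (hT : 1 ≤ T) :
    (((Box2 Y).filter (fun x => uu x.1 x.2 ≠ 0 ∧ vv x.1 x.2 ≠ 0 ∧ ∃ p : ℕ, p.Prime ∧ T < p ∧ (p : ℤ) ∣ uu x.1 x.2 ∧ (p : ℤ) ∣ vv x.1 x.2)).card : ℝ) ≤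
      24 * Y ^ 2 / T := by
  set N : ℕ := ⌊3 * Y⌋₊ with hN
  set U : Finset (ℤ × ℤ) := (Ioc T N).biUnion (fun n =>
    ((Icc (-⌊2 * Y⌋) ⌊2 * Y⌋).filter (fun k => k ≠ 0 ∧ (n : ℤ) ∣ k)) ×ˢ
      ((Icc (-⌊3 * Y⌋) ⌊3 * Y⌋).filter (fun k => k ≠ 0 ∧ (n : ℤ) ∣ k))) with hU
  have hbd : ∀ x ∈ Box2 Y, |((x.1 : ℤ) : ℝ)| ≤ Y ∧ |((x.2 : ℤ) : ℝ)| ≤ Y := by
    intro x hx
    unfold Box2 at hx
    rw [mem_product, mem_Icc, mem_Icc] at hx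
    have hf := Int.floor_le Y
    have a1 : ((x.1 : ℤ) : ℝ) ≤ (⌊Y⌋ : ℝ) := by exact_mod_cast hx.1.2
    have a2 : (-⌊Y⌋ : ℝ) ≤ ((x.1 : ℤ) : ℝ) := by exact_mod_cast hx.1.1
    have a3 : ((x.2 : ℤ) : ℝ) ≤ (⌊Y⌋ : ℝ) := by exact_mod_cast hx.2.2
    have a4 : (-⌊Y⌋ : ℝ) ≤ ((x.2 : ℤ) : ℝ) := by exact_mod_cast hx.2.1
    exact ⟨abs_le.mpr ⟨by linarith, by linarith⟩, abs_le.mpr ⟨by linarith, by linarith⟩⟩
  have hmemI : ∀ (c : ℝ) (k : ℤ), |(k : ℝ)| ≤ c → k ∈ Icc (-⌊c⌋) ⌊c⌋ := by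
    intro c k hk
    rw [abs_le] at hk
    rw [mem_Icc]
    constructor
    · have : (-k : ℤ) ≤ ⌊c⌋ := Int.le_floor.mpr (by push_cast; linarith)
      linarith
    · exact Int.le_floor.mpr hk.2
  have hle : ((Box2 Y).filter (fun x => uu x.1 x.2 ≠ 0 ∧ vv x.1 x.2 ≠ 0 ∧ ∃ p : ℕ, p.Prime ∧ T < p ∧
      (p : ℤ) ∣ uu x.1 x.2 ∧ (p : ℤ) ∣ vv x.1 x.2)).card ≤ U.card := by
    refine Finset.card_le_card_of_injOn (fun x => (uu x.1 x.2, vv x.1 x.2)) ?_ ?_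
    · intro x hx
      rw [mem_coe, mem_filter] at hx
      obtain ⟨hxB, hu0, hv0, p, hp, hTp, hpu, hpv⟩ := hx
      obtain ⟨ha, hb⟩ := hbd x hxB
      have hua : |((uu x.1 x.2 : ℤ) : ℝ)| ≤ 2 * Y := by
        unfold uu
        push_cast
        calc |(x.1 : ℝ) - x.2| ≤ |(x.1 : ℝ)| + |(x.2 : ℝ)| := abs_sub _ _
          _ ≤ 2 * Y := by linarith
      have hva : |((vv x.1 x.2 : ℤ) : ℝ)| ≤ 3 * Y := by
        unfold vv
        push_cast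
        calc |(x.1 : ℝ) + 2 * x.2| ≤ |(x.1 : ℝ)| + |2 * (x.2 : ℝ)| := abs_add_le _ _
          _ = |(x.1 : ℝ)| + 2 * |(x.2 : ℝ)| := by rw [abs_mul, abs_two]
          _ ≤ 3 * Y := by linarith
      rw [mem_coe, hU, mem_biUnion]
      refine ⟨p, ?_, ?_⟩
      · rw [mem_Ioc]
        refine ⟨hTp, Nat.le_floor ?_⟩
        have h1 : (p : ℤ) ≤ |uu x.1 x.2| := Int.le_of_dvd (abs_pos.mpr hu0) ((dvd_abs _ _).mpr hpu)
        have h2 : ((p : ℕ) : ℝ) ≤ |((uu x.1 x.2 : ℤ) : ℝ)| := by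
          rw [← Int.cast_abs]
          exact_mod_cast h1
        linarith
      · rw [mem_product, mem_filter, mem_filter]
        exact ⟨⟨hmemI _ _ hua, hu0, hpu⟩, ⟨hmemI _ _ hva, hv0, hpv⟩⟩
    · intro x _ y _ hxy
      simp only [Prod.mk.injEq] at hxy
      obtain ⟨e1, e2⟩ := hxy
      unfold uu at e1
      unfold vv at e2
      ext
      · linarith
      · linarith
  have hcard : (U.card : ℝ) ≤ ∑ n ∈ Ioc T N, 24 * Y ^ 2 * (1 / (n : ℝ) ^ 2) := by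
    calc (U.card : ℝ) ≤ ((∑ n ∈ Ioc T N, (((Icc (-⌊2 * Y⌋) ⌊2 * Y⌋).filter (fun k => k ≠ 0 ∧ (n : ℤ) ∣ k)) ×ˢ
          ((Icc (-⌊3 * Y⌋) ⌊3 * Y⌋).filter (fun k => k ≠ 0 ∧ (n : ℤ) ∣ k))).card : ℕ) : ℝ) := by
          exact_mod_cast card_biUnion_le
      _ = ∑ n ∈ Ioc T N, ((((Icc (-⌊2 * Y⌋) ⌊2 * Y⌋).filter (fun k => k ≠ 0 ∧ (n : ℤ) ∣ k)).card : ℝ) *
          (((Icc (-⌊3 * Y⌋) ⌊3 * Y⌋).filter (fun k => k ≠ 0 ∧ (n : ℤ) ∣ k)).card : ℝ)) := by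
          push_cast
          exact sum_congr rfl fun n _ => by rw [card_product]; push_cast; rfl
      _ ≤ _ := by
          refine sum_le_sum fun n hn => ?_
          rw [mem_Ioc] at hn
          have hn0 : 0 < n := by omega
          have hn0' : (0 : ℝ) < n := by exact_mod_cast hn0
          have c1 := mult_card (2 * Y) (by linarith) n hn0
          have c2 := mult_card (3 * Y) (by linarith) n hn0
          calc _ ≤ (2 * (2 * Y) / n) * (2 * (3 * Y) / n) :=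
                mul_le_mul c1 c2 (Nat.cast_nonneg _) (by positivity)
            _ = 24 * Y ^ 2 * (1 / (n : ℝ) ^ 2) := by
                field_simp
                ring
  calc (((Box2 Y).filter (fun x => uu x.1 x.2 ≠ 0 ∧ vv x.1 x.2 ≠ 0 ∧ ∃ p : ℕ, p.Prime ∧ T < p ∧
        (p : ℤ) ∣ uu x.1 x.2 ∧ (p : ℤ) ∣ vv x.1 x.2)).card : ℝ) ≤ (U.card : ℝ) := by exact_mod_cast hle
    _ ≤ _ := hcard
    _ = 24 * Y ^ 2 * ∑ n ∈ Ioc T N, 1 / (n : ℝ) ^ 2 := by rw [mul_sum]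
    _ ≤ 24 * Y ^ 2 * (1 / T) := mul_le_mul_of_nonneg_left (inv_sq T N hT) (by positivity)
    _ = 24 * Y ^ 2 / T := by ring
-- END exc_a

-- BEGIN exc_b
private theorem exc_b_cardr (Y : ℝ) (hY : 1 ≤ Y) : ((Icc (-⌊Y⌋) ⌊Y⌋).card : ℝ) ≤ 3 * Y := by
  have h0 : (0 : ℤ) ≤ ⌊Y⌋ := Int.floor_nonneg.mpr (by linarith)
  rw [Int.card_Icc]
  have h1 : ((⌊Y⌋ + 1 - -⌊Y⌋).toNat : ℝ) = 2 * (⌊Y⌋ : ℝ) + 1 := by
    have : ((⌊Y⌋ + 1 - -⌊Y⌋).toNat : ℤ) = 2 * ⌊Y⌋ + 1 := by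
      rw [Int.toNat_of_nonneg (by linarith)]; ring
    exact_mod_cast this
  rw [h1]
  have := Int.floor_le Y
  linarith

private theorem exc_b_abs (Y : ℝ) (x : ℤ) (hx : x ∈ Icc (-⌊Y⌋) ⌊Y⌋) : -Y ≤ (x : ℝ) ∧ (x : ℝ) ≤ Y := by
  rw [mem_Icc] at hx
  have h0 := Int.floor_le Y
  constructor
  · have h3 : (-⌊Y⌋ : ℝ) ≤ ((x : ℤ) : ℝ) := by exact_mod_cast hx.1
    linarith
  · have h3 : ((x : ℤ) : ℝ) ≤ (⌊Y⌋ : ℝ) := by exact_mod_cast hx.2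
    linarith

private theorem exc_b_inj (Y : ℝ) (hY : 1 ≤ Y) (m : ℕ) (hm : 0 < m) (f : ℤ → ℤ)
    (hf : Function.Injective f)
    (hb : ∀ a ∈ Icc (-⌊Y⌋) ⌊Y⌋, -(3 * Y) ≤ (f a : ℝ) ∧ (f a : ℝ) ≤ 3 * Y) :
    (((Icc (-⌊Y⌋) ⌊Y⌋).filter (fun a => f a ≠ 0 ∧ (m : ℤ) ∣ f a)).card : ℝ) ≤ 6 * Y / m := by
  have h1 : ((Icc (-⌊Y⌋) ⌊Y⌋).filter (fun a => f a ≠ 0 ∧ (m : ℤ) ∣ f a)).card ≤
      ((Icc (-⌊3 * Y⌋) ⌊3 * Y⌋).filter (fun n => n ≠ 0 ∧ (m : ℤ) ∣ n)).card := by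
    refine card_le_card_of_injOn f ?_ hf.injOn
    intro a ha
    have ha' := mem_filter.1 (mem_coe.1 ha)
    rw [mem_coe, mem_filter, mem_Icc]
    obtain ⟨h2, h3⟩ := hb a ha'.1
    refine ⟨⟨?_, Int.le_floor.2 h3⟩, ha'.2⟩
    have h4 : -f a ≤ ⌊3 * Y⌋ := Int.le_floor.2 (by push_cast; linarith)
    linarith
  have h2 := mult_card (3 * Y) (by linarith) m hm
  have h3 : 2 * (3 * Y) / (m : ℝ) = 6 * Y / m := by ring
  rw [h3] at h2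
  exact le_trans (by exact_mod_cast h1) h2

private theorem exc_b_line (Y : ℝ) (hY : 1 ≤ Y) (m : ℕ) (hm : 0 < m) (b : ℤ)
    (hb : b ∈ Icc (-⌊Y⌋) ⌊Y⌋) :
    (((Icc (-⌊Y⌋) ⌊Y⌋).filter (fun a => (uu a b ≠ 0 ∧ (m : ℤ) ∣ uu a b) ∨
      (vv a b ≠ 0 ∧ (m : ℤ) ∣ vv a b) ∨ (ss a b ≠ 0 ∧ (m : ℤ) ∣ ss a b))).card : ℝ) ≤
      18 * Y / m := by
  obtain ⟨hb1, hb2⟩ := exc_b_abs Y b hb
  have e1 := exc_b_inj Y hY m hm (fun a => uu a b) (fun x y h => by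
    simp only [uu] at h
    linarith) (fun a ha => by
    obtain ⟨h1, h2⟩ := exc_b_abs Y a ha
    simp only [uu]
    push_cast
    constructor <;> linarith)
  have e2 := exc_b_inj Y hY m hm (fun a => vv a b) (fun x y h => by
    simp only [vv] at h
    linarith) (fun a ha => by
    obtain ⟨h1, h2⟩ := exc_b_abs Y a ha
    simp only [vv]
    push_cast
    constructor <;> linarith)
  have e3 := exc_b_inj Y hY m hm (fun a => ss a b) (fun x y h => by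
    simp only [ss] at h
    linarith) (fun a ha => by
    obtain ⟨h1, h2⟩ := exc_b_abs Y a ha
    simp only [ss]
    push_cast
    constructor <;> linarith)
  rw [filter_or, filter_or]
  have h1 := card_union_le ((Icc (-⌊Y⌋) ⌊Y⌋).filter (fun a => uu a b ≠ 0 ∧ (m : ℤ) ∣ uu a b))
    ((Icc (-⌊Y⌋) ⌊Y⌋).filter (fun a => vv a b ≠ 0 ∧ (m : ℤ) ∣ vv a b) ∪
      (Icc (-⌊Y⌋) ⌊Y⌋).filter (fun a => ss a b ≠ 0 ∧ (m : ℤ) ∣ ss a b))
  have h2 := card_union_le ((Icc (-⌊Y⌋) ⌊Y⌋).filter (fun a => vv a b ≠ 0 ∧ (m : ℤ) ∣ vv a b))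
    ((Icc (-⌊Y⌋) ⌊Y⌋).filter (fun a => ss a b ≠ 0 ∧ (m : ℤ) ∣ ss a b))
  have h3 : ((((Icc (-⌊Y⌋) ⌊Y⌋).filter (fun a => uu a b ≠ 0 ∧ (m : ℤ) ∣ uu a b)) ∪
    ((Icc (-⌊Y⌋) ⌊Y⌋).filter (fun a => vv a b ≠ 0 ∧ (m : ℤ) ∣ vv a b) ∪
      (Icc (-⌊Y⌋) ⌊Y⌋).filter (fun a => ss a b ≠ 0 ∧ (m : ℤ) ∣ ss a b))).card : ℝ) ≤
      (((Icc (-⌊Y⌋) ⌊Y⌋).filter (fun a => uu a b ≠ 0 ∧ (m : ℤ) ∣ uu a b)).card : ℝ) +
      ((((Icc (-⌊Y⌋) ⌊Y⌋).filter (fun a => vv a b ≠ 0 ∧ (m : ℤ) ∣ vv a b)).card : ℝ) +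
      (((Icc (-⌊Y⌋) ⌊Y⌋).filter (fun a => ss a b ≠ 0 ∧ (m : ℤ) ∣ ss a b)).card : ℝ)) := by
    exact_mod_cast h1.trans (Nat.add_le_add_left h2 _)
  refine h3.trans ?_
  have h4 : 18 * Y / (m : ℝ) = 6 * Y / m + (6 * Y / m + 6 * Y / m) := by ring
  rw [h4]
  exact add_le_add e1 (add_le_add e2 e3)

/-- C3. For each of the at most `3Y` values of `b` the maps `a ↦ u, v, s` are injective with values of absolute value `≤ 3Y`; nonzero multiples of `n²`: at most `6Y/n²` (`mult_card`), `n ∈ (T, 2Y]` (`n² ≤ 3Y ≤ 4Y²`); `inv_sq`: `3 · 3Y · 6Y/T`. -/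
theorem exc_b (Y : ℝ) (hY : 1 ≤ Y) (T : ℕ) (hT : 1 ≤ T) :
    (((Box2 Y).filter (fun x => ∃ p : ℕ, p.Prime ∧ T < p ∧ ((uu x.1 x.2 ≠ 0 ∧ (p : ℤ) ^ 2 ∣ uu x.1 x.2) ∨
      (vv x.1 x.2 ≠ 0 ∧ (p : ℤ) ^ 2 ∣ vv x.1 x.2) ∨ (ss x.1 x.2 ≠ 0 ∧ (p : ℤ) ^ 2 ∣ ss x.1 x.2)))).card : ℝ) ≤ 54 * Y ^ 2 / T := by
  set N : ℕ := ⌊2 * Y⌋₊ with hN
  set W : ℤ → ℕ → Finset ℤ := fun b n => (Icc (-⌊Y⌋) ⌊Y⌋).filter (fun a =>
    (uu a b ≠ 0 ∧ ((n ^ 2 : ℕ) : ℤ) ∣ uu a b) ∨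
      (vv a b ≠ 0 ∧ ((n ^ 2 : ℕ) : ℤ) ∣ vv a b) ∨ (ss a b ≠ 0 ∧ ((n ^ 2 : ℕ) : ℤ) ∣ ss a b)) with hW
  set U : Finset (ℤ × ℤ) := (Icc (-⌊Y⌋) ⌊Y⌋).biUnion (fun b => (Ioc T N).biUnion (fun n =>
    (W b n).image (fun a => (a, b)))) with hU
  have hsub : (Box2 Y).filter (fun x => ∃ p : ℕ, p.Prime ∧ T < p ∧ ((uu x.1 x.2 ≠ 0 ∧ (p : ℤ) ^ 2 ∣ uu x.1 x.2) ∨
      (vv x.1 x.2 ≠ 0 ∧ (p : ℤ) ^ 2 ∣ vv x.1 x.2) ∨ (ss x.1 x.2 ≠ 0 ∧ (p : ℤ) ^ 2 ∣ ss x.1 x.2))) ⊆ U := by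
    intro x hx
    rw [mem_filter] at hx
    obtain ⟨hxB, p, hp, hTp, hdvd⟩ := hx
    unfold Box2 at hxB
    rw [mem_product] at hxB
    obtain ⟨ha1, ha2⟩ := exc_b_abs Y x.1 hxB.1
    obtain ⟨hb1, hb2⟩ := exc_b_abs Y x.2 hxB.2
    have key : ∀ z : ℤ, z ≠ 0 → (p : ℤ) ^ 2 ∣ z → -(3 * Y) ≤ (z : ℝ) → (z : ℝ) ≤ 3 * Y → p ≤ N := by
      intro z hz hd h1 h2
      rw [hN]
      apply Nat.le_floor
      have h3 : ((p : ℤ) ^ 2) ≤ |z| := Int.le_of_dvd (abs_pos.mpr hz) ((dvd_abs _ _).mpr hd)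
      have h4 : (p : ℝ) ^ 2 ≤ |(z : ℝ)| := by
        have : (((p : ℤ) ^ 2 : ℤ) : ℝ) ≤ ((|z| : ℤ) : ℝ) := by exact_mod_cast h3
        rw [Int.cast_abs] at this
        push_cast at this ⊢
        exact this
      have h5 : |(z : ℝ)| ≤ 3 * Y := abs_le.2 ⟨h1, h2⟩
      have h6 : (p : ℝ) ^ 2 ≤ (2 * Y) ^ 2 := by nlinarith
      exact (sq_le_sq₀ (by positivity) (by linarith)).1 h6
    have hpN : p ≤ N := by
      rcases hdvd with ⟨h1, h2⟩ | ⟨h1, h2⟩ | ⟨h1, h2⟩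
      · refine key _ h1 h2 ?_ ?_ <;> simp only [uu] <;> push_cast <;> linarith
      · refine key _ h1 h2 ?_ ?_ <;> simp only [vv] <;> push_cast <;> linarith
      · refine key _ h1 h2 ?_ ?_ <;> simp only [ss] <;> push_cast <;> linarith
    rw [hU, mem_biUnion]
    refine ⟨x.2, hxB.2, ?_⟩
    rw [mem_biUnion]
    refine ⟨p, mem_Ioc.2 ⟨hTp, hpN⟩, ?_⟩
    rw [mem_image]
    refine ⟨x.1, ?_, rfl⟩
    rw [hW, mem_filter]
    refine ⟨hxB.1, ?_⟩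
    push_cast
    exact hdvd
  have hcard : ((U.card : ℕ) : ℝ) ≤ ∑ b ∈ Icc (-⌊Y⌋) ⌊Y⌋, ∑ n ∈ Ioc T N, (18 * Y * (1 / (n : ℝ) ^ 2)) := by
    calc ((U.card : ℕ) : ℝ) ≤ ((∑ b ∈ Icc (-⌊Y⌋) ⌊Y⌋, ((Ioc T N).biUnion (fun n =>
          (W b n).image (fun a => (a, b)))).card : ℕ) : ℝ) := by exact_mod_cast card_biUnion_le
      _ = ∑ b ∈ Icc (-⌊Y⌋) ⌊Y⌋, (((Ioc T N).biUnion (fun n =>
          (W b n).image (fun a => (a, b)))).card : ℝ) := by push_cast; rfl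
      _ ≤ _ := by
        apply sum_le_sum
        intro b hb
        calc (((Ioc T N).biUnion (fun n => (W b n).image (fun a => (a, b)))).card : ℝ)
            ≤ ((∑ n ∈ Ioc T N, ((W b n).image (fun a => (a, b))).card : ℕ) : ℝ) := by
              exact_mod_cast card_biUnion_le
          _ = ∑ n ∈ Ioc T N, (((W b n).image (fun a => (a, b))).card : ℝ) := by push_cast; rfl
          _ ≤ _ := by
            apply sum_le_sum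
            intro n hn
            rw [mem_Ioc] at hn
            have hn0 : 0 < n := by omega
            calc (((W b n).image (fun a => (a, b))).card : ℝ)
                ≤ ((W b n).card : ℝ) := by exact_mod_cast card_image_le
              _ ≤ 18 * Y / ((n ^ 2 : ℕ) : ℝ) := exc_b_line Y hY (n ^ 2) (by positivity) b hb
              _ = 18 * Y * (1 / (n : ℝ) ^ 2) := by push_cast; ring
  have hinner : ∑ n ∈ Ioc T N, (18 * Y * (1 / (n : ℝ) ^ 2)) ≤ 18 * Y / T := by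
    rw [← mul_sum]
    have h1 := inv_sq T N hT
    have h3 : 18 * Y * ∑ n ∈ Ioc T N, 1 / (n : ℝ) ^ 2 ≤ 18 * Y * (1 / T) :=
      mul_le_mul_of_nonneg_left h1 (by linarith)
    have h4 : 18 * Y * (1 / (T : ℝ)) = 18 * Y / T := by ring
    linarith
  calc (((Box2 Y).filter (fun x => ∃ p : ℕ, p.Prime ∧ T < p ∧ ((uu x.1 x.2 ≠ 0 ∧ (p : ℤ) ^ 2 ∣ uu x.1 x.2) ∨
      (vv x.1 x.2 ≠ 0 ∧ (p : ℤ) ^ 2 ∣ vv x.1 x.2) ∨ (ss x.1 x.2 ≠ 0 ∧ (p : ℤ) ^ 2 ∣ ss x.1 x.2)))).card : ℝ)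
      ≤ (U.card : ℝ) := by exact_mod_cast card_le_card hsub
    _ ≤ _ := hcard
    _ ≤ ∑ _b ∈ Icc (-⌊Y⌋) ⌊Y⌋, (18 * Y / T) := sum_le_sum (fun b _ => hinner)
    _ = ((Icc (-⌊Y⌋) ⌊Y⌋).card : ℝ) * (18 * Y / T) := by rw [sum_const, nsmul_eq_mul]
    _ ≤ 3 * Y * (18 * Y / T) :=
        mul_le_mul_of_nonneg_right (exc_b_cardr Y hY) (by positivity)
    _ = 54 * Y ^ 2 / T := by ring
-- END exc_b

-- BEGIN exc_p
private theorem exc_p_one (Y : ℝ) (hY : 1 ≤ Y) (m : ℕ) (hm : 0 < m) (g : ℤ × ℤ → ℤ)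
    (hg : ∀ x y : ℤ × ℤ, x.2 = y.2 → g x = g y → x.1 = y.1)
    (hb : ∀ x : ℤ × ℤ, |(x.1 : ℝ)| ≤ Y → |(x.2 : ℝ)| ≤ Y → |((g x : ℤ) : ℝ)| ≤ 3 * Y) :
    (((Box2 Y).filter (fun x => g x ≠ 0 ∧ (m : ℤ) ∣ g x)).card : ℝ) ≤ 18 * Y ^ 2 / m := by
  have hle : ((Box2 Y).filter (fun x => g x ≠ 0 ∧ (m : ℤ) ∣ g x)).card ≤
      ((Icc (-⌊Y⌋) ⌊Y⌋) ×ˢ ((Icc (-⌊3 * Y⌋) ⌊3 * Y⌋).filter (fun k => k ≠ 0 ∧ (m : ℤ) ∣ k))).card := by
    refine Finset.card_le_card_of_injOn (fun x => (x.2, g x)) ?_ ?_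
    · intro x hx
      rw [mem_coe, mem_filter] at hx
      obtain ⟨hxB, h0, hd⟩ := hx
      have hxB' := hxB
      unfold Box2 at hxB
      rw [mem_product, mem_Icc, mem_Icc] at hxB
      have hf := Int.floor_le Y
      have a1 : ((x.1 : ℤ) : ℝ) ≤ (⌊Y⌋ : ℝ) := by exact_mod_cast hxB.1.2
      have a2 : (-⌊Y⌋ : ℝ) ≤ ((x.1 : ℤ) : ℝ) := by exact_mod_cast hxB.1.1
      have a3 : ((x.2 : ℤ) : ℝ) ≤ (⌊Y⌋ : ℝ) := by exact_mod_cast hxB.2.2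
      have a4 : (-⌊Y⌋ : ℝ) ≤ ((x.2 : ℤ) : ℝ) := by exact_mod_cast hxB.2.1
      have hgb := hb x (abs_le.mpr ⟨by linarith, by linarith⟩) (abs_le.mpr ⟨by linarith, by linarith⟩)
      rw [abs_le] at hgb
      rw [mem_coe, mem_product, mem_filter]
      refine ⟨mem_Icc.mpr hxB.2, ?_, h0, hd⟩
      rw [mem_Icc]
      constructor
      · have : (-(g x) : ℤ) ≤ ⌊3 * Y⌋ := Int.le_floor.mpr (by push_cast; linarith)
        show -⌊3 * Y⌋ ≤ g x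
        linarith
      · exact Int.le_floor.mpr hgb.2
    · intro x _ y _ hxy
      simp only [Prod.mk.injEq] at hxy
      obtain ⟨e1, e2⟩ := hxy
      exact Prod.ext (hg x y e1 e2) e1
  have hr : (((Icc (-⌊Y⌋) ⌊Y⌋).card : ℕ) : ℝ) ≤ 3 * Y := by
    have h0 : (0 : ℤ) ≤ ⌊Y⌋ := Int.floor_nonneg.mpr (by linarith)
    rw [Int.card_Icc]
    have h1 : ((⌊Y⌋ + 1 - -⌊Y⌋).toNat : ℝ) = 2 * (⌊Y⌋ : ℝ) + 1 := by
      have : ((⌊Y⌋ + 1 - -⌊Y⌋).toNat : ℤ) = 2 * ⌊Y⌋ + 1 := by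
        rw [Int.toNat_of_nonneg (by linarith)]; ring
      exact_mod_cast this
    rw [h1]
    have := Int.floor_le Y
    linarith
  have hm' : (0 : ℝ) < m := by exact_mod_cast hm
  have c2 := mult_card (3 * Y) (by linarith) m hm
  calc (((Box2 Y).filter (fun x => g x ≠ 0 ∧ (m : ℤ) ∣ g x)).card : ℝ)
      ≤ (((Icc (-⌊Y⌋) ⌊Y⌋) ×ˢ ((Icc (-⌊3 * Y⌋) ⌊3 * Y⌋).filter (fun k => k ≠ 0 ∧ (m : ℤ) ∣ k))).card : ℝ) := by
        exact_mod_cast hle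
    _ = ((Icc (-⌊Y⌋) ⌊Y⌋).card : ℝ) * (((Icc (-⌊3 * Y⌋) ⌊3 * Y⌋).filter (fun k => k ≠ 0 ∧ (m : ℤ) ∣ k)).card : ℝ) := by
        rw [card_product]; push_cast; rfl
    _ ≤ (3 * Y) * (2 * (3 * Y) / m) := mul_le_mul hr c2 (Nat.cast_nonneg _) (by linarith)
    _ = 18 * Y ^ 2 / m := by ring

/-- C4. The same for one prime power `p^j ≥ 2^j`. -/
theorem exc_p (Y : ℝ) (hY : 1 ≤ Y) (p j : ℕ) (hp : p.Prime) :
    (((Box2 Y).filter (fun x => (uu x.1 x.2 ≠ 0 ∧ (p : ℤ) ^ j ∣ uu x.1 x.2) ∨ (vv x.1 x.2 ≠ 0 ∧ (p : ℤ) ^ j ∣ vv x.1 x.2) ∨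
      (ss x.1 x.2 ≠ 0 ∧ (p : ℤ) ^ j ∣ ss x.1 x.2))).card : ℝ) ≤ 54 * Y ^ 2 / 2 ^ j := by
  have hpj : 0 < p ^ j := pow_pos hp.pos j
  have h1 := exc_p_one Y hY (p ^ j) hpj (fun x => uu x.1 x.2)
    (by intro x y h h'; simp only [uu] at h'; linarith)
    (by
      intro x ha hb
      unfold uu
      push_cast
      calc |(x.1 : ℝ) - x.2| ≤ |(x.1 : ℝ)| + |(x.2 : ℝ)| := abs_sub _ _
        _ ≤ 3 * Y := by linarith)
  have h2 := exc_p_one Y hY (p ^ j) hpj (fun x => vv x.1 x.2)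
    (by intro x y h h'; simp only [vv] at h'; linarith)
    (by
      intro x ha hb
      unfold vv
      push_cast
      calc |(x.1 : ℝ) + 2 * x.2| ≤ |(x.1 : ℝ)| + |2 * (x.2 : ℝ)| := abs_add_le _ _
        _ = |(x.1 : ℝ)| + 2 * |(x.2 : ℝ)| := by rw [abs_mul, abs_two]
        _ ≤ 3 * Y := by linarith)
  have h3 := exc_p_one Y hY (p ^ j) hpj (fun x => ss x.1 x.2)
    (by intro x y h h'; simp only [ss] at h'; linarith)
    (by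
      intro x ha hb
      unfold ss
      push_cast
      calc |2 * (x.1 : ℝ) + x.2| ≤ |2 * (x.1 : ℝ)| + |(x.2 : ℝ)| := abs_add_le _ _
        _ = 2 * |(x.1 : ℝ)| + |(x.2 : ℝ)| := by rw [abs_mul, abs_two]
        _ ≤ 3 * Y := by linarith)
  have hsub : (Box2 Y).filter (fun x => (uu x.1 x.2 ≠ 0 ∧ (p : ℤ) ^ j ∣ uu x.1 x.2) ∨
      (vv x.1 x.2 ≠ 0 ∧ (p : ℤ) ^ j ∣ vv x.1 x.2) ∨ (ss x.1 x.2 ≠ 0 ∧ (p : ℤ) ^ j ∣ ss x.1 x.2)) ⊆
      ((Box2 Y).filter (fun x => uu x.1 x.2 ≠ 0 ∧ ((p ^ j : ℕ) : ℤ) ∣ uu x.1 x.2)) ∪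
      (((Box2 Y).filter (fun x => vv x.1 x.2 ≠ 0 ∧ ((p ^ j : ℕ) : ℤ) ∣ vv x.1 x.2)) ∪
      ((Box2 Y).filter (fun x => ss x.1 x.2 ≠ 0 ∧ ((p ^ j : ℕ) : ℤ) ∣ ss x.1 x.2))) := by
    intro x hx
    rw [mem_filter] at hx
    rw [mem_union, mem_union, mem_filter, mem_filter, mem_filter]
    push_cast
    rcases hx.2 with h | h | h
    · exact Or.inl ⟨hx.1, h⟩
    · exact Or.inr (Or.inl ⟨hx.1, h⟩)
    · exact Or.inr (Or.inr ⟨hx.1, h⟩)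
  have hc := (card_le_card hsub).trans ((card_union_le _ _).trans
    (Nat.add_le_add_left (card_union_le _ _) _))
  have hc' : (((Box2 Y).filter (fun x => (uu x.1 x.2 ≠ 0 ∧ (p : ℤ) ^ j ∣ uu x.1 x.2) ∨
      (vv x.1 x.2 ≠ 0 ∧ (p : ℤ) ^ j ∣ vv x.1 x.2) ∨ (ss x.1 x.2 ≠ 0 ∧ (p : ℤ) ^ j ∣ ss x.1 x.2))).card : ℝ) ≤
      (((Box2 Y).filter (fun x => uu x.1 x.2 ≠ 0 ∧ ((p ^ j : ℕ) : ℤ) ∣ uu x.1 x.2)).card : ℝ) +
      ((((Box2 Y).filter (fun x => vv x.1 x.2 ≠ 0 ∧ ((p ^ j : ℕ) : ℤ) ∣ vv x.1 x.2)).card : ℝ) +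
      (((Box2 Y).filter (fun x => ss x.1 x.2 ≠ 0 ∧ ((p ^ j : ℕ) : ℤ) ∣ ss x.1 x.2)).card : ℝ)) := by
    exact_mod_cast hc
  have h4 : 18 * Y ^ 2 / ((p ^ j : ℕ) : ℝ) ≤ 18 * Y ^ 2 / 2 ^ j := by
    apply div_le_div_of_nonneg_left (by positivity) (by positivity)
    push_cast
    exact pow_le_pow_left₀ (by norm_num) (by exact_mod_cast hp.two_le) j
  have h5 : 54 * Y ^ 2 / 2 ^ j = 18 * Y ^ 2 / 2 ^ j + (18 * Y ^ 2 / 2 ^ j + 18 * Y ^ 2 / 2 ^ j) := by ring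
  rw [h5]
  linarith
-- END exc_p

-- BEGIN exc_total
private theorem exc_total_icc (Y : ℝ) (hY : 0 ≤ Y) :
    ((Icc (-⌊Y⌋) ⌊Y⌋).card : ℝ) ≤ 2 * Y + 1 := by
  have h1 : 0 ≤ ⌊Y⌋ := Int.floor_nonneg.2 hY
  have h2 : (⌊Y⌋ : ℝ) ≤ Y := Int.floor_le Y
  rw [Int.card_Icc]
  have h3 : (((⌊Y⌋ + 1 - (-⌊Y⌋)).toNat : ℕ) : ℝ) = 2 * (⌊Y⌋ : ℝ) + 1 := by
    have h4 : (((⌊Y⌋ + 1 - (-⌊Y⌋)).toNat : ℕ) : ℤ) = ⌊Y⌋ + 1 - (-⌊Y⌋) := Int.toNat_of_nonneg (by omega)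
    have h5 : (((⌊Y⌋ + 1 - (-⌊Y⌋)).toNat : ℕ) : ℝ) = ((((⌊Y⌋ + 1 - (-⌊Y⌋)).toNat : ℕ) : ℤ) : ℝ) := by
      push_cast
      rfl
    rw [h5, h4]
    push_cast
    ring
  rw [h3]
  linarith

private theorem exc_total_zero (Y : ℝ) (hY : 1 ≤ Y) (g : ℤ → ℤ → ℤ)
    (hg : ∀ k t t' : ℤ, g k t = 0 → g k t' = 0 → t = t') :
    (((Box2 Y).filter (fun x => g x.1 x.2 = 0)).card : ℝ) ≤ 3 * Y := by
  have h0 := exc_total_icc Y (by linarith)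
  have h1 : ((Box2 Y).filter (fun x => g x.1 x.2 = 0)).card ≤ (Icc (-⌊Y⌋) ⌊Y⌋).card := by
    refine Finset.card_le_card_of_injOn (fun x => x.1) ?_ ?_
    · intro x hx
      have hx' := (Finset.mem_filter.1 (Finset.mem_coe.1 hx)).1
      unfold Box2 at hx'
      exact Finset.mem_coe.2 (Finset.mem_product.1 hx').1
    · intro x hx x' hx' h
      have h2 := (Finset.mem_filter.1 (Finset.mem_coe.1 hx)).2
      have h3 := (Finset.mem_filter.1 (Finset.mem_coe.1 hx')).2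
      have h4 : x.1 = x'.1 := h
      rw [← h4] at h3
      exact Prod.ext h4 (hg x.1 x.2 x'.2 h2 h3)
  have h2 : (((Box2 Y).filter (fun x => g x.1 x.2 = 0)).card : ℝ) ≤ ((Icc (-⌊Y⌋) ⌊Y⌋).card : ℝ) := by
    exact_mod_cast h1
  linarith

/-- C5. `u = 0`, `v = 0`, `s = 0`: at most `3Y` each; `exc_a`, `exc_b`, `exc_p` for the at most `T` primes `p ≤ T`. Copy of `Rnt.exc_total`. -/
theorem exc_total (Y : ℝ) (hY : 1 ≤ Y) (T j : ℕ) (hT : 1 ≤ T) :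
    (((Box2 Y).filter (fun x => Exc2 T j x.1 x.2)).card : ℝ) ≤ (78 / T + 54 * T / 2 ^ j) * Y ^ 2 + 9 * Y := by
  set S1 := (Box2 Y).filter (fun x => uu x.1 x.2 = 0) with hS1
  set S2 := (Box2 Y).filter (fun x => vv x.1 x.2 = 0) with hS2
  set S3 := (Box2 Y).filter (fun x => ss x.1 x.2 = 0) with hS3
  set Sa := (Box2 Y).filter (fun x => uu x.1 x.2 ≠ 0 ∧ vv x.1 x.2 ≠ 0 ∧
    ∃ p : ℕ, p.Prime ∧ T < p ∧ (p : ℤ) ∣ uu x.1 x.2 ∧ (p : ℤ) ∣ vv x.1 x.2) with hSa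
  set Sb := (Box2 Y).filter (fun x => ∃ p : ℕ, p.Prime ∧ T < p ∧ ((uu x.1 x.2 ≠ 0 ∧ (p : ℤ) ^ 2 ∣ uu x.1 x.2) ∨
      (vv x.1 x.2 ≠ 0 ∧ (p : ℤ) ^ 2 ∣ vv x.1 x.2) ∨ (ss x.1 x.2 ≠ 0 ∧ (p : ℤ) ^ 2 ∣ ss x.1 x.2)))
    with hSb
  set Sd : ℕ → Finset (ℤ × ℤ) := fun p => (Box2 Y).filter (fun x => (uu x.1 x.2 ≠ 0 ∧ (p : ℤ) ^ j ∣ uu x.1 x.2) ∨
      (vv x.1 x.2 ≠ 0 ∧ (p : ℤ) ^ j ∣ vv x.1 x.2) ∨ (ss x.1 x.2 ≠ 0 ∧ (p : ℤ) ^ j ∣ ss x.1 x.2)) with hSd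
  set Q := (range (T + 1)).filter Nat.Prime with hQ
  have hsub : (Box2 Y).filter (fun x => Exc2 T j x.1 x.2) ⊆
      S1 ∪ (S2 ∪ (S3 ∪ (Sa ∪ (Sb ∪ Q.biUnion Sd)))) := by
    intro x hx
    obtain ⟨hxB, hxE⟩ := Finset.mem_filter.1 hx
    simp only [Finset.mem_union, Finset.mem_biUnion]
    by_cases h0 : uu x.1 x.2 = 0
    · exact Or.inl (Finset.mem_filter.2 ⟨hxB, h0⟩)
    right
    by_cases hb0 : vv x.1 x.2 = 0
    · exact Or.inl (Finset.mem_filter.2 ⟨hxB, hb0⟩)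
    right
    by_cases hc0 : ss x.1 x.2 = 0
    · exact Or.inl (Finset.mem_filter.2 ⟨hxB, hc0⟩)
    right
    unfold Exc2 at hxE
    rcases hxE with h | h | h | ⟨p, hp, hpT, h⟩ | ⟨p, hp, hpT, h⟩
    · exact absurd h h0
    · exact absurd h hb0
    · exact absurd h hc0
    · rcases h with h | h | h | h
      · exact Or.inl (Finset.mem_filter.2 ⟨hxB, h0, hb0, p, hp, hpT, h.1, h.2⟩)
      · exact Or.inr (Or.inl (Finset.mem_filter.2 ⟨hxB, p, hp, hpT, Or.inl ⟨h0, h⟩⟩))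
      · exact Or.inr (Or.inl (Finset.mem_filter.2 ⟨hxB, p, hp, hpT, Or.inr (Or.inl ⟨hb0, h⟩)⟩))
      · exact Or.inr (Or.inl (Finset.mem_filter.2 ⟨hxB, p, hp, hpT, Or.inr (Or.inr ⟨hc0, h⟩)⟩))
    · refine Or.inr (Or.inr ⟨p, Finset.mem_filter.2 ⟨Finset.mem_range.2 (by omega), hp⟩, ?_⟩)
      refine Finset.mem_filter.2 ⟨hxB, ?_⟩
      rcases h with h | h | h
      · exact Or.inl ⟨h0, h⟩
      · exact Or.inr (Or.inl ⟨hb0, h⟩)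
      · exact Or.inr (Or.inr ⟨hc0, h⟩)
  have h1 : (S1.card : ℝ) ≤ 3 * Y := exc_total_zero Y hY uu (by
    intro k t t' h h'
    unfold uu at h h'
    omega)
  have h2 : (S2.card : ℝ) ≤ 3 * Y := exc_total_zero Y hY vv (by
    intro k t t' h h'
    unfold vv at h h'
    omega)
  have h3 : (S3.card : ℝ) ≤ 3 * Y := exc_total_zero Y hY ss (by
    intro k t t' h h'
    unfold ss at h h'
    omega)
  have ha : (Sa.card : ℝ) ≤ 24 * Y ^ 2 / T := exc_a Y hY T hT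
  have hb : (Sb.card : ℝ) ≤ 54 * Y ^ 2 / T := exc_b Y hY T hT
  have hQc : (Q.card : ℝ) ≤ T := by
    have h4 : Q ⊆ Finset.Icc 1 T := by
      intro p hp
      obtain ⟨h5, h6⟩ := Finset.mem_filter.1 hp
      rw [Finset.mem_range] at h5
      exact Finset.mem_Icc.2 ⟨h6.one_lt.le, by omega⟩
    have h5 := Finset.card_le_card h4
    rw [Nat.card_Icc, Nat.add_sub_cancel] at h5
    exact_mod_cast h5
  have hd : ((Q.biUnion Sd).card : ℝ) ≤ T * (54 * Y ^ 2 / 2 ^ j) := by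
    have h4 : ((Q.biUnion Sd).card : ℝ) ≤ ∑ p ∈ Q, ((Sd p).card : ℝ) := by
      exact_mod_cast Finset.card_biUnion_le
    have h5 : ∑ p ∈ Q, ((Sd p).card : ℝ) ≤ ∑ p ∈ Q, (54 * Y ^ 2 / 2 ^ j) :=
      Finset.sum_le_sum (fun p hp => exc_p Y hY p j (Finset.mem_filter.1 hp).2)
    rw [Finset.sum_const, nsmul_eq_mul] at h5
    have h6 : (0 : ℝ) ≤ 54 * Y ^ 2 / 2 ^ j := by positivity
    have h7 := mul_le_mul_of_nonneg_right hQc h6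
    linarith
  have hu : (((Box2 Y).filter (fun x => Exc2 T j x.1 x.2)).card : ℝ) ≤
      S1.card + (S2.card + (S3.card + (Sa.card + (Sb.card + (Q.biUnion Sd).card)))) := by
    have h4 := Finset.card_le_card hsub
    have h5 := Finset.card_union_le S1 (S2 ∪ (S3 ∪ (Sa ∪ (Sb ∪ Q.biUnion Sd))))
    have h6 := Finset.card_union_le S2 (S3 ∪ (Sa ∪ (Sb ∪ Q.biUnion Sd)))
    have h7 := Finset.card_union_le S3 (Sa ∪ (Sb ∪ Q.biUnion Sd))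
    have h8 := Finset.card_union_le Sa (Sb ∪ Q.biUnion Sd)
    have h9 := Finset.card_union_le Sb (Q.biUnion Sd)
    have h11 : ((Box2 Y).filter (fun x => Exc2 T j x.1 x.2)).card ≤
        S1.card + (S2.card + (S3.card + (Sa.card + (Sb.card + (Q.biUnion Sd).card)))) := by
      omega
    exact_mod_cast h11
  have hT0 : (0 : ℝ) < T := by
    have : 0 < T := by omega
    exact_mod_cast this
  have e1 : (78 / (T : ℝ) + 54 * T / 2 ^ j) * Y ^ 2 + 9 * Y =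
      24 * Y ^ 2 / T + 54 * Y ^ 2 / T + T * (54 * Y ^ 2 / 2 ^ j) + 9 * Y := by
    field_simp
    ring
  rw [e1]
  linarith
-- END exc_total

-- BEGIN low
private theorem low_count (L : ℕ) :
    2 * ((range (L + 1)).sigma (fun a => Ico 1 a)).card = L * (L - 1) := by
  rw [card_sigma]
  simp only [Nat.card_Ico]
  rw [sum_range_succ']
  simp only [Nat.add_sub_cancel, Nat.zero_sub, add_zero]
  rw [mul_comm, sum_range_id_mul_two]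

private theorem low_bad (L : ℕ) :
    (((range (L + 1) ×ˢ range (L + 1)).filter (fun x : ℕ × ℕ => 1 ≤ x.2 ∧ x.2 < x.1 ∧
      ∃ p : ℕ, p.Prime ∧ p ^ 2 ∣ x.1 ∧ p ^ 2 ∣ x.2)).card : ℝ) ≤ (L : ℝ) ^ 2 / 4 := by
  set U : Finset (ℕ × ℕ) := (Ioc 1 L).biUnion (fun n =>
    ((Ioc 0 L).filter (fun k => n ^ 2 ∣ k)) ×ˢ ((Ioc 0 L).filter (fun k => n ^ 2 ∣ k))) with hU
  have hsub : (range (L + 1) ×ˢ range (L + 1)).filter (fun x : ℕ × ℕ => 1 ≤ x.2 ∧ x.2 < x.1 ∧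
      ∃ p : ℕ, p.Prime ∧ p ^ 2 ∣ x.1 ∧ p ^ 2 ∣ x.2) ⊆ U := by
    intro x hx
    rw [mem_filter, mem_product, mem_range, mem_range] at hx
    obtain ⟨⟨h1, h2⟩, h3, h4, p, hp, h5, h6⟩ := hx
    rw [hU, mem_biUnion]
    refine ⟨p, ?_, ?_⟩
    · rw [mem_Ioc]
      refine ⟨hp.one_lt, ?_⟩
      have h7 : p ^ 2 ≤ x.2 := Nat.le_of_dvd (by omega) h6
      have h8 : p ≤ p ^ 2 := Nat.le_self_pow (by norm_num) p
      omega
    · rw [mem_product, mem_filter, mem_filter, mem_Ioc, mem_Ioc]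
      exact ⟨⟨⟨by omega, by omega⟩, h5⟩, ⟨⟨by omega, by omega⟩, h6⟩⟩
  have hcard : (U.card : ℝ) ≤ ∑ n ∈ Ioc 1 L, (L : ℝ) ^ 2 / 4 * (1 / (n : ℝ) ^ 2) := by
    calc (U.card : ℝ) ≤ ((∑ n ∈ Ioc 1 L, (((Ioc 0 L).filter (fun k => n ^ 2 ∣ k)) ×ˢ
          ((Ioc 0 L).filter (fun k => n ^ 2 ∣ k))).card : ℕ) : ℝ) := by
          exact_mod_cast card_biUnion_le
      _ = ∑ n ∈ Ioc 1 L, ((L / n ^ 2 : ℕ) : ℝ) * ((L / n ^ 2 : ℕ) : ℝ) := by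
          push_cast
          refine sum_congr rfl fun n _ => ?_
          rw [card_product, Nat.Ioc_filter_dvd_card_eq_div]
          push_cast
          rfl
      _ ≤ _ := by
          refine sum_le_sum fun n hn => ?_
          rw [mem_Ioc] at hn
          have hn2 : (2 : ℝ) ≤ n := by exact_mod_cast (by omega : 2 ≤ n)
          have h1 : ((L / n ^ 2 : ℕ) : ℝ) ≤ (L : ℝ) / (n : ℝ) ^ 2 := by
            have := @Nat.cast_div_le ℝ _ _ _ L (n ^ 2)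
            push_cast at this
            exact this
          have hL0 : (0 : ℝ) ≤ L := Nat.cast_nonneg L
          calc ((L / n ^ 2 : ℕ) : ℝ) * ((L / n ^ 2 : ℕ) : ℝ) ≤ ((L : ℝ) / (n : ℝ) ^ 2) * ((L : ℝ) / (n : ℝ) ^ 2) :=
                mul_le_mul h1 h1 (Nat.cast_nonneg _) (by positivity)
            _ = (L : ℝ) ^ 2 * (1 / (n : ℝ) ^ 2) * (1 / (n : ℝ) ^ 2) := by
                field_simp
            _ ≤ (L : ℝ) ^ 2 * (1 / 4) * (1 / (n : ℝ) ^ 2) := by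
                apply mul_le_mul_of_nonneg_right _ (by positivity)
                apply mul_le_mul_of_nonneg_left _ (by positivity)
                apply one_div_le_one_div_of_le (by norm_num)
                nlinarith
            _ = (L : ℝ) ^ 2 / 4 * (1 / (n : ℝ) ^ 2) := by ring
  calc _ ≤ (U.card : ℝ) := by exact_mod_cast card_le_card hsub
    _ ≤ _ := hcard
    _ = (L : ℝ) ^ 2 / 4 * ∑ n ∈ Ioc 1 L, 1 / (n : ℝ) ^ 2 := by rw [mul_sum]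
    _ ≤ (L : ℝ) ^ 2 / 4 * (1 / ((1 : ℕ) : ℝ)) :=
        mul_le_mul_of_nonneg_left (inv_sq 1 L (le_refl 1)) (by positivity)
    _ = (L : ℝ) ^ 2 / 4 := by rw [Nat.cast_one]; ring

/-- C6. `1 ≤ b < a ≤ Y/3` are in `Reg2 Y` (`4 (3a²)³ ≤ 108 Y⁶/729`), `u, v, s > 0`, so `disc ≠ 0`: about `Y²/18` pairs. Not minimal (`min_iff`): `p² ∣ a`, `p² ∣ b`: at most `∑_{n≥2} (Y/(3n²))² ≤ Y²/36` (`1/n⁴ ≤ 1/(4n²)`, `inv_sq`). -/
theorem low : ∃ Y₀ : ℝ, ∀ Y : ℝ, Y₀ ≤ Y → Y ^ 2 / 40 ≤ ((PR2 Y).card : ℝ) := by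
  refine ⟨120, fun Y hY => ?_⟩
  set L : ℕ := ⌊Y / 3⌋₊ with hL
  have hL1 : (L : ℝ) ≤ Y / 3 := Nat.floor_le (by linarith)
  have hL2 : Y / 3 - 1 < (L : ℝ) := Nat.sub_one_lt_floor _
  set S : Finset (ℕ × ℕ) := (range (L + 1) ×ˢ range (L + 1)).filter (fun x : ℕ × ℕ => 1 ≤ x.2 ∧ x.2 < x.1)
    with hS
  set Bd : Finset (ℕ × ℕ) := (range (L + 1) ×ˢ range (L + 1)).filter (fun x : ℕ × ℕ => 1 ≤ x.2 ∧ x.2 < x.1 ∧
      ∃ p : ℕ, p.Prime ∧ p ^ 2 ∣ x.1 ∧ p ^ 2 ∣ x.2) with hBd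
  have hScard : L * (L - 1) ≤ 2 * S.card := by
    rw [← low_count L]
    apply Nat.mul_le_mul_left
    refine Finset.card_le_card_of_injOn (fun x => (x.1, x.2)) ?_ ?_
    · intro x hx
      rw [mem_coe, mem_sigma, mem_range, mem_Ico] at hx
      rw [mem_coe, hS, mem_filter, mem_product, mem_range, mem_range]
      exact ⟨⟨hx.1, by show x.2 < L + 1; omega⟩, hx.2.1, hx.2.2⟩
    · intro x _ y _ hxy
      simp only [Prod.mk.injEq] at hxy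
      obtain ⟨e1, e2⟩ := hxy
      cases x
      cases y
      simp only at e1 e2
      subst e1
      subst e2
      rfl
  have hle : S.card ≤ (PR2 Y).card + Bd.card := by
    have hsplit : S ⊆ (S \ Bd) ∪ Bd := by
      intro x hx
      by_cases h : x ∈ Bd
      · exact mem_union_right _ h
      · exact mem_union_left _ (Finset.mem_sdiff.mpr ⟨hx, h⟩)
    have h1 : (S \ Bd).card ≤ (PR2 Y).card := by
      refine Finset.card_le_card_of_injOn (fun x => ((x.1 : ℤ), (x.2 : ℤ))) ?_ ?_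
      · intro x hx
        rw [mem_coe, Finset.mem_sdiff, hS, mem_filter, mem_product, mem_range, mem_range] at hx
        obtain ⟨⟨⟨h1, h2⟩, h3, h4⟩, h5⟩ := hx
        have hx1 : ((x.1 : ℕ) : ℝ) ≤ Y / 3 := le_trans (by exact_mod_cast (by omega : x.1 ≤ L)) hL1
        have hx21 : ((x.2 : ℕ) : ℝ) ≤ (x.1 : ℕ) := by exact_mod_cast h4.le
        have hx20 : (0 : ℝ) ≤ ((x.2 : ℕ) : ℝ) := Nat.cast_nonneg _
        have hx10 : (0 : ℝ) ≤ ((x.1 : ℕ) : ℝ) := Nat.cast_nonneg _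
        rw [mem_coe]
        unfold PR2 Reg2
        rw [mem_filter, mem_filter]
        refine ⟨⟨?_, ?_⟩, ?_, ?_⟩
        · unfold Box2
          rw [mem_product, mem_Icc, mem_Icc]
          have f1 : ((x.1 : ℕ) : ℤ) ≤ ⌊Y⌋ := Int.le_floor.mpr (by push_cast; linarith)
          have f2 : ((x.2 : ℕ) : ℤ) ≤ ⌊Y⌋ := Int.le_floor.mpr (by push_cast; linarith)
          refine ⟨⟨?_, f1⟩, ⟨?_, f2⟩⟩
          · show -⌊Y⌋ ≤ ((x.1 : ℕ) : ℤ)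
            omega
          · show -⌊Y⌋ ≤ ((x.2 : ℕ) : ℤ)
            omega
        · have e : |((Af (x.1 : ℤ) (x.2 : ℤ) : ℤ) : ℝ)| = (x.1 : ℝ) ^ 2 + x.1 * x.2 + (x.2 : ℝ) ^ 2 := by
            unfold Af
            push_cast
            rw [abs_neg, abs_of_nonneg (by positivity)]
          show 4 * |((Af (x.1 : ℤ) (x.2 : ℤ) : ℤ) : ℝ)| ^ 3 ≤ Y ^ 6
          rw [e]
          have g1 : (x.1 : ℝ) ^ 2 + x.1 * x.2 + (x.2 : ℝ) ^ 2 ≤ Y ^ 2 / 3 := by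
            have k1 : (x.1 : ℝ) * x.2 ≤ (Y / 3) * (Y / 3) :=
              mul_le_mul hx1 (le_trans hx21 hx1) hx20 (by linarith)
            have k2 : (x.1 : ℝ) ^ 2 ≤ (Y / 3) ^ 2 := pow_le_pow_left₀ hx10 hx1 2
            have k3 : (x.2 : ℝ) ^ 2 ≤ (Y / 3) ^ 2 := pow_le_pow_left₀ hx20 (le_trans hx21 hx1) 2
            nlinarith
          have g2 : ((x.1 : ℝ) ^ 2 + x.1 * x.2 + (x.2 : ℝ) ^ 2) ^ 3 ≤ (Y ^ 2 / 3) ^ 3 :=
            pow_le_pow_left₀ (by positivity) g1 3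
          have g3 : 4 * (Y ^ 2 / 3) ^ 3 ≤ Y ^ 6 := by
            have : 0 ≤ Y ^ 6 := by positivity
            have e3 : 4 * (Y ^ 2 / 3) ^ 3 = 4 / 27 * Y ^ 6 := by ring
            rw [e3]
            linarith
          linarith
        · show Minimal (Af (x.1 : ℤ) (x.2 : ℤ)) (Bf (x.1 : ℤ) (x.2 : ℤ))
          rw [min_iff]
          intro p hp hcon
          apply h5
          rw [hBd, mem_filter, mem_product, mem_range, mem_range]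
          refine ⟨⟨h1, h2⟩, h3, h4, p, hp, ?_, ?_⟩
          · exact_mod_cast hcon.1
          · exact_mod_cast hcon.2
        · show disc (Af (x.1 : ℤ) (x.2 : ℤ)) (Bf (x.1 : ℤ) (x.2 : ℤ)) ≠ 0
          rw [disc_eq]
          have u1 : 0 < uu (x.1 : ℤ) (x.2 : ℤ) := by unfold uu; omega
          have u2 : 0 < vv (x.1 : ℤ) (x.2 : ℤ) := by unfold vv; omega
          have u3 : 0 < ss (x.1 : ℤ) (x.2 : ℤ) := by unfold ss; omega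
          have u4 : 0 < (uu (x.1 : ℤ) (x.2 : ℤ) * vv (x.1 : ℤ) (x.2 : ℤ) * ss (x.1 : ℤ) (x.2 : ℤ)) ^ 2 := by
            positivity
          linarith
      · intro x _ y _ hxy
        simp only [Prod.mk.injEq] at hxy
        exact Prod.ext (by exact_mod_cast hxy.1) (by exact_mod_cast hxy.2)
    calc S.card ≤ ((S \ Bd) ∪ Bd).card := card_le_card hsplit
      _ ≤ (S \ Bd).card + Bd.card := card_union_le _ _
      _ ≤ (PR2 Y).card + Bd.card := Nat.add_le_add_right h1 _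
  have hbad := low_bad L
  have hL3 : 1 ≤ L := by
    have : (1 : ℝ) ≤ L := by linarith
    exact_mod_cast this
  have hS2 : (L : ℝ) * ((L : ℝ) - 1) ≤ 2 * (S.card : ℝ) := by
    have h1 : ((L * (L - 1) : ℕ) : ℝ) ≤ ((2 * S.card : ℕ) : ℝ) := by exact_mod_cast hScard
    push_cast [Nat.cast_sub hL3] at h1
    exact h1
  have hle' : (S.card : ℝ) ≤ ((PR2 Y).card : ℝ) + (Bd.card : ℝ) := by exact_mod_cast hle
  have hfin : (L : ℝ) ^ 2 / 4 - L / 2 ≤ ((PR2 Y).card : ℝ) := by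
    nlinarith
  have h9 : (Y / 3 - 1) ^ 2 / 4 - Y / 6 ≤ (L : ℝ) ^ 2 / 4 - L / 2 := by
    have k1 : (Y / 3 - 1) ^ 2 ≤ (L : ℝ) ^ 2 := pow_le_pow_left₀ (by linarith) hL2.le 2
    linarith
  have h10 : Y ^ 2 / 40 ≤ (Y / 3 - 1) ^ 2 / 4 - Y / 6 := by nlinarith
  linarith
-- END low

-- BEGIN exist
/-- C7. The roots are integers (`Rnt.root_int`), their sum is `0` (compare the identity at three values of `x`). -/
theorem exist (A B : ℤ) (a b c : ℚ) (h : ∀ x : ℚ, x ^ 3 + A * x + B = (x - a) * (x - b) * (x - c)) :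
    ∃ a' b' : ℤ, A = Af a' b' ∧ B = Bf a' b' := by
  have h0 := h 0
  have h1 := h 1
  have h2 := h (-1)
  have hs : a + b + c = 0 := by nlinarith
  have hc : c = -a - b := by linarith
  have hA : (A : ℚ) = -(a ^ 2 + a * b + b ^ 2) := by
    rw [hc] at h0 h1 h2
    nlinarith
  have hB : (B : ℚ) = a * b * (a + b) := by
    rw [hc] at h0
    nlinarith
  obtain ⟨a', ha, -⟩ := Rnt.root_int A B a (by rw [h a]; ring)
  obtain ⟨b', hb, -⟩ := Rnt.root_int A B b (by rw [h b]; ring)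
  refine ⟨a', b', ?_, ?_⟩
  · unfold Af
    rw [← ha, ← hb] at hA
    exact_mod_cast hA
  · unfold Bf
    rw [← ha, ← hb] at hB
    exact_mod_cast hB
-- END exist

-- BEGIN six
/-- C8. The pairs with the same curve. `x³ + Af x + Bf = (x - a)(x - b)(x + a + b)`; so `a'` is one of `a, b, -a-b`, and then `b'` is one of the other two. With `disc ≠ 0` the six pairs are distinct. -/
theorem six (a b a' b' : ℤ) (h : disc (Af a b) (Bf a b) ≠ 0) : (Af a' b' = Af a b ∧ Bf a' b' = Bf a b) ↔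
    (a', b') ∈ ({(a, b), (b, a), (a, -a - b), (-a - b, a), (b, -a - b), (-a - b, b)} : Finset (ℤ × ℤ)) := by
  simp only [Finset.mem_insert, Finset.mem_singleton, Prod.mk.injEq]
  unfold Af Bf
  constructor
  · rintro ⟨h1, h2⟩
    have h3 : (a' - a) * ((a' - b) * (a' + a + b)) = 0 := by
      have e : (a' - a) * ((a' - b) * (a' + a + b)) =
          a' ^ 3 + -(a ^ 2 + a * b + b ^ 2) * a' + a * b * (a + b) := by ring
      rw [e, ← h1, ← h2]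
      ring
    rcases mul_eq_zero.1 h3 with h4 | h4
    · have ha : a' = a := by linarith
      subst ha
      have h5 : (b' - b) * (b' + a' + b) = 0 := by linear_combination -h1
      rcases mul_eq_zero.1 h5 with h6 | h6
      · exact Or.inl ⟨rfl, by linarith⟩
      · exact Or.inr (Or.inr (Or.inl ⟨rfl, by linarith⟩))
    · rcases mul_eq_zero.1 h4 with h5 | h5
      · have ha : a' = b := by linarith
        subst ha
        have h5 : (b' - a) * (b' + a + a') = 0 := by linear_combination -h1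
        rcases mul_eq_zero.1 h5 with h6 | h6
        · exact Or.inr (Or.inl ⟨rfl, by linarith⟩)
        · exact Or.inr (Or.inr (Or.inr (Or.inr (Or.inl ⟨rfl, by linarith⟩))))
      · have ha : a' = -a - b := by linarith
        subst ha
        have h5 : (b' - a) * (b' - b) = 0 := by linear_combination -h1
        rcases mul_eq_zero.1 h5 with h6 | h6
        · exact Or.inr (Or.inr (Or.inr (Or.inl ⟨rfl, by linarith⟩)))
        · exact Or.inr (Or.inr (Or.inr (Or.inr (Or.inr ⟨rfl, by linarith⟩))))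
  · rintro (⟨rfl, rfl⟩ | ⟨rfl, rfl⟩ | ⟨rfl, rfl⟩ | ⟨rfl, rfl⟩ | ⟨rfl, rfl⟩ | ⟨rfl, rfl⟩)
    all_goals constructor <;> ring
-- END six

-- BEGIN six_card
/-- C9. -/
theorem six_card (a b : ℤ) (h : disc (Af a b) (Bf a b) ≠ 0) :
    ({(a, b), (b, a), (a, -a - b), (-a - b, a), (b, -a - b), (-a - b, b)} : Finset (ℤ × ℤ)).card = 6 := by
  rw [disc_eq] at h
  have hu : uu a b ≠ 0 := fun h0 => h (by rw [h0]; ring)
  have hv : vv a b ≠ 0 := fun h0 => h (by rw [h0]; ring)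
  have hs : ss a b ≠ 0 := fun h0 => h (by rw [h0]; ring)
  unfold uu at hu
  unfold vv at hv
  unfold ss at hs
  rw [card_insert_of_notMem, card_insert_of_notMem, card_insert_of_notMem, card_insert_of_notMem,
    card_insert_of_notMem, card_singleton] <;>
  simp only [mem_insert, mem_singleton, Prod.mk.injEq] <;> omega
-- END six_card

-- BEGIN fam_sum
private theorem fam_sum_mem (Y : ℝ) (hY : 0 ≤ Y) (x : ℤ × ℤ) : x ∈ PR2 Y ↔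
    (4 * |((Af x.1 x.2 : ℤ) : ℝ)| ^ 3 ≤ Y ^ 6 ∧ 27 * ((Bf x.1 x.2 : ℤ) : ℝ) ^ 2 ≤ Y ^ 6) ∧
      Minimal (Af x.1 x.2) (Bf x.1 x.2) ∧ disc (Af x.1 x.2) (Bf x.1 x.2) ≠ 0 := by
  obtain ⟨a, b⟩ := x
  unfold PR2
  rw [Finset.mem_filter, mem_Reg2 Y hY]

private theorem fam_sum_split (a b : ℤ) (x : ℚ) :
    x ^ 3 + ((Af a b : ℤ) : ℚ) * x + ((Bf a b : ℤ) : ℚ) = (x - a) * (x - b) * (x - ((-a - b : ℤ) : ℚ)) := by
  unfold Af Bf
  push_cast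
  ring

/-- C10. `F` is the image of `PR2 Y` under `(a, b) ↦ (Af a b, Bf a b)` (`mem_Reg2`, `exist`). Each fibre has exactly six elements (`six`, `six_card`). -/
theorem fam_sum (Y : ℝ) (hY : 0 ≤ Y) : ∃ F : Finset (ℤ × ℤ), (F : Set (ℤ × ℤ)) = Fam2 (Y ^ 6) ∧
    ∀ f : ℤ × ℤ → ℝ, ∑ E ∈ F, f E = (∑ x ∈ PR2 Y, f (Af x.1 x.2, Bf x.1 x.2)) / 6 := by
  set g : ℤ × ℤ → ℤ × ℤ := fun x => (Af x.1 x.2, Bf x.1 x.2) with hg
  refine ⟨(PR2 Y).image g, ?_, ?_⟩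
  · ext E
    obtain ⟨A, B⟩ := E
    rw [Finset.coe_image, Set.mem_image]
    constructor
    · rintro ⟨⟨a, b⟩, hx, hE⟩
      rw [Finset.mem_coe, fam_sum_mem Y hY] at hx
      obtain ⟨⟨h1, h2⟩, h3, h4⟩ := hx
      have e1 : Af a b = A := congrArg Prod.fst hE
      have e2 : Bf a b = B := congrArg Prod.snd hE
      subst e1
      subst e2
      exact ⟨h3, h4, ⟨(a : ℚ), (b : ℚ), ((-a - b : ℤ) : ℚ), fun x => fam_sum_split a b x⟩, h1, h2⟩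
    · rintro ⟨h1, h2, ⟨a, b, c, habc⟩, h3, h4⟩
      obtain ⟨a', b', hA, hB⟩ := exist A B a b c habc
      refine ⟨(a', b'), ?_, ?_⟩
      · rw [Finset.mem_coe, fam_sum_mem Y hY]
        show (4 * |((Af a' b' : ℤ) : ℝ)| ^ 3 ≤ Y ^ 6 ∧ 27 * ((Bf a' b' : ℤ) : ℝ) ^ 2 ≤ Y ^ 6) ∧
          Minimal (Af a' b') (Bf a' b') ∧ disc (Af a' b') (Bf a' b') ≠ 0
        rw [← hA, ← hB]
        exact ⟨⟨h3, h4⟩, h1, h2⟩
      · show (Af a' b', Bf a' b') = (A, B)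
        rw [← hA, ← hB]
  · intro f
    have h0 : ∑ x ∈ PR2 Y, f (g x) = ∑ b ∈ (PR2 Y).image g, ((PR2 Y).filter (fun a => g a = b)).card • f b :=
      Finset.sum_comp f g
    have h1 : ∀ E ∈ (PR2 Y).image g, ((PR2 Y).filter (fun x => g x = E)).card • f E = 6 * f E := by
      intro E hE
      obtain ⟨x, hx, hxE⟩ := Finset.mem_image.1 hE
      obtain ⟨a, b⟩ := x
      have hx' := (fam_sum_mem Y hY (a, b)).1 hx
      have hd : disc (Af a b) (Bf a b) ≠ 0 := hx'.2.2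
      have hfib : (PR2 Y).filter (fun x => g x = E) =
          ({(a, b), (b, a), (a, -a - b), (-a - b, a), (b, -a - b), (-a - b, b)} : Finset (ℤ × ℤ)) := by
        ext z
        obtain ⟨a', b'⟩ := z
        rw [Finset.mem_filter]
        constructor
        · rintro ⟨-, hz⟩
          rw [← hxE] at hz
          have e1 : Af a' b' = Af a b := congrArg Prod.fst hz
          have e2 : Bf a' b' = Bf a b := congrArg Prod.snd hz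
          exact (six a b a' b' hd).1 ⟨e1, e2⟩
        · intro hz
          obtain ⟨e1, e2⟩ := (six a b a' b' hd).2 hz
          refine ⟨?_, ?_⟩
          · rw [fam_sum_mem Y hY]
            show (4 * |((Af a' b' : ℤ) : ℝ)| ^ 3 ≤ Y ^ 6 ∧ 27 * ((Bf a' b' : ℤ) : ℝ) ^ 2 ≤ Y ^ 6) ∧
              Minimal (Af a' b') (Bf a' b') ∧ disc (Af a' b') (Bf a' b') ≠ 0
            rw [e1, e2]
            exact hx'
          · show (Af a' b', Bf a' b') = E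
            rw [e1, e2]
            exact hxE
      have hc : ((PR2 Y).filter (fun x => g x = E)).card = 6 := by
        rw [hfib]
        exact six_card a b hd
      rw [hc, nsmul_eq_mul]
      norm_num
    have h2 : ∑ x ∈ PR2 Y, f (Af x.1 x.2, Bf x.1 x.2) = 6 * ∑ E ∈ (PR2 Y).image g, f E := by
      rw [Finset.mul_sum]
      exact h0.trans (Finset.sum_congr rfl h1)
    rw [h2]
    ring
-- END fam_sum

end Rn2
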