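import Pool.Agent.Rnc.Core
import Pool.Agent.Rn2.Cnt

/-!
# Rn2 ASM: assembly
-/

set_option autoImplicit false

namespace Rn2

open Finset Filter Topology Rnt

open scoped Classical

/-- the pair `(a, b)` with `u = σ U m`, `v = w` satisfies all the conditions other than the congruences -/
def PP2 (Y : ℝ) (τ : Bool × Bool × Bool) (σU : ℤ) (w : ℤ) (m : ℕ) : Prop :=
  4 * ((((σU * m) ^ 2 + σU * m * w + w ^ 2 : ℤ) : ℝ) / 3) ^ 3 ≤ Y ^ 6 ∧ sgb τ.1 (σU * m) ∧ sgb τ.2.1 w ∧ sgb τ.2.2 (σU * m + w)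

-- BEGIN conv
private theorem conv_aux {x y : ℤ} (h : 0 < x * y) (hx : 0 ≤ x) : 0 < y := by
  by_contra hy
  rw [not_lt] at hy
  have := mul_nonpos_of_nonneg_of_nonpos hx hy
  linarith

private theorem conv_pos (U c : ℤ) (m m' m'' : ℕ) (h1 : m ≤ m') (h2 : m' ≤ m'')
    (h : 0 < U * m + c) (h' : 0 < U * m'' + c) : 0 < U * m' + c := by
  have h1' : (m : ℤ) ≤ m' := by exact_mod_cast h1
  have h2' : (m' : ℤ) ≤ m'' := by exact_mod_cast h2
  rcases le_or_gt 0 U with hU | hU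
  · have := mul_le_mul_of_nonneg_left h1' hU
    linarith
  · have := mul_le_mul_of_nonpos_left h2' hU.le
    linarith

private theorem conv_sgb (s : Bool) (U c : ℤ) (m m' m'' : ℕ) (h1 : m ≤ m') (h2 : m' ≤ m'')
    (h : sgb s (U * m + c)) (h' : sgb s (U * m'' + c)) : sgb s (U * m' + c) := by
  cases s with
  | true =>
    simp only [sgb, if_true] at h h' ⊢
    exact conv_pos U c m m' m'' h1 h2 h h'
  | false =>
    simp only [sgb, Bool.false_eq_true, if_false] at h h' ⊢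
    have := conv_pos (-U) (-c) m m' m'' h1 h2 (by linarith) (by linarith)
    linarith

/-- T0. For fixed `w` the condition is convex in `m`: `q(m) = (σU m)² + σU m w + w²` is convex and `t ↦ t³` is increasing on `[0, ∞)`; the sign conditions are linear. -/
theorem conv (Y : ℝ) (τ : Bool × Bool × Bool) (σU : ℤ) (w : ℤ) (m m' m'' : ℕ) (h1 : m ≤ m') (h2 : m' ≤ m'')
    (h : PP2 Y τ σU w m) (h' : PP2 Y τ σU w m'') : PP2 Y τ σU w m' := by
  obtain ⟨a1, a2, a3, a4⟩ := h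
  obtain ⟨b1, b2, b3, b4⟩ := h'
  refine ⟨?_, ?_, a3, ?_⟩
  · have h1' : (m : ℤ) ≤ m' := by exact_mod_cast h1
    have h2' : (m' : ℤ) ≤ m'' := by exact_mod_cast h2
    have hq0 : 0 ≤ (σU * m') ^ 2 + σU * m' * w + w ^ 2 := by
      nlinarith [sq_nonneg (σU * m' + w), sq_nonneg (σU * (m' : ℤ)), sq_nonneg w]
    have key : (σU * m') ^ 2 + σU * m' * w + w ^ 2 ≤ (σU * m) ^ 2 + σU * m * w + w ^ 2 ∨
        (σU * m') ^ 2 + σU * m' * w + w ^ 2 ≤ (σU * m'') ^ 2 + σU * m'' * w + w ^ 2 := by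
      by_contra hcon
      rw [not_or, not_le, not_le] at hcon
      obtain ⟨c1, c2⟩ := hcon
      have d1 : 0 < ((m' : ℤ) - m) * (σU ^ 2 * (m' + m) + σU * w) := by nlinarith
      have d2 : 0 < ((m'' : ℤ) - m') * (-(σU ^ 2 * (m'' + m') + σU * w)) := by nlinarith
      have e1 : 0 < σU ^ 2 * ((m' : ℤ) + m) + σU * w := conv_aux d1 (by linarith)
      have e2 : 0 < -(σU ^ 2 * ((m'' : ℤ) + m') + σU * w) := conv_aux d2 (by linarith)
      have e3 : σU ^ 2 * ((m' : ℤ) + m) ≤ σU ^ 2 * ((m'' : ℤ) + m') :=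
        mul_le_mul_of_nonneg_left (by linarith) (sq_nonneg _)
      linarith
    have mono : ∀ {x y : ℤ}, 0 ≤ x → x ≤ y → 4 * ((y : ℝ) / 3) ^ 3 ≤ Y ^ 6 → 4 * ((x : ℝ) / 3) ^ 3 ≤ Y ^ 6 := by
      intro x y hx hxy hy
      have hx' : (0 : ℝ) ≤ x := by exact_mod_cast hx
      have hxy' : (x : ℝ) ≤ y := by exact_mod_cast hxy
      have : ((x : ℝ) / 3) ^ 3 ≤ ((y : ℝ) / 3) ^ 3 :=
        pow_le_pow_left₀ (by positivity) (by linarith) 3
      linarith
    rcases key with hk | hk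
    · exact mono hq0 hk a1
    · exact mono hq0 hk b1
  · have := conv_sgb τ.1 σU 0 m m' m'' h1 h2 (by rw [add_zero]; exact a2) (by rw [add_zero]; exact b2)
    rwa [add_zero] at this
  · exact conv_sgb τ.2.2 σU w m m' m'' h1 h2 a4 b4
-- END conv

-- BEGIN cell_sum
/-- the congruences in `cell_sum` -/
def cell_sum_C (M : ℕ) (a₀ b₀ : ℤ) (σU w : ℤ) (m : ℕ) : Prop :=
  (3 * (M : ℤ)) ∣ (w - σU * m) - 3 * b₀ ∧ (3 * (M : ℤ)) ∣ (2 * (σU * m) + w) - 3 * a₀

private theorem cell_sum_reg (Y : ℝ) (hY : 0 ≤ Y) (a b : ℤ) : (a, b) ∈ Reg2 Y ↔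
    4 * ((((uu a b) ^ 2 + uu a b * vv a b + vv a b ^ 2 : ℤ) : ℝ) / 3) ^ 3 ≤ Y ^ 6 := by
  have h1 : |((Af a b : ℤ) : ℝ)| = (((uu a b) ^ 2 + uu a b * vv a b + vv a b ^ 2 : ℤ) : ℝ) / 3 := by
    have h2 : ((uu a b) ^ 2 + uu a b * vv a b + vv a b ^ 2 : ℤ) = 3 * (a ^ 2 + a * b + b ^ 2) := by
      unfold uu vv; ring
    have h3 : (0 : ℝ) ≤ (a : ℝ) ^ 2 + a * b + b ^ 2 := by
      nlinarith [sq_nonneg ((a : ℝ) + b), sq_nonneg (a : ℝ), sq_nonneg (b : ℝ)]
    rw [h2]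
    unfold Af
    push_cast
    rw [abs_neg, abs_of_nonneg h3]
    ring
  rw [mem_Reg2 Y hY, h1]
  constructor
  · exact fun h => h.1
  · intro h
    refine ⟨h, le_trans ?_ h⟩
    rw [← h1]
    have h3 := disc_eq a b
    unfold disc at h3
    have h4 : 4 * ((Af a b : ℤ) : ℝ) ^ 3 + 27 * ((Bf a b : ℤ) : ℝ) ^ 2 ≤ 0 := by
      have h5 : 4 * (Af a b) ^ 3 + 27 * (Bf a b) ^ 2 ≤ 0 := by
        rw [h3]
        nlinarith [sq_nonneg (uu a b * vv a b * ss a b)]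
      exact_mod_cast h5
    have h5 : -((Af a b : ℤ) : ℝ) ^ 3 ≤ |((Af a b : ℤ) : ℝ)| ^ 3 := by
      have h6 : -((Af a b : ℤ) : ℝ) ^ 3 ≤ |((Af a b : ℤ) : ℝ) ^ 3| := neg_le_abs _
      rwa [abs_pow] at h6
    linarith

private theorem cell_sum_u (u : ℤ) (U : ℕ) (hU : 0 < U) (hd : (U : ℤ) ∣ u) (s : Bool) (h : sgb s u) :
    (if s then (1 : ℤ) else -1) * U * ((u / U).natAbs : ℕ) = u ∧ 1 ≤ (u / U).natAbs := by
  obtain ⟨k, rfl⟩ := hd
  have hU' : (0 : ℤ) < U := by exact_mod_cast hU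
  rw [Int.mul_ediv_cancel_left _ hU'.ne']
  cases s with
  | true =>
    simp only [sgb, if_true] at h
    have hk : 0 < k := (mul_pos_iff_of_pos_left hU').1 h
    refine ⟨?_, by omega⟩
    have : ((k.natAbs : ℕ) : ℤ) = k := Int.natAbs_of_nonneg hk.le
    simp only [if_true]
    rw [this]; ring
  | false =>
    simp only [sgb, Bool.false_eq_true, if_false] at h
    have hk : k < 0 := by
      by_contra hc
      push Not at hc
      have : 0 ≤ (U : ℤ) * k := mul_nonneg hU'.le hc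
      omega
    refine ⟨?_, by omega⟩
    have : ((k.natAbs : ℕ) : ℤ) = -k := by omega
    simp only [Bool.false_eq_true, if_false]
    rw [this]; ring

/-- T1. `σ` the sign of `u` in the cell, `N = ⌈3Y⌉₊`, `coreP` with `P w m = PP2 Y τ (σ U) w m`, `Q = 3M`, `ρ w m = 1` if `3M ∣ (w - σUm) - 3b₀` and `3M ∣ (2σUm + w) - 3a₀`, else `0`; `ψ w = |w/V|` if `V ∣ w`, else `1`; `s₀ = ss a₀ b₀`.
`(a, b) ↦ (vv a b, |uu a b / U|)` is a bijection of the cell onto the pairs `(w, m)`, `|w| ≤ N`, `1 ≤ m ≤ N`, with `P w m`, `ρ w m = 1` (inverse: `b = (w - σUm)/3`, `a = (2σUm + w)/3`; `Af = -(u² + uv + v²)/3`; `Reg2 Y` from `mem_Reg2`'s box argument), and there the terms agree up to the factor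
`mob (w / V)` of absolute value `≤ 1`. -/
theorem cell_sum (M U V S : ℕ) (hM : 0 < M) (hU : 0 < U) (hV : 0 < V) (hS : 0 < S) (hUM : U ∣ M) (hVM : V ∣ M) (hSM : S ∣ M) (a₀ b₀ : ℤ)
    (hu : (U : ℤ) ∣ uu a₀ b₀) (hv : (V : ℤ) ∣ vv a₀ b₀) (hs : (S : ℤ) ∣ ss a₀ b₀) (ε : ℝ) (hε : 0 < ε) (τ : Bool × Bool × Bool) :
    ∃ Y₀ : ℝ, ∀ Y : ℝ, Y₀ ≤ Y →
      |∑ x ∈ Cell2 M a₀ b₀ τ Y, mob (uu x.1 x.2 / U) * mob (vv x.1 x.2 / V) * mob (ss x.1 x.2 / S) *
        ((jacobiSym (((uu x.1 x.2 / U).natAbs : ℕ) : ℤ) (vv x.1 x.2 / V).natAbs : ℤ) : ℝ)| ≤ ε * Y ^ 2 := by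
  have hUM' : (U : ℤ) ∣ M := by exact_mod_cast hUM
  have hVM' : (V : ℤ) ∣ M := by exact_mod_cast hVM
  have hSM' : (S : ℤ) ∣ M := by exact_mod_cast hSM
  obtain ⟨σ, hσdef⟩ : ∃ σ : ℤ, σ = if τ.1 then (1 : ℤ) else -1 := ⟨_, rfl⟩
  have hσ : σ = 1 ∨ σ = -1 := by
    rw [hσdef]; split_ifs
    · exact Or.inl rfl
    · exact Or.inr rfl
  obtain ⟨N₀, hN₀⟩ := Rnc.coreP M S U hM hS hU (ss a₀ b₀) σ hσ (3 * M) (by positivity) (ε / 16) (by positivity)
  refine ⟨max N₀ 1, fun Y hY => ?_⟩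
  have hYN : (N₀ : ℝ) ≤ Y := le_trans (le_max_left _ _) hY
  have hY1 : 1 ≤ Y := le_trans (le_max_right _ _) hY
  have hY0 : 0 ≤ Y := by linarith
  obtain ⟨N, hN⟩ : ∃ N : ℕ, N = ⌈3 * Y⌉₊ := ⟨_, rfl⟩
  have hN3 : 3 * Y ≤ N := by rw [hN]; exact Nat.le_ceil _
  have hN4 : (N : ℝ) ≤ 4 * Y := by
    rw [hN]
    have := Nat.ceil_lt_add_one (show 0 ≤ 3 * Y by linarith)
    linarith
  have hN0 : N₀ ≤ N := by
    have : (N₀ : ℝ) ≤ N := by linarith
    exact_mod_cast this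
  have hfl : 3 * ⌊Y⌋ ≤ (N : ℤ) := by
    have h1 := Int.floor_le Y
    have : (3 : ℝ) * (⌊Y⌋ : ℤ) ≤ N := by linarith
    exact_mod_cast this
  have key := hN₀ N hN0 (fun w m => PP2 Y τ (σ * U) w m)
    (fun w m m' m'' h1 h2 h h' => conv Y τ (σ * U) w m m' m'' h1 h2 h h')
    (fun w m => if cell_sum_C M a₀ b₀ (σ * U) w m then (1 : ℝ) else 0)
    (by
      intro w m
      split_ifs <;> simp)
    (by
      intro w m m' hm
      have h1 : ((3 * M : ℕ) : ℤ) ∣ (m' : ℤ) - m := Nat.modEq_iff_dvd.1 hm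
      push_cast at h1
      have h2 : cell_sum_C M a₀ b₀ (σ * U) w m ↔ cell_sum_C M a₀ b₀ (σ * U) w m' := by
        unfold cell_sum_C
        have e1 : (w - σ * U * m) - 3 * b₀ = ((w - σ * U * m') - 3 * b₀) + (m' - m) * (σ * U) := by ring
        have e2 : (2 * (σ * U * m) + w) - 3 * a₀ = ((2 * (σ * U * m') + w) - 3 * a₀) - (m' - m) * (2 * (σ * U)) := by ring
        rw [e1, e2, dvd_add_left (Dvd.dvd.mul_right h1 _), dvd_sub_left (Dvd.dvd.mul_right h1 _)]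
      simp only [h2])
    (fun w => if (V : ℤ) ∣ w then (w / V).natAbs else 1)
    (by
      intro w _
      split_ifs with h
      · exact Int.natAbs_dvd_natAbs.2 (Int.ediv_dvd_of_dvd h)
      · exact one_dvd _)
  have e : ∑ x ∈ Cell2 M a₀ b₀ τ Y, mob (uu x.1 x.2 / U) * mob (vv x.1 x.2 / V) * mob (ss x.1 x.2 / S) *
        ((jacobiSym (((uu x.1 x.2 / U).natAbs : ℕ) : ℤ) (vv x.1 x.2 / V).natAbs : ℤ) : ℝ) =
      ∑ w ∈ Icc (-(N : ℤ)) N, mob (w / V) * ∑ m ∈ (Icc 1 N).filter (fun m => PP2 Y τ (σ * U) w m),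
        mob m * ((if cell_sum_C M a₀ b₀ (σ * U) w m then (1 : ℝ) else 0) *
          ((jacobiSym (m : ℤ) (if (V : ℤ) ∣ w then (w / V).natAbs else 1) : ℤ) : ℝ) *
          gg M S (ss a₀ b₀) (σ * U * m + w)) := by
    simp_rw [Finset.mul_sum]
    rw [Finset.sum_sigma']
    rw [← Finset.sum_filter_add_sum_filter_not
      ((Icc (-(N : ℤ)) N).sigma fun w => (Icc 1 N).filter (fun m => PP2 Y τ (σ * U) w m))
      (fun p => cell_sum_C M a₀ b₀ (σ * U) p.1 p.2)]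
    have z : ∑ p ∈ ((Icc (-(N : ℤ)) N).sigma fun w => (Icc 1 N).filter (fun m => PP2 Y τ (σ * U) w m)).filter
        (fun p => ¬ cell_sum_C M a₀ b₀ (σ * U) p.1 p.2),
        mob (p.1 / V) * (mob p.2 * ((if cell_sum_C M a₀ b₀ (σ * U) p.1 p.2 then (1 : ℝ) else 0) *
          ((jacobiSym (p.2 : ℤ) (if (V : ℤ) ∣ p.1 then (p.1 / V).natAbs else 1) : ℤ) : ℝ) *
          gg M S (ss a₀ b₀) (σ * U * p.2 + p.1))) = 0 := by
      apply Finset.sum_eq_zero
      intro p hp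
      rw [if_neg (Finset.mem_filter.1 hp).2]
      ring
    rw [z, add_zero]
    -- facts for a point of the cell
    have facts : ∀ x ∈ Cell2 M a₀ b₀ τ Y, x ∈ Reg2 Y ∧ sgb τ.1 (uu x.1 x.2) ∧ sgb τ.2.1 (vv x.1 x.2) ∧
        sgb τ.2.2 (ss x.1 x.2) ∧ (M : ℤ) ∣ x.1 - a₀ ∧ (M : ℤ) ∣ x.2 - b₀ ∧
        σ * U * ((uu x.1 x.2 / U).natAbs : ℕ) = uu x.1 x.2 ∧ 1 ≤ (uu x.1 x.2 / U).natAbs ∧ (V : ℤ) ∣ vv x.1 x.2 ∧
        (S : ℤ) ∣ ss x.1 x.2 ∧ (M : ℤ) ∣ ss x.1 x.2 - ss a₀ b₀ := by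
      intro x hx
      unfold Cell2 at hx
      rw [Finset.mem_filter] at hx
      obtain ⟨h1, ⟨h2, h3, h4⟩, h5, h6⟩ := hx
      have du : (M : ℤ) ∣ uu x.1 x.2 - uu a₀ b₀ := by
        have : uu x.1 x.2 - uu a₀ b₀ = (x.1 - a₀) - (x.2 - b₀) := by unfold uu; ring
        rw [this]; exact dvd_sub h5 h6
      have dv : (M : ℤ) ∣ vv x.1 x.2 - vv a₀ b₀ := by
        have : vv x.1 x.2 - vv a₀ b₀ = (x.1 - a₀) + (x.2 - b₀) * 2 := by unfold vv; ring
        rw [this]; exact dvd_add h5 (Dvd.dvd.mul_right h6 _)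
      have ds : (M : ℤ) ∣ ss x.1 x.2 - ss a₀ b₀ := by
        have : ss x.1 x.2 - ss a₀ b₀ = (x.1 - a₀) * 2 + (x.2 - b₀) := by unfold ss; ring
        rw [this]; exact dvd_add (Dvd.dvd.mul_right h5 _) h6
      have hu' : (U : ℤ) ∣ uu x.1 x.2 := by
        have := dvd_add (hUM'.trans du) hu
        rwa [sub_add_cancel] at this
      have hv' : (V : ℤ) ∣ vv x.1 x.2 := by
        have := dvd_add (hVM'.trans dv) hv
        rwa [sub_add_cancel] at this
      have hs' : (S : ℤ) ∣ ss x.1 x.2 := by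
        have := dvd_add (hSM'.trans ds) hs
        rwa [sub_add_cancel] at this
      obtain ⟨h7, h8⟩ := cell_sum_u _ U hU hu' τ.1 h2
      rw [← hσdef] at h7
      exact ⟨h1, h2, h3, h4, h5, h6, h7, h8, hv', hs', ds⟩
    refine Finset.sum_bij' (fun x _ => (⟨vv x.1 x.2, (uu x.1 x.2 / U).natAbs⟩ : Σ _ : ℤ, ℕ))
      (fun p _ => ((2 * (σ * U * p.2) + p.1) / 3, (p.1 - σ * U * p.2) / 3)) ?_ ?_ ?_ ?_ ?_
    · intro x hx
      obtain ⟨h1, h2, h3, h4, h5, h6, h7, h8, -, -, -⟩ := facts x hx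
      have hreg := h1
      unfold Reg2 Box2 at h1
      simp only [Finset.mem_filter, Finset.mem_product, Finset.mem_Icc] at h1
      obtain ⟨⟨⟨a1, a2⟩, b1, b2⟩, -⟩ := h1
      rw [Finset.mem_filter, Finset.mem_sigma, Finset.mem_filter, Finset.mem_Icc, Finset.mem_Icc]
      dsimp only
      refine ⟨⟨⟨?_, ?_⟩, ⟨h8, ?_⟩, ?_, ?_, h3, ?_⟩, ?_, ?_⟩
      · unfold vv; linarith
      · unfold vv; linarith
      · have q1 : (uu x.1 x.2 / U).natAbs ≤ (uu x.1 x.2).natAbs := Int.natAbs_ediv_le_natAbs _ _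
        have q2 : ((uu x.1 x.2).natAbs : ℤ) ≤ N := by
          rw [Int.natCast_natAbs, abs_le]
          unfold uu
          constructor <;> linarith
        have q3 : (uu x.1 x.2).natAbs ≤ N := by exact_mod_cast q2
        exact q1.trans q3
      · rw [h7]
        exact (cell_sum_reg Y hY0 x.1 x.2).1 hreg
      · rw [h7]; exact h2
      · rw [h7, ← ss_eq]; exact h4
      · rw [h7]
        have : vv x.1 x.2 - uu x.1 x.2 - 3 * b₀ = 3 * (x.2 - b₀) := by unfold vv uu; ring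
        rw [this]
        exact mul_dvd_mul_left 3 h6
      · rw [h7]
        have : 2 * uu x.1 x.2 + vv x.1 x.2 - 3 * a₀ = 3 * (x.1 - a₀) := by unfold vv uu; ring
        rw [this]
        exact mul_dvd_mul_left 3 h5
    · intro p hp
      rw [Finset.mem_filter, Finset.mem_sigma, Finset.mem_filter] at hp
      obtain ⟨⟨-, -, hP1, hP2, hP3, hP4⟩, hC1, hC2⟩ := hp
      obtain ⟨k, hk⟩ := hC1
      obtain ⟨l, hl⟩ := hC2
      have e1 : p.1 - σ * U * p.2 = 3 * (b₀ + M * k) := by linear_combination hk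
      have e2 : 2 * (σ * U * p.2) + p.1 = 3 * (a₀ + M * l) := by linear_combination hl
      rw [e1, e2, Int.mul_ediv_cancel_left _ (by norm_num), Int.mul_ediv_cancel_left _ (by norm_num)]
      have eu : uu (a₀ + M * l) (b₀ + M * k) = σ * U * p.2 := by
        have : 3 * uu (a₀ + M * l) (b₀ + M * k) = 3 * (σ * U * p.2) := by
          unfold uu; linear_combination e1 - e2
        exact mul_left_cancel₀ (by norm_num) this
      have ev : vv (a₀ + M * l) (b₀ + M * k) = p.1 := by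
        have : 3 * vv (a₀ + M * l) (b₀ + M * k) = 3 * p.1 := by
          unfold vv; linear_combination - e2 - 2 * e1
        exact mul_left_cancel₀ (by norm_num) this
      unfold Cell2
      rw [Finset.mem_filter]
      dsimp only
      rw [ss_eq, eu, ev]
      refine ⟨?_, ⟨hP2, hP3, hP4⟩, ?_, ?_⟩
      · rw [cell_sum_reg Y hY0, eu, ev]; exact hP1
      · rw [add_sub_cancel_left]; exact Dvd.intro _ rfl
      · rw [add_sub_cancel_left]; exact Dvd.intro _ rfl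
    · intro x hx
      obtain ⟨-, -, -, -, -, -, h7, -, -, -, -⟩ := facts x hx
      dsimp only
      rw [h7]
      have e1 : vv x.1 x.2 - uu x.1 x.2 = 3 * x.2 := by unfold vv uu; ring
      have e2 : 2 * uu x.1 x.2 + vv x.1 x.2 = 3 * x.1 := by unfold vv uu; ring
      rw [e1, e2, Int.mul_ediv_cancel_left _ (by norm_num), Int.mul_ediv_cancel_left _ (by norm_num)]
    · intro p hp
      rw [Finset.mem_filter, Finset.mem_sigma, Finset.mem_filter] at hp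
      obtain ⟨-, hC1, hC2⟩ := hp
      dsimp only
      obtain ⟨k, hk⟩ := hC1
      obtain ⟨l, hl⟩ := hC2
      have e1 : p.1 - σ * U * p.2 = 3 * (b₀ + M * k) := by linear_combination hk
      have e2 : 2 * (σ * U * p.2) + p.1 = 3 * (a₀ + M * l) := by linear_combination hl
      rw [e1, e2, Int.mul_ediv_cancel_left _ (by norm_num), Int.mul_ediv_cancel_left _ (by norm_num)]
      have eu : uu (a₀ + M * l) (b₀ + M * k) = U * (σ * p.2) := by
        have : 3 * uu (a₀ + M * l) (b₀ + M * k) = 3 * (U * (σ * p.2)) := by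
          unfold uu; linear_combination e1 - e2
        exact mul_left_cancel₀ (by norm_num) this
      have ev : vv (a₀ + M * l) (b₀ + M * k) = p.1 := by
        have : 3 * vv (a₀ + M * l) (b₀ + M * k) = 3 * p.1 := by
          unfold vv; linear_combination - e2 - 2 * e1
        exact mul_left_cancel₀ (by norm_num) this
      have hU' : (U : ℤ) ≠ 0 := by exact_mod_cast hU.ne'
      rw [eu, ev, Int.mul_ediv_cancel_left _ hU']
      have hn : (σ * (p.2 : ℤ)).natAbs = p.2 := by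
        rcases hσ with h | h <;> rw [h] <;> simp
      rw [hn]
    · intro x hx
      obtain ⟨-, -, -, -, h5, h6, h7, -, hv', hs', ds⟩ := facts x hx
      dsimp only
      have hC : cell_sum_C M a₀ b₀ (σ * U) (vv x.1 x.2) (uu x.1 x.2 / U).natAbs := by
        unfold cell_sum_C
        rw [h7]
        constructor
        · have : vv x.1 x.2 - uu x.1 x.2 - 3 * b₀ = 3 * (x.2 - b₀) := by unfold vv uu; ring
          rw [this]
          exact mul_dvd_mul_left 3 h6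
        · have : 2 * uu x.1 x.2 + vv x.1 x.2 - 3 * a₀ = 3 * (x.1 - a₀) := by unfold vv uu; ring
          rw [this]
          exact mul_dvd_mul_left 3 h5
      have hmob : mob (((uu x.1 x.2 / U).natAbs : ℕ) : ℤ) = mob (uu x.1 x.2 / U) := by
        unfold mob; rw [Int.natAbs_natCast]
      have hgg : gg M S (ss a₀ b₀) (ss x.1 x.2) = mob (ss x.1 x.2 / S) := by
        unfold gg; rw [if_pos ⟨hs', ds⟩]
      rw [if_pos hC, if_pos hv', h7, ← ss_eq, hgg, hmob]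
      ring
  rw [e]
  have hmob1 : ∀ n : ℤ, |mob n| ≤ 1 := by
    intro n
    unfold mob
    have h1 : |ArithmeticFunction.moebius n.natAbs| ≤ 1 := ArithmeticFunction.abs_moebius_le_one
    exact_mod_cast h1
  calc _ ≤ ∑ w ∈ Icc (-(N : ℤ)) N, |mob (w / V) * ∑ m ∈ (Icc 1 N).filter (fun m => PP2 Y τ (σ * U) w m),
        mob m * ((if cell_sum_C M a₀ b₀ (σ * U) w m then (1 : ℝ) else 0) *
          ((jacobiSym (m : ℤ) (if (V : ℤ) ∣ w then (w / V).natAbs else 1) : ℤ) : ℝ) *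
          gg M S (ss a₀ b₀) (σ * U * m + w))| := Finset.abs_sum_le_sum_abs _ _
    _ ≤ ∑ w ∈ Icc (-(N : ℤ)) N, |∑ m ∈ (Icc 1 N).filter (fun m => PP2 Y τ (σ * U) w m),
        mob m * ((if cell_sum_C M a₀ b₀ (σ * U) w m then (1 : ℝ) else 0) *
          ((jacobiSym (m : ℤ) (if (V : ℤ) ∣ w then (w / V).natAbs else 1) : ℤ) : ℝ) *
          gg M S (ss a₀ b₀) (σ * U * m + w))| := by
        refine Finset.sum_le_sum fun w _ => ?_
        rw [abs_mul]
        exact mul_le_of_le_one_left (abs_nonneg _) (hmob1 _)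
    _ ≤ ε / 16 * (N : ℝ) ^ 2 := key
    _ ≤ ε / 16 * (4 * Y) ^ 2 := by
        apply mul_le_mul_of_nonneg_left _ (by positivity)
        exact pow_le_pow_left₀ (Nat.cast_nonneg N) hN4 2
    _ = ε * Y ^ 2 := by ring
-- END cell_sum

variable (w2 : ℤ_[2] × ℤ_[2] → ℤ) (w3 : ℤ_[3] × ℤ_[3] → ℤ)

/-- the root number of minimal non singular pairs, else `0` -/
noncomputable def wm (x : ℤ × ℤ) : ℝ :=
  if Minimal (Af x.1 x.2) (Bf x.1 x.2) ∧ disc (Af x.1 x.2) (Bf x.1 x.2) ≠ 0 then (rootNumber w2 w3 (Af x.1 x.2) (Bf x.1 x.2) : ℝ) else 0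

-- BEGIN cell_bound
private theorem cell_bound2_wm (w2 : ℤ_[2] × ℤ_[2] → ℤ) (w3 : ℤ_[3] × ℤ_[3] → ℤ) (h2 : LocalSign 2 w2) (h3 : LocalSign 3 w3)
    (x : ℤ × ℤ) : |wm w2 w3 x| ≤ 1 := by
  unfold wm
  split_ifs
  · rcases rn_pm w2 w3 h2 h3 (Af x.1 x.2) (Bf x.1 x.2) with h | h <;> rw [h] <;> norm_num
  · simp

private theorem cell_bound2_mob (n : ℤ) : |mob n| ≤ 1 := by
  unfold mob
  have h := ArithmeticFunction.abs_moebius_le_one (n := n.natAbs)
  exact_mod_cast h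

private theorem cell_bound2_jac (a : ℤ) (n : ℕ) : |((jacobiSym a n : ℤ) : ℝ)| ≤ 1 := by
  rcases jacobiSym.trichotomy a n with h | h | h <;> rw [h] <;> norm_num

private theorem cell_bound2_sg (σ : Bool) (n n' : ℤ) (h : sgb σ n) (h' : sgb σ n') : n.sign = n'.sign := by
  cases σ with
  | true =>
    simp only [sgb, if_true] at h h'
    rw [Int.sign_eq_one_of_pos h, Int.sign_eq_one_of_pos h']
  | false =>
    simp only [sgb, Bool.false_eq_true, if_false] at h h'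
    rw [Int.sign_eq_neg_one_of_neg h, Int.sign_eq_neg_one_of_neg h']

private theorem cell_bound2_ro (T : ℕ) (n : ℤ) : mob ((ro T n : ℕ) : ℤ) = mob (n / sm T n) := by
  unfold mob ro
  rw [Int.natAbs_natCast]

private theorem cell_bound2_abs (a b c d : ℝ) (ha : |a| ≤ 1) (hb : |b| ≤ 1) (hc : |c| ≤ 1) (hd : |d| ≤ 1) :
    |a * b * c * d| ≤ 1 := by
  rw [abs_mul, abs_mul, abs_mul]
  have h1 : |a| * |b| ≤ 1 := mul_le_one₀ ha (abs_nonneg _) hb
  have h2 : |a| * |b| * |c| ≤ 1 := mul_le_one₀ h1 (abs_nonneg _) hc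
  exact mul_le_one₀ h2 (abs_nonneg _) hd

/-- T2. Copy of `Rn3.cell_bound` (helper92), `Rnt.cell_bound` (helper95), with the three smooth parts `U, V, S` of a fixed non exceptional pair of the cell (`sm_congr`, `sm_div`), `ident`, `cell_sum`. `ro T n = (n / sm T n).natAbs`, `mob (ro T n) = mob (n / sm T n)` (`mob` depends on `natAbs`). -/
theorem cell_bound (h2 : LocalSign 2 w2) (h3 : LocalSign 3 w3) (T j : ℕ) (hT : 5 ≤ T) (hj : 1 ≤ j) :
    ∃ M : ℕ, 0 < M ∧ ∀ (a₀ b₀ : ℤ), ∀ ε : ℝ, 0 < ε → ∀ τ : Bool × Bool × Bool,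
      ∃ Y₀ : ℝ, ∀ Y : ℝ, Y₀ ≤ Y →
        |∑ x ∈ Cell2 M a₀ b₀ τ Y, wm w2 w3 x| ≤
          ε * Y ^ 2 + 2 * (((Cell2 M a₀ b₀ τ Y).filter (fun x => Exc2 T j x.1 x.2)).card : ℝ) := by
  obtain ⟨M, hM, hPM, hid⟩ := ident w2 w3 h2 h3 T j hT hj
  refine ⟨M, hM, ?_⟩
  intro a₀ b₀ ε hε τ
  have hwm := cell_bound2_wm w2 w3 h2 h3
  by_cases hx : ∃ a b : ℤ, ¬ Exc2 T j a b ∧ (M : ℤ) ∣ a - a₀ ∧ (M : ℤ) ∣ b - b₀ ∧
      (sgb τ.1 (uu a b) ∧ sgb τ.2.1 (vv a b) ∧ sgb τ.2.2 (ss a b))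
  · obtain ⟨a, b, hE, ha, hb, hs1, hs2, hs3⟩ := hx
    -- the primes at most `T`
    have hpow : ∀ p : ℕ, p.Prime → p ≤ T → p ^ j ∣ M := by
      intro p hp hpT
      refine dvd_trans ?_ hPM
      unfold PP
      refine dvd_trans (pow_dvd_pow p (show j ≤ 6 * j + 4 by omega)) ?_
      exact Finset.dvd_prod_of_mem (fun p => p ^ (6 * j + 4))
        (Finset.mem_filter.2 ⟨Finset.mem_range.2 (by omega), hp⟩)
    have hPP : PP T j ∣ M := by
      refine dvd_trans ?_ hPM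
      unfold PP
      exact Finset.prod_dvd_prod_of_dvd _ _ (fun p _ => pow_dvd_pow p (by omega))
    have hE0 : ∀ a b : ℤ, ¬ Exc2 T j a b → uu a b ≠ 0 ∧ vv a b ≠ 0 ∧ ss a b ≠ 0 := by
      intro a b hE
      exact ⟨fun h => hE (Or.inl h), fun h => hE (Or.inr (Or.inl h)),
        fun h => hE (Or.inr (Or.inr (Or.inl h)))⟩
    obtain ⟨hu0, hv0, hs0⟩ := hE0 a b hE
    have hEu : ∀ a b : ℤ, ¬ Exc2 T j a b → ∀ p : ℕ, p.Prime → p ≤ T → ¬ (p : ℤ) ^ j ∣ uu a b := by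
      intro a b hE p hp hpT h
      exact hE (Or.inr (Or.inr (Or.inr (Or.inr ⟨p, hp, hpT, Or.inl h⟩))))
    have hEv : ∀ a b : ℤ, ¬ Exc2 T j a b → ∀ p : ℕ, p.Prime → p ≤ T → ¬ (p : ℤ) ^ j ∣ vv a b := by
      intro a b hE p hp hpT h
      exact hE (Or.inr (Or.inr (Or.inr (Or.inr ⟨p, hp, hpT, Or.inr (Or.inl h)⟩))))
    have hEs : ∀ a b : ℤ, ¬ Exc2 T j a b → ∀ p : ℕ, p.Prime → p ≤ T → ¬ (p : ℤ) ^ j ∣ ss a b := by
      intro a b hE p hp hpT h
      exact hE (Or.inr (Or.inr (Or.inr (Or.inr ⟨p, hp, hpT, Or.inr (Or.inr h)⟩))))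
    have hcu : ∀ a' b' a b : ℤ, (M : ℤ) ∣ a' - a → (M : ℤ) ∣ b' - b → (M : ℤ) ∣ uu a' b' - uu a b := by
      intro a' b' a b h h'
      have : uu a' b' - uu a b = (a' - a) - (b' - b) := by
        unfold uu
        ring
      rw [this]
      exact dvd_sub h h'
    have hcv : ∀ a' b' a b : ℤ, (M : ℤ) ∣ a' - a → (M : ℤ) ∣ b' - b → (M : ℤ) ∣ vv a' b' - vv a b := by
      intro a' b' a b h h'
      have : vv a' b' - vv a b = (a' - a) + (b' - b) * 2 := by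
        unfold vv
        ring
      rw [this]
      exact dvd_add h (Dvd.dvd.mul_right h' _)
    have hcs : ∀ a' b' a b : ℤ, (M : ℤ) ∣ a' - a → (M : ℤ) ∣ b' - b → (M : ℤ) ∣ ss a' b' - ss a b := by
      intro a' b' a b h h'
      have : ss a' b' - ss a b = (a' - a) * 2 + (b' - b) := by
        unfold ss
        ring
      rw [this]
      exact dvd_add (Dvd.dvd.mul_right h _) h'
    have huM : sm T (uu a b) ∣ M := (sm_div T j (uu a b) hu0 (hEu a b hE)).trans hPP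
    have hvM : sm T (vv a b) ∣ M := (sm_div T j (vv a b) hv0 (hEv a b hE)).trans hPP
    have hsM : sm T (ss a b) ∣ M := (sm_div T j (ss a b) hs0 (hEs a b hE)).trans hPP
    have huM' : ((sm T (uu a b) : ℕ) : ℤ) ∣ M := by exact_mod_cast huM
    have hvM' : ((sm T (vv a b) : ℕ) : ℤ) ∣ M := by exact_mod_cast hvM
    have hsM' : ((sm T (ss a b) : ℕ) : ℤ) ∣ M := by exact_mod_cast hsM
    have ha' : (M : ℤ) ∣ a₀ - a := by
      have := (dvd_neg (α := ℤ)).2 ha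
      rwa [neg_sub] at this
    have hb' : (M : ℤ) ∣ b₀ - b := by
      have := (dvd_neg (α := ℤ)).2 hb
      rwa [neg_sub] at this
    have hu1 : ((sm T (uu a b) : ℕ) : ℤ) ∣ uu a₀ b₀ := by
      have := dvd_add (huM'.trans (hcu a₀ b₀ a b ha' hb')) (sm_basic T (uu a b) hu0).2.1
      rwa [sub_add_cancel] at this
    have hv1 : ((sm T (vv a b) : ℕ) : ℤ) ∣ vv a₀ b₀ := by
      have := dvd_add (hvM'.trans (hcv a₀ b₀ a b ha' hb')) (sm_basic T (vv a b) hv0).2.1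
      rwa [sub_add_cancel] at this
    have hs1' : ((sm T (ss a b) : ℕ) : ℤ) ∣ ss a₀ b₀ := by
      have := dvd_add (hsM'.trans (hcs a₀ b₀ a b ha' hb')) (sm_basic T (ss a b) hs0).2.1
      rwa [sub_add_cancel] at this
    obtain ⟨Y₀, hY₀⟩ := cell_sum M (sm T (uu a b)) (sm T (vv a b)) (sm T (ss a b)) hM
      (sm_basic T (uu a b) hu0).1 (sm_basic T (vv a b) hv0).1 (sm_basic T (ss a b) hs0).1
      huM hvM hsM a₀ b₀ hu1 hv1 hs1' ε hε τ
    refine ⟨max Y₀ 1, fun Y hY => ?_⟩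
    have hY0 : Y₀ ≤ Y := le_trans (le_max_left _ _) hY
    have hsum := hY₀ Y hY0
    set g : ℤ × ℤ → ℝ := fun x => mob (uu x.1 x.2 / sm T (uu a b)) * mob (vv x.1 x.2 / sm T (vv a b)) *
      mob (ss x.1 x.2 / sm T (ss a b)) *
        ((jacobiSym (((uu x.1 x.2 / sm T (uu a b)).natAbs : ℕ) : ℤ) (vv x.1 x.2 / sm T (vv a b)).natAbs : ℤ) : ℝ)
      with hg
    have hg1 : ∀ x, |g x| ≤ 1 := by
      intro x
      exact cell_bound2_abs _ _ _ _ (cell_bound2_mob _) (cell_bound2_mob _) (cell_bound2_mob _)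
        (cell_bound2_jac _ _)
    have hG1 : ∀ a b : ℤ, |mob (ro T (uu a b)) * mob (ro T (vv a b)) * mob (ro T (ss a b)) * (jj T a b : ℝ)| ≤ 1 :=
      fun a b => cell_bound2_abs _ _ _ _ (cell_bound2_mob _) (cell_bound2_mob _) (cell_bound2_mob _)
        (cell_bound2_jac _ _)
    -- the constant
    obtain ⟨Φ, hΦ, hval⟩ : ∃ Φ : ℝ, |Φ| ≤ 1 ∧ ∀ x ∈ Cell2 M a₀ b₀ τ Y, ¬ Exc2 T j x.1 x.2 →
        wm w2 w3 x = Φ * g x := by
      refine ⟨if Minimal (Af a b) (Bf a b) then (rootNumber w2 w3 (Af a b) (Bf a b) : ℝ) *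
        (mob (ro T (uu a b)) * mob (ro T (vv a b)) * mob (ro T (ss a b)) * (jj T a b : ℝ)) else 0, ?_, ?_⟩
      · split_ifs
        · rw [abs_mul]
          have e1 : |(rootNumber w2 w3 (Af a b) (Bf a b) : ℝ)| = 1 := by
            rcases rn_pm w2 w3 h2 h3 (Af a b) (Bf a b) with h | h <;> rw [h] <;> norm_num
          rw [e1, one_mul]
          exact hG1 a b
        · simp
      · intro x hxC hxE
        unfold Cell2 at hxC
        rw [Finset.mem_filter] at hxC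
        obtain ⟨_, ⟨hx1, hx2, hx3⟩, hx4, hx5⟩ := hxC
        have hxa : (M : ℤ) ∣ x.1 - a := by
          have := dvd_sub hx4 ha
          rwa [sub_sub_sub_cancel_right] at this
        have hxb : (M : ℤ) ∣ x.2 - b := by
          have := dvd_sub hx5 hb
          rwa [sub_sub_sub_cancel_right] at this
        obtain ⟨k1, k2, k3⟩ := hid x.1 x.2 a b hxE hE hxa hxb (cell_bound2_sg _ _ _ hx1 hs1)
          (cell_bound2_sg _ _ _ hx2 hs2) (cell_bound2_sg _ _ _ hx3 hs3)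
        have eu : sm T (uu x.1 x.2) = sm T (uu a b) :=
          sm_congr T j M (fun p hp hpT => by exact_mod_cast hpow p hp hpT) _ _ (hcu x.1 x.2 a b hxa hxb)
            (hEu x.1 x.2 hxE)
        have ev : sm T (vv x.1 x.2) = sm T (vv a b) :=
          sm_congr T j M (fun p hp hpT => by exact_mod_cast hpow p hp hpT) _ _ (hcv x.1 x.2 a b hxa hxb)
            (hEv x.1 x.2 hxE)
        have es : sm T (ss x.1 x.2) = sm T (ss a b) :=
          sm_congr T j M (fun p hp hpT => by exact_mod_cast hpow p hp hpT) _ _ (hcs x.1 x.2 a b hxa hxb)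
            (hEs x.1 x.2 hxE)
        have hgx : mob (ro T (uu x.1 x.2)) * mob (ro T (vv x.1 x.2)) * mob (ro T (ss x.1 x.2)) *
            (jj T x.1 x.2 : ℝ) = g x := by
          rw [hg, cell_bound2_ro, cell_bound2_ro, cell_bound2_ro]
          simp only [eu, ev, es, jj, ro]
        rw [hgx] at k2 k3
        obtain ⟨q1, q2, q3⟩ := hE0 x.1 x.2 hxE
        have hd : disc (Af x.1 x.2) (Bf x.1 x.2) ≠ 0 := by
          rw [disc_eq]
          exact neg_ne_zero.2 (pow_ne_zero 2 (mul_ne_zero (mul_ne_zero q1 q2) q3))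
        unfold wm
        by_cases hmin : Minimal (Af x.1 x.2) (Bf x.1 x.2)
        · rw [if_pos ⟨hmin, hd⟩, if_pos (k1.1 hmin), ← k2]
          have : (rootNumber w2 w3 (Af x.1 x.2) (Bf x.1 x.2) : ℝ) * g x * g x =
              (rootNumber w2 w3 (Af x.1 x.2) (Bf x.1 x.2) : ℝ) * g x ^ 2 := by ring
          rw [this, k3, mul_one]
        · rw [if_neg (fun h => hmin h.1), if_neg (fun h => hmin (k1.2 h)), zero_mul]
    -- the sum
    have e1 : ∑ x ∈ Cell2 M a₀ b₀ τ Y, wm w2 w3 x =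
        Φ * ∑ x ∈ Cell2 M a₀ b₀ τ Y, g x + ∑ x ∈ Cell2 M a₀ b₀ τ Y, (wm w2 w3 x - Φ * g x) := by
      rw [Finset.mul_sum, ← Finset.sum_add_distrib]
      exact Finset.sum_congr rfl (fun x _ => by ring)
    have e2 : ∑ x ∈ Cell2 M a₀ b₀ τ Y, (wm w2 w3 x - Φ * g x) =
        ∑ x ∈ (Cell2 M a₀ b₀ τ Y).filter (fun x => Exc2 T j x.1 x.2), (wm w2 w3 x - Φ * g x) := by
      rw [Finset.sum_filter_of_ne]
      intro x hx hne
      by_contra hE'
      exact hne (by rw [hval x hx hE', sub_self])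
    rw [e1, e2]
    have b1 : |Φ * ∑ x ∈ Cell2 M a₀ b₀ τ Y, g x| ≤ ε * Y ^ 2 := by
      rw [abs_mul]
      calc |Φ| * |∑ x ∈ Cell2 M a₀ b₀ τ Y, g x| ≤ 1 * |∑ x ∈ Cell2 M a₀ b₀ τ Y, g x| :=
            mul_le_mul_of_nonneg_right hΦ (abs_nonneg _)
        _ ≤ ε * Y ^ 2 := by rw [one_mul]; exact hsum
    have b2 : |∑ x ∈ (Cell2 M a₀ b₀ τ Y).filter (fun x => Exc2 T j x.1 x.2), (wm w2 w3 x - Φ * g x)| ≤
        2 * (((Cell2 M a₀ b₀ τ Y).filter (fun x => Exc2 T j x.1 x.2)).card : ℝ) := by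
      refine (Finset.abs_sum_le_sum_abs _ _).trans ?_
      have : ∀ x ∈ (Cell2 M a₀ b₀ τ Y).filter (fun x => Exc2 T j x.1 x.2), |wm w2 w3 x - Φ * g x| ≤ 2 := by
        intro x _
        have h1 := hwm x
        have h2' : |Φ * g x| ≤ 1 := by
          rw [abs_mul]
          exact mul_le_one₀ hΦ (abs_nonneg _) (hg1 x)
        have h3' := abs_sub (wm w2 w3 x) (Φ * g x)
        linarith
      have h5 := Finset.sum_le_card_nsmul _ _ _ this
      rw [nsmul_eq_mul] at h5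
      linarith
    exact (abs_add_le _ _).trans (add_le_add b1 b2)
  · refine ⟨1, fun Y hY => ?_⟩
    have hall : ∀ x ∈ Cell2 M a₀ b₀ τ Y, Exc2 T j x.1 x.2 := by
      intro x hxC
      by_contra hE
      unfold Cell2 at hxC
      rw [Finset.mem_filter] at hxC
      obtain ⟨_, hx3, hx4, hx5⟩ := hxC
      exact hx ⟨x.1, x.2, hE, hx4, hx5, hx3⟩
    rw [Finset.filter_true_of_mem hall]
    refine (Finset.abs_sum_le_sum_abs _ _).trans ?_
    have h5 := Finset.sum_le_card_nsmul (Cell2 M a₀ b₀ τ Y) (fun x => |wm w2 w3 x|) 1 (fun x _ => hwm x)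
    rw [nsmul_eq_mul, mul_one] at h5
    have h6 : 0 ≤ ε * Y ^ 2 := by positivity
    have h7 : (0 : ℝ) ≤ ((Cell2 M a₀ b₀ τ Y).card : ℝ) := Nat.cast_nonneg _
    linarith
-- END cell_bound

-- BEGIN split
private theorem split_res (M : ℕ) (hM : 0 < M) (z : ℤ) : ∃ a ∈ range M, (M : ℤ) ∣ z - (a : ℤ) ∧
    ∀ a' ∈ range M, (M : ℤ) ∣ z - (a' : ℤ) → a' = a := by
  have hM' : (0 : ℤ) < M := by exact_mod_cast hM
  have h0 := Int.emod_nonneg z hM'.ne'
  have h1 := Int.emod_lt_of_pos z hM'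
  have h2 : ((z % (M : ℤ)).toNat : ℤ) = z % M := Int.toNat_of_nonneg h0
  refine ⟨(z % (M : ℤ)).toNat, mem_range.2 (by omega), ?_, ?_⟩
  · rw [h2]
    exact ⟨z / M, by have := Int.emod_add_mul_ediv z M; linarith⟩
  · intro a' ha' hd
    have h3 := mem_range.1 ha'
    have h4 : ((a' : ℤ)) % M = z % M := by
      apply Int.ModEq.symm
      exact (Int.modEq_iff_dvd.2 (by rw [← dvd_neg]; simpa using hd))
    have h5 : ((a' : ℤ)) % M = a' := Int.emod_eq_of_lt (by omega) (by omega)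
    omega

private theorem split_one (n : ℤ) (hn : n ≠ 0) : ∃ s : Bool, sgb s n ∧ ∀ s' : Bool, sgb s' n → s' = s := by
  rcases lt_or_gt_of_ne hn with h1 | h1
  · refine ⟨false, ?_, ?_⟩
    · simpa [sgb] using h1
    · intro s' h2
      cases s'
      · rfl
      · have h3 : 0 < n := by simpa [sgb] using h2
        omega
  · refine ⟨true, ?_, ?_⟩
    · simpa [sgb] using h1
    · intro s' h2
      cases s'
      · have h3 : n < 0 := by simpa [sgb] using h2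
        omega
      · rfl

private theorem split_sg (a b : ℤ) (h : disc (Af a b) (Bf a b) ≠ 0) :
    ∃ τ : Bool × Bool × Bool, (sgb τ.1 (uu a b) ∧ sgb τ.2.1 (vv a b) ∧ sgb τ.2.2 (ss a b)) ∧
      ∀ τ' : Bool × Bool × Bool, (sgb τ'.1 (uu a b) ∧ sgb τ'.2.1 (vv a b) ∧ sgb τ'.2.2 (ss a b)) → τ' = τ := by
  have hu : uu a b ≠ 0 := by
    intro h0; apply h; rw [disc_eq, h0]; ring
  have hv : vv a b ≠ 0 := by
    intro h0; apply h; rw [disc_eq, h0]; ring
  have hs : ss a b ≠ 0 := by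
    intro h0; apply h; rw [disc_eq, h0]; ring
  obtain ⟨s1, a1, b1⟩ := split_one _ hu
  obtain ⟨s2, a2, b2⟩ := split_one _ hv
  obtain ⟨s3, a3, b3⟩ := split_one _ hs
  refine ⟨(s1, s2, s3), ⟨a1, a2, a3⟩, ?_⟩
  rintro ⟨t1, t2, t3⟩ ⟨c1, c2, c3⟩
  rw [b1 t1 c1, b2 t2 c2, b3 t3 c3]

/-- T3. Copy of `Rn3.split` (helper70). The pairs of `Reg2 Y` with `f ≠ 0` have `u, v, s ≠ 0` (`disc_eq`) and are in exactly one cell with `0 ≤ a₀, b₀ < M`. -/
theorem split (M : ℕ) (hM : 0 < M) (Y : ℝ) (f : ℤ × ℤ → ℝ)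
    (hf : ∀ x : ℤ × ℤ, disc (Af x.1 x.2) (Bf x.1 x.2) = 0 → f x = 0) :
    ∑ x ∈ Reg2 Y, f x = ∑ a ∈ range M, ∑ c ∈ range M, ∑ τ : Bool × Bool × Bool, ∑ x ∈ Cell2 M a c τ Y, f x := by
  have key : ∀ x : ℤ × ℤ, f x = ∑ a ∈ range M, ∑ c ∈ range M, ∑ τ : Bool × Bool × Bool,
        (if (sgb τ.1 (uu x.1 x.2) ∧ sgb τ.2.1 (vv x.1 x.2) ∧ sgb τ.2.2 (ss x.1 x.2)) ∧
          (M : ℤ) ∣ x.1 - (a : ℤ) ∧ (M : ℤ) ∣ x.2 - (c : ℤ) then f x else 0) := by
    intro x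
    by_cases hd : disc (Af x.1 x.2) (Bf x.1 x.2) = 0
    · simp [hf x hd]
    · obtain ⟨s0, hs0, hs1⟩ := split_sg x.1 x.2 hd
      obtain ⟨a0, ha0, ha1, ha2⟩ := split_res M hM x.1
      obtain ⟨c0, hc0, hc1, hc2⟩ := split_res M hM x.2
      rw [Finset.sum_eq_single_of_mem a0 ha0, Finset.sum_eq_single_of_mem c0 hc0,
        Finset.sum_eq_single_of_mem s0 (mem_univ _), if_pos ⟨hs0, ha1, hc1⟩]
      · intro s _ hne
        exact if_neg (fun h => hne (hs1 s h.1))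
      · intro c hc hne
        apply Finset.sum_eq_zero; intro s _
        exact if_neg (fun h => hne (hc2 c hc h.2.2))
      · intro a ha hne
        apply Finset.sum_eq_zero; intro c _
        apply Finset.sum_eq_zero; intro s _
        exact if_neg (fun h => hne (ha2 a ha h.2.1))
  rw [Finset.sum_congr rfl (fun x _ => key x), Finset.sum_comm]
  apply Finset.sum_congr rfl; intro a _
  rw [Finset.sum_comm]
  apply Finset.sum_congr rfl; intro c _
  rw [Finset.sum_comm]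
  apply Finset.sum_congr rfl; intro s _
  rw [Cell2, Finset.sum_filter]
-- END split

-- BEGIN main_sum
private theorem main_sum_res (M : ℕ) (hM : 0 < M) (x : ℤ) (a : ℕ) (ha : a < M) (h : (M : ℤ) ∣ x - a) :
    (x % M).toNat = a := by
  have h1 : x % M = (a : ℤ) := by
    have h2 : x % M = (a : ℤ) % M := (Int.modEq_iff_dvd.2 h).symm
    rw [h2]
    exact Int.emod_eq_of_lt (by omega) (by omega)
  rw [h1]
  simp

private theorem main_sum_sg (s : Bool) (n : ℤ) (h : sgb s n) : decide (0 < n) = s := by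
  unfold sgb at h
  rcases s with _ | _
  · simp only [Bool.false_eq_true, if_false] at h
    simp only [decide_eq_false_iff_not, not_lt]
    exact h.le
  · simp only [if_true] at h
    simpa using h

private theorem main_sum_exc (M : ℕ) (hM : 0 < M) (Y : ℝ) (T j : ℕ) :
    ∑ a ∈ range M, ∑ c ∈ range M, ∑ τ : Bool × Bool × Bool,
      (((Cell2 M a c τ Y).filter (fun x => Exc2 T j x.1 x.2)).card : ℝ) ≤
        (((Box2 Y).filter (fun x => Exc2 T j x.1 x.2)).card : ℝ) := by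
  set S := (Box2 Y).filter (fun x => Exc2 T j x.1 x.2) with hS
  set i : ℤ × ℤ → ℕ × ℕ × (Bool × Bool × Bool) := fun x => ((x.1 % M).toNat, (x.2 % M).toNat, (decide (0 < uu x.1 x.2), decide (0 < vv x.1 x.2), decide (0 < ss x.1 x.2))) with hi
  set Q : Finset (ℕ × ℕ × (Bool × Bool × Bool)) := range M ×ˢ (range M ×ˢ (Finset.univ : Finset (Bool × Bool × Bool))) with hQ
  have hMZ : (0 : ℤ) < M := by exact_mod_cast hM
  have hlt : ∀ z : ℤ, (z % M).toNat < M := by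
    intro z
    have h1 := Int.emod_lt_of_pos z hMZ
    have h2 := Int.emod_nonneg z hMZ.ne'
    omega
  have hmap : Set.MapsTo i (S : Set (ℤ × ℤ)) (Q : Set (ℕ × ℕ × (Bool × Bool × Bool))) := by
    intro x _
    rw [Finset.mem_coe, hQ, Finset.mem_product, Finset.mem_product]
    exact ⟨Finset.mem_range.2 (hlt _), Finset.mem_range.2 (hlt _), Finset.mem_univ _⟩
  have h1 := Finset.card_eq_sum_card_fiberwise hmap
  have h2 : ∑ a ∈ range M, ∑ c ∈ range M, ∑ τ : Bool × Bool × Bool,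
      ((Cell2 M a c τ Y).filter (fun x => Exc2 T j x.1 x.2)).card =
      ∑ b ∈ Q, ((Cell2 M b.1 b.2.1 b.2.2 Y).filter (fun x => Exc2 T j x.1 x.2)).card := by
    rw [hQ, Finset.sum_product]
    refine Finset.sum_congr rfl fun a _ => ?_
    rw [Finset.sum_product]
  have h3 : ∑ b ∈ Q, ((Cell2 M b.1 b.2.1 b.2.2 Y).filter (fun x => Exc2 T j x.1 x.2)).card ≤ S.card := by
    rw [h1]
    refine Finset.sum_le_sum fun b hb => Finset.card_le_card fun x hx => ?_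
    obtain ⟨hx1, hx2⟩ := Finset.mem_filter.1 hx
    rw [hQ, Finset.mem_product, Finset.mem_product, Finset.mem_range, Finset.mem_range] at hb
    unfold Cell2 at hx1
    obtain ⟨hx3, hx4, hx5, hx6⟩ := Finset.mem_filter.1 hx1
    refine Finset.mem_filter.2 ⟨Finset.mem_filter.2 ⟨?_, hx2⟩, ?_⟩
    · unfold Reg2 at hx3
      exact (Finset.mem_filter.1 hx3).1
    · rw [hi]
      refine Prod.ext (main_sum_res M hM _ _ hb.1 hx5) (Prod.ext (main_sum_res M hM _ _ hb.2.1 hx6) ?_)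
      show (decide (0 < uu x.1 x.2), decide (0 < vv x.1 x.2), decide (0 < ss x.1 x.2)) = b.2.2
      rw [main_sum_sg _ _ hx4.1, main_sum_sg _ _ hx4.2.1, main_sum_sg _ _ hx4.2.2]
  rw [← h2] at h3
  exact_mod_cast h3

private theorem main_sum_abs (h2 : LocalSign 2 w2) (h3 : LocalSign 3 w3) (x : ℤ × ℤ) : |wm w2 w3 x| ≤ 1 := by
  unfold wm
  split_ifs
  · rcases rn_pm w2 w3 h2 h3 (Af x.1 x.2) (Bf x.1 x.2) with h | h
    · rw [h]
      norm_num
    · rw [h]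
      norm_num
  · norm_num

/-- T4. Copy of `Rn3.main_sum` (helper58): `8 M²` cells. -/
theorem main_sum (h2 : LocalSign 2 w2) (h3 : LocalSign 3 w3) (ε : ℝ) (hε : 0 < ε) :
    ∃ Y₀ : ℝ, ∀ Y : ℝ, Y₀ ≤ Y → |∑ x ∈ PR2 Y, (rootNumber w2 w3 (Af x.1 x.2) (Bf x.1 x.2) : ℝ)| ≤ ε * Y ^ 2 := by
  obtain ⟨T₀, hT₀⟩ := exists_nat_ge (1248 / ε)
  set T : ℕ := T₀ + 5 with hT
  have hT5 : 5 ≤ T := by omega
  have hTpos : (0 : ℝ) < T := by
    have : 0 < T := by omega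
    exact_mod_cast this
  have hTε : 2 * (78 / (T : ℝ)) ≤ ε / 8 := by
    have h4 : 1248 / ε ≤ (T : ℝ) := by
      rw [hT]
      push_cast
      linarith
    rw [div_le_iff₀ hε] at h4
    rw [mul_div_assoc', div_le_iff₀ hTpos]
    linarith
  obtain ⟨j₀, hj₀⟩ := pow_unbounded_of_one_lt (864 * T / ε) (by norm_num : (1 : ℝ) < 2)
  set j : ℕ := j₀ + 1 with hj
  have hjε : 2 * (54 * T / (2 : ℝ) ^ j) ≤ ε / 8 := by
    have h4 : (2 : ℝ) ^ j₀ ≤ 2 ^ j := pow_le_pow_right₀ (by norm_num) (by omega)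
    have h5 : 864 * T / ε ≤ (2 : ℝ) ^ j := by linarith
    rw [div_le_iff₀ hε] at h5
    rw [mul_div_assoc', div_le_iff₀ (by positivity)]
    linarith
  obtain ⟨M, hM, hcell⟩ := cell_bound w2 w3 h2 h3 T j hT5 (by omega)
  have hMR : (0 : ℝ) < M := by exact_mod_cast hM
  set e : ℝ := ε / (64 * M ^ 2) with he
  have he0 : 0 < e := by positivity
  have hev : ∀ᶠ Y : ℝ in atTop, ∀ a ∈ range M, ∀ c ∈ range M, ∀ (τ : Bool × Bool × Bool),
      |∑ x ∈ Cell2 M a c τ Y, wm w2 w3 x| ≤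
        e * Y ^ 2 + 2 * (((Cell2 M a c τ Y).filter (fun x => Exc2 T j x.1 x.2)).card : ℝ) := by
    refine (Filter.eventually_all_finset _).2 fun a _ => (Filter.eventually_all_finset _).2 fun c _ =>
      Filter.eventually_all.2 fun τ => ?_
    obtain ⟨Y₀, hY₀⟩ := hcell a c e he0 τ
    exact Filter.eventually_atTop.2 ⟨Y₀, hY₀⟩
  obtain ⟨Y₁, hY₁⟩ := Filter.eventually_atTop.1 hev
  refine ⟨max Y₁ (max 1 (36 / ε)), fun Y hY => ?_⟩
  have hYY1 : Y₁ ≤ Y := (le_max_left _ _).trans hY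
  have hY1 : 1 ≤ Y := ((le_max_left _ _).trans (le_max_right _ _)).trans hY
  have hY2 : 36 / ε ≤ Y := ((le_max_right _ _).trans (le_max_right _ _)).trans hY
  have hY0 : 0 < Y := by linarith
  have hb := hY₁ Y hYY1
  have hsum : ∑ x ∈ PR2 Y, (rootNumber w2 w3 (Af x.1 x.2) (Bf x.1 x.2) : ℝ) = ∑ x ∈ Reg2 Y, wm w2 w3 x := by
    unfold PR2
    rw [Finset.sum_filter]
    rfl
  have hsp := split M hM Y (wm w2 w3) (by
    intro x hx
    unfold wm
    rw [if_neg]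
    rintro ⟨-, h⟩
    exact h hx)
  rw [hsum, hsp]
  have hs2 : |∑ a ∈ range M, ∑ c ∈ range M, ∑ τ : Bool × Bool × Bool, ∑ x ∈ Cell2 M a c τ Y, wm w2 w3 x| ≤
      ∑ a ∈ range M, ∑ c ∈ range M, ∑ τ : Bool × Bool × Bool,
        (e * Y ^ 2 + 2 * (((Cell2 M a c τ Y).filter (fun x => Exc2 T j x.1 x.2)).card : ℝ)) := by
    refine (Finset.abs_sum_le_sum_abs _ _).trans (Finset.sum_le_sum fun a ha => ?_)
    refine (Finset.abs_sum_le_sum_abs _ _).trans (Finset.sum_le_sum fun c hc => ?_)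
    refine (Finset.abs_sum_le_sum_abs _ _).trans (Finset.sum_le_sum fun τ _ => ?_)
    exact hb a ha c hc τ
  have hs3 : ∑ a ∈ range M, ∑ c ∈ range M, ∑ τ : Bool × Bool × Bool,
        (e * Y ^ 2 + 2 * (((Cell2 M a c τ Y).filter (fun x => Exc2 T j x.1 x.2)).card : ℝ)) =
      8 * M ^ 2 * (e * Y ^ 2) + 2 * ∑ a ∈ range M, ∑ c ∈ range M, ∑ τ : Bool × Bool × Bool,
        (((Cell2 M a c τ Y).filter (fun x => Exc2 T j x.1 x.2)).card : ℝ) := by
    simp only [Finset.sum_add_distrib, ← Finset.mul_sum, Finset.sum_const, Finset.card_univ, Fintype.card_prod, Fintype.card_bool,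
      nsmul_eq_mul, Finset.card_range]
    push_cast
    ring
  have hs4 := main_sum_exc M hM Y T j
  have hs5 := exc_total Y hY1 T j (by omega)
  have hs6 : 8 * (M : ℝ) ^ 2 * (e * Y ^ 2) = ε / 8 * Y ^ 2 := by
    rw [he]
    field_simp
    ring
  have hY4 : 0 < Y ^ 2 := by positivity
  have hs7 : 18 * Y ≤ ε / 2 * Y ^ 2 := by
    rw [div_le_iff₀ hε] at hY2
    nlinarith
  have hs8 : 2 * ((78 / (T : ℝ) + 54 * T / 2 ^ j) * Y ^ 2) ≤ ε / 4 * Y ^ 2 := by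
    nlinarith
  rw [hs3] at hs2
  rw [hs6] at hs2
  have hs9 : 0 ≤ ε / 8 * Y ^ 2 := by positivity
  linarith
-- END main_sum

-- BEGIN final
private theorem final_count (h2 : LocalSign 2 w2) (h3 : LocalSign 3 w3) (F : Finset (ℤ × ℤ)) :
    ∑ E ∈ F, (rootNumber w2 w3 E.1 E.2 : ℝ) =
      2 * ((F.filter (fun E => rootNumber w2 w3 E.1 E.2 = 1)).card : ℝ) - F.card := by
  have h1 : ∀ E ∈ F, (rootNumber w2 w3 E.1 E.2 : ℝ) =
      2 * (if rootNumber w2 w3 E.1 E.2 = 1 then (1 : ℝ) else 0) - 1 := by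
    intro E _
    rcases rn_pm w2 w3 h2 h3 E.1 E.2 with h | h
    · rw [if_pos h, h]
      norm_num
    · rw [if_neg (by rw [h]; norm_num), h]
      norm_num
  rw [Finset.sum_congr rfl h1, Finset.sum_sub_distrib, ← Finset.mul_sum, Finset.sum_boole,
    Finset.sum_const, nsmul_eq_mul, mul_one]

/-- T5. Copy of `Rn3.final` (helper58), `Y = X^(1/6)`: `fam_sum` for `f = rootNumber` and `f = 1`; `main_sum`, `low`. -/
theorem final (h2 : LocalSign 2 w2) (h3 : LocalSign 3 w3) :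
    Tendsto (fun X : ℝ => ({E ∈ Fam2 X | rootNumber w2 w3 E.1 E.2 = 1}.ncard : ℝ) / (Fam2 X).ncard) atTop (𝓝 (1 / 2)) := by
  rw [Metric.tendsto_atTop]
  intro ε hε
  set e : ℝ := ε / 240 with he
  have hepos : 0 < e := by positivity
  obtain ⟨Y₁, hY₁⟩ := main_sum w2 w3 h2 h3 e hepos
  obtain ⟨Y₂, hY₂⟩ := low
  set Z : ℝ := max (max Y₁ Y₂) 1 with hZ
  have hZ1 : 1 ≤ Z := le_max_right _ _
  refine ⟨Z ^ 6, fun X hX => ?_⟩
  have hZpos : (0 : ℝ) < Z := by linarith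
  have hX0 : 0 < X := lt_of_lt_of_le (by positivity) hX
  set Y : ℝ := X ^ ((1 : ℝ) / 6) with hYdef
  have hYpos : 0 < Y := Real.rpow_pos_of_pos hX0 _
  have hY6 : Y ^ 6 = X := by
    rw [hYdef, ← Real.rpow_natCast, ← Real.rpow_mul hX0.le]
    norm_num
  have hZY : Z ≤ Y := by
    rw [← hY6] at hX
    exact le_of_pow_le_pow_left₀ (by norm_num) hYpos.le hX
  have hYZ1 : Y₁ ≤ Y := ((le_max_left _ _).trans (le_max_left _ _)).trans hZY
  have hYZ2 : Y₂ ≤ Y := ((le_max_right _ _).trans (le_max_left _ _)).trans hZY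
  obtain ⟨F, hF, hsum⟩ := fam_sum Y hYpos.le
  rw [hY6] at hF
  have hc1 : (Fam2 X).ncard = F.card := by
    rw [← hF, Set.ncard_coe_finset]
  have hc2 : {E ∈ Fam2 X | rootNumber w2 w3 E.1 E.2 = 1}.ncard =
      (F.filter (fun E => rootNumber w2 w3 E.1 E.2 = 1)).card := by
    rw [← Set.ncard_coe_finset]
    congr 1
    ext E
    rw [← hF]
    simp
  have hs1 := hsum (fun E => (rootNumber w2 w3 E.1 E.2 : ℝ))
  have hs2 := hsum (fun _ => (1 : ℝ))
  have hs3 := hY₁ Y hYZ1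
  have hs4 := hY₂ Y hYZ2
  rw [Finset.sum_const, Finset.sum_const, nsmul_eq_mul, nsmul_eq_mul, mul_one, mul_one] at hs2
  have hcnt := final_count w2 w3 h2 h3 F
  set P : ℝ := ∑ x ∈ PR2 Y, (rootNumber w2 w3 (Af x.1 x.2) (Bf x.1 x.2) : ℝ) with hP
  set S : ℝ := ∑ E ∈ F, (rootNumber w2 w3 E.1 E.2 : ℝ) with hS
  have hs1' : S = P / 6 := hs1
  have hFlow : Y ^ 2 / 240 ≤ (F.card : ℝ) := by
    rw [hs2]
    linarith
  have hY2 : 0 < Y ^ 2 := by positivity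
  have heY : 0 < e * Y ^ 2 := by positivity
  have hSle : |S| ≤ e * Y ^ 2 / 6 := by
    rw [hs1', abs_div, abs_of_pos (by norm_num : (0 : ℝ) < 6)]
    linarith
  have hFpos : 0 < (F.card : ℝ) := lt_of_lt_of_le (by positivity) hFlow
  rw [hc1, hc2, Real.dist_eq]
  have hq : (((F.filter (fun E => rootNumber w2 w3 E.1 E.2 = 1)).card : ℝ)) / (F.card : ℝ) - 1 / 2 =
      S / (2 * F.card) := by
    rw [hcnt]
    field_simp
  rw [hq, abs_div, abs_of_pos (by positivity : (0 : ℝ) < 2 * F.card), div_lt_iff₀ (by positivity)]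
  have h9 : e * Y ^ 2 / 6 < ε * (2 * (Y ^ 2 / 240)) := by
    rw [he]
    nlinarith
  have h10 : ε * (2 * (Y ^ 2 / 240)) ≤ ε * (2 * F.card) := by
    apply mul_le_mul_of_nonneg_left _ hε.le
    linarith
  linarith
-- END final

end Rn2
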