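import Pool.Agent.Rnt.Defs

/-!
# Root numbers of elliptic curves over `ℚ` with full rational 2-torsion (MP_b8563d_nt): definitions

`disc`, `wp`, `LocalSign`, `rootNumber`, `Minimal` are those of `Pool.Agent.Rnt.Defs`.
-/

set_option autoImplicit false

namespace Rn2

open Finset Filter Topology Rnt

/-- The elliptic curves over `ℚ` with `E[2] ⊆ E(ℚ)` and of naive height at most `X`, up to isomorphism: the pairs `(A, B)` with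
`Minimal A B`, `4A³ + 27B² ≠ 0`, `max(4|A|³, 27B²) ≤ X` such that `x³ + Ax + B` splits into linear factors over `ℚ`. -/
def Fam2 (X : ℝ) : Set (ℤ × ℤ) :=
  {E | Minimal E.1 E.2 ∧ disc E.1 E.2 ≠ 0 ∧
    (∃ a b c : ℚ, ∀ x : ℚ, x ^ 3 + E.1 * x + E.2 = (x - a) * (x - b) * (x - c)) ∧
    4 * |(E.1 : ℝ)| ^ 3 ≤ X ∧ 27 * (E.2 : ℝ) ^ 2 ≤ X}

/-! ## Auxiliary definitions: the roots are `a`, `b`, `-a-b` -/

/-- `A = -(a² + ab + b²)` -/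
def Af (a b : ℤ) : ℤ := -(a ^ 2 + a * b + b ^ 2)

/-- `B = ab(a + b)` -/
def Bf (a b : ℤ) : ℤ := a * b * (a + b)

/-- `u = a - b` -/
def uu (a b : ℤ) : ℤ := a - b

/-- `v = a + 2b` -/
def vv (a b : ℤ) : ℤ := a + 2 * b

/-- `s = u + v = 2a + b` -/
def ss (a b : ℤ) : ℤ := 2 * a + b

theorem ss_eq (a b : ℤ) : ss a b = uu a b + vv a b := by
  unfold ss uu vv; ring

theorem disc_eq (a b : ℤ) : disc (Af a b) (Bf a b) = -(uu a b * vv a b * ss a b) ^ 2 := by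
  unfold disc Af Bf uu vv ss; ring

/-- exceptional pairs -/
def Exc2 (T j : ℕ) (a b : ℤ) : Prop :=
  uu a b = 0 ∨ vv a b = 0 ∨ ss a b = 0 ∨
  (∃ p : ℕ, p.Prime ∧ T < p ∧ (((p : ℤ) ∣ uu a b ∧ (p : ℤ) ∣ vv a b) ∨ (p : ℤ) ^ 2 ∣ uu a b ∨ (p : ℤ) ^ 2 ∣ vv a b ∨ (p : ℤ) ^ 2 ∣ ss a b)) ∨
  (∃ p : ℕ, p.Prime ∧ p ≤ T ∧ ((p : ℤ) ^ j ∣ uu a b ∨ (p : ℤ) ^ j ∣ vv a b ∨ (p : ℤ) ^ j ∣ ss a b))

/-- the box `|a|, |b| ≤ Y` -/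
noncomputable def Box2 (Y : ℝ) : Finset (ℤ × ℤ) := (Icc (-⌊Y⌋) ⌊Y⌋) ×ˢ (Icc (-⌊Y⌋) ⌊Y⌋)

open Classical in
/-- The pairs `(a, b)` of height at most `Y⁶`. -/
noncomputable def Reg2 (Y : ℝ) : Finset (ℤ × ℤ) :=
  (Box2 Y).filter (fun x => 4 * |((Af x.1 x.2 : ℤ) : ℝ)| ^ 3 ≤ Y ^ 6)

open Classical in
/-- the pairs `(a, b)` of the curves of the family -/
noncomputable def PR2 (Y : ℝ) : Finset (ℤ × ℤ) :=
  (Reg2 Y).filter (fun x => Minimal (Af x.1 x.2) (Bf x.1 x.2) ∧ disc (Af x.1 x.2) (Bf x.1 x.2) ≠ 0)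

/-- sign conditions -/
def sgb (s : Bool) (n : ℤ) : Prop := if s then 0 < n else n < 0

/-- the rough part of `|n|` -/
noncomputable def ro (T : ℕ) (n : ℤ) : ℕ := (n / sm T n).natAbs

/-- the Jacobi symbol `(u'/v')` -/
noncomputable def jj (T : ℕ) (a b : ℤ) : ℤ := jacobiSym ((ro T (uu a b) : ℕ) : ℤ) (ro T (vv a b))

open Classical in
/-- the cells: signs of `u`, `v`, `s`, residue classes -/
noncomputable def Cell2 (M : ℕ) (a₀ b₀ : ℤ) (τ : Bool × Bool × Bool) (Y : ℝ) : Finset (ℤ × ℤ) :=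
  (Reg2 Y).filter (fun x => (sgb τ.1 (uu x.1 x.2) ∧ sgb τ.2.1 (vv x.1 x.2) ∧ sgb τ.2.2 (ss x.1 x.2)) ∧
    (M : ℤ) ∣ x.1 - a₀ ∧ (M : ℤ) ∣ x.2 - b₀)

end Rn2
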