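import Pool.Agent.Rn2.Defs
import Pool.Agent.Rnt.Loc

/-!
# Rn2 LOC: the root number is a periodic function times three Moebius functions and a Jacobi symbol
-/

set_option autoImplicit false

namespace Rn2

open Finset Filter Topology Rnt

-- BEGIN wp_u
/-- L1. `p ∣ u`: `a = b`, `A = -3a²`, `B = 2a³`, `v = 3a` mod `p`; `p ∤ v` so `p ∤ a`, `p ∤ A`; `6B = 12a³ = 4a²·v`. -/
theorem wp_u (a b : ℤ) (p : ℕ) (hp : p.Prime) (h5 : 5 ≤ p) (h : (p : ℤ) ∣ uu a b) (hv : ¬ (p : ℤ) ∣ vv a b) :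
    wp (Af a b) (Bf a b) p = - jacobiSym (vv a b) p := by
  have hpi : Prime (p : ℤ) := Nat.prime_iff_prime_int.1 hp
  have h' : (p : ℤ) ∣ a - b := h
  have ha : ¬ (p : ℤ) ∣ a := by
    intro h0
    apply hv
    unfold vv
    have h1 : (p : ℤ) ∣ a + 2 * a - 2 * (a - b) := (h0.add (h0.mul_left 2)).sub (h'.mul_left 2)
    have h2 : a + 2 * a - 2 * (a - b) = a + 2 * b := by ring
    rwa [h2] at h1
  have hsmall : ∀ k : ℕ, 0 < k → k < 5 → ¬ (p : ℤ) ∣ (k : ℤ) := by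
    intro k hk0 hk h0
    have h1 := Nat.le_of_dvd hk0 (Int.natCast_dvd_natCast.1 h0)
    omega
  have hA : ¬ (p : ℤ) ∣ Af a b := by
    intro h0
    have h1 : (p : ℤ) ∣ -(Af a b) + (a - b) * (2 * a + b) := (h0.neg_right).add (h'.mul_right _)
    have h2 : -(Af a b) + (a - b) * (2 * a + b) = 3 * a * a := by unfold Af; ring
    rw [h2] at h1
    rcases hpi.dvd_or_dvd h1 with h3 | h3
    · rcases hpi.dvd_or_dvd h3 with h4 | h4
      · exact hsmall 3 (by norm_num) (by norm_num) (by exact_mod_cast h4)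
      · exact ha h4
    · exact ha h3
  have hd : (p : ℤ) ∣ disc (Af a b) (Bf a b) := by
    rw [disc_eq]
    exact ((((h.mul_right _).mul_right _).pow (by norm_num : 2 ≠ 0))).neg_right
  unfold wp
  rw [if_neg (not_not.2 hd), if_pos hA]
  congr 1
  have h6 : (6 * Bf a b) % (p : ℤ) = ((2 * a) ^ 2 * vv a b) % (p : ℤ) := by
    apply Int.emod_emod_of_dvd _ (dvd_refl _) |>.symm.trans _
    rw [Int.emod_emod_of_dvd _ (dvd_refl _)]
    apply Int.ModEq.symm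
    rw [Int.modEq_iff_dvd]
    have h2 : 6 * Bf a b - (2 * a) ^ 2 * vv a b = (a - b) * (-2 * a * (2 * a + 3 * b)) := by
      unfold Bf vv; ring
    rw [h2]
    exact h'.mul_right _
  rw [jacobiSym.mod_left (6 * Bf a b), h6, ← jacobiSym.mod_left, jacobiSym.mul_left,
    jacobiSym.pow_left]
  have hg : Int.gcd (2 * a) (p : ℤ) = 1 := by
    rw [Int.gcd_comm, ← Int.isCoprime_iff_gcd_eq_one]
    apply (Prime.coprime_iff_not_dvd hpi).2
    intro h0
    rcases hpi.dvd_or_dvd h0 with h4 | h4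
    · exact hsmall 2 (by norm_num) (by norm_num) (by exact_mod_cast h4)
    · exact ha h4
  rw [← jacobiSym.pow_left, jacobiSym.sq_one' hg, one_mul]
-- END wp_u

-- BEGIN wp_v
/-- L2. `p ∣ v`: `a = -2b`, `A = -3b²`, `B = 2b³`, `-u = 3b` mod `p`; `6B = 12b³ = 4b²·(-u)`. -/
theorem wp_v (a b : ℤ) (p : ℕ) (hp : p.Prime) (h5 : 5 ≤ p) (h : (p : ℤ) ∣ vv a b) (hu : ¬ (p : ℤ) ∣ uu a b) :
    wp (Af a b) (Bf a b) p = - jacobiSym (-uu a b) p := by
  have hpi : Prime (p : ℤ) := Nat.prime_iff_prime_int.1 hp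
  have h' : (p : ℤ) ∣ a + 2 * b := h
  have hb : ¬ (p : ℤ) ∣ b := by
    intro h0
    apply hu
    unfold uu
    have h1 : (p : ℤ) ∣ (a + 2 * b) - 3 * b := h'.sub (h0.mul_left 3)
    have h2 : (a + 2 * b) - 3 * b = a - b := by ring
    rwa [h2] at h1
  have hsmall : ∀ k : ℕ, 0 < k → k < 5 → ¬ (p : ℤ) ∣ (k : ℤ) := by
    intro k hk0 hk h0
    have h1 := Nat.le_of_dvd hk0 (Int.natCast_dvd_natCast.1 h0)
    omega
  have hA : ¬ (p : ℤ) ∣ Af a b := by
    intro h0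
    have h1 : (p : ℤ) ∣ -(Af a b) - (a + 2 * b) * (a - b) := (h0.neg_right).sub (h'.mul_right _)
    have h2 : -(Af a b) - (a + 2 * b) * (a - b) = 3 * b * b := by unfold Af; ring
    rw [h2] at h1
    rcases hpi.dvd_or_dvd h1 with h3 | h3
    · rcases hpi.dvd_or_dvd h3 with h4 | h4
      · exact hsmall 3 (by norm_num) (by norm_num) (by exact_mod_cast h4)
      · exact hb h4
    · exact hb h3
  have hd : (p : ℤ) ∣ disc (Af a b) (Bf a b) := by
    rw [disc_eq]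
    exact ((((h.mul_left _).mul_right _).pow (by norm_num : 2 ≠ 0))).neg_right
  unfold wp
  rw [if_neg (not_not.2 hd), if_pos hA]
  congr 1
  have h6 : (6 * Bf a b) % (p : ℤ) = ((2 * b) ^ 2 * (-uu a b)) % (p : ℤ) := by
    apply Int.ModEq.symm
    rw [Int.modEq_iff_dvd]
    have h2 : 6 * Bf a b - (2 * b) ^ 2 * (-uu a b) = (a + 2 * b) * (b * (6 * a - 2 * b)) := by
      unfold Bf uu; ring
    rw [h2]
    exact h'.mul_right _
  rw [jacobiSym.mod_left (6 * Bf a b), h6, ← jacobiSym.mod_left, jacobiSym.mul_left,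
    jacobiSym.pow_left]
  have hg : Int.gcd (2 * b) (p : ℤ) = 1 := by
    rw [Int.gcd_comm, ← Int.isCoprime_iff_gcd_eq_one]
    apply (Prime.coprime_iff_not_dvd hpi).2
    intro h0
    rcases hpi.dvd_or_dvd h0 with h4 | h4
    · exact hsmall 2 (by norm_num) (by norm_num) (by exact_mod_cast h4)
    · exact hb h4
  rw [← jacobiSym.pow_left, jacobiSym.sq_one' hg, one_mul]
-- END wp_v

-- BEGIN wp_s
/-- L3. `p ∣ s`: `b = -2a`, `A = -3a²`, `B = 2a³`, `u = 3a` mod `p`; `6B = 12a³ = 4a²·u`. -/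
theorem wp_s (a b : ℤ) (p : ℕ) (hp : p.Prime) (h5 : 5 ≤ p) (h : (p : ℤ) ∣ ss a b) (hu : ¬ (p : ℤ) ∣ uu a b) :
    wp (Af a b) (Bf a b) p = - jacobiSym (uu a b) p := by
  have hpi : Prime (p : ℤ) := Nat.prime_iff_prime_int.1 hp
  have h' : (p : ℤ) ∣ 2 * a + b := h
  have ha : ¬ (p : ℤ) ∣ a := by
    intro h0
    apply hu
    unfold uu
    have h1 : (p : ℤ) ∣ 3 * a - (2 * a + b) := (h0.mul_left 3).sub h'
    have h2 : 3 * a - (2 * a + b) = a - b := by ring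
    rwa [h2] at h1
  have hsmall : ∀ k : ℕ, 0 < k → k < 5 → ¬ (p : ℤ) ∣ (k : ℤ) := by
    intro k hk0 hk h0
    have h1 := Nat.le_of_dvd hk0 (Int.natCast_dvd_natCast.1 h0)
    omega
  have hA : ¬ (p : ℤ) ∣ Af a b := by
    intro h0
    have h1 : (p : ℤ) ∣ -(Af a b) - (2 * a + b) * (b - a) := (h0.neg_right).sub (h'.mul_right _)
    have h2 : -(Af a b) - (2 * a + b) * (b - a) = 3 * a * a := by unfold Af; ring
    rw [h2] at h1
    rcases hpi.dvd_or_dvd h1 with h3 | h3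
    · rcases hpi.dvd_or_dvd h3 with h4 | h4
      · exact hsmall 3 (by norm_num) (by norm_num) (by exact_mod_cast h4)
      · exact ha h4
    · exact ha h3
  have hd : (p : ℤ) ∣ disc (Af a b) (Bf a b) := by
    rw [disc_eq]
    exact (((h.mul_left _).pow (by norm_num : 2 ≠ 0))).neg_right
  unfold wp
  rw [if_neg (not_not.2 hd), if_pos hA]
  congr 1
  have h6 : (6 * Bf a b) % (p : ℤ) = ((2 * a) ^ 2 * uu a b) % (p : ℤ) := by
    apply Int.ModEq.symm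
    rw [Int.modEq_iff_dvd]
    have h2 : 6 * Bf a b - (2 * a) ^ 2 * uu a b = (2 * a + b) * (a * (6 * b - 2 * a)) := by
      unfold Bf uu; ring
    rw [h2]
    exact h'.mul_right _
  rw [jacobiSym.mod_left (6 * Bf a b), h6, ← jacobiSym.mod_left, jacobiSym.mul_left,
    jacobiSym.pow_left]
  have hg : Int.gcd (2 * a) (p : ℤ) = 1 := by
    rw [Int.gcd_comm, ← Int.isCoprime_iff_gcd_eq_one]
    apply (Prime.coprime_iff_not_dvd hpi).2
    intro h0
    rcases hpi.dvd_or_dvd h0 with h4 | h4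
    · exact hsmall 2 (by norm_num) (by norm_num) (by exact_mod_cast h4)
    · exact ha h4
  rw [← jacobiSym.pow_left, jacobiSym.sq_one' hg, one_mul]
-- END wp_s

-- BEGIN cop
private theorem cop_dvd (T : ℕ) (n : ℤ) (hn : n ≠ 0) (p : ℕ) (hp : p.Prime) (h : p ∣ ro T n) :
    T < p ∧ (p : ℤ) ∣ n := by
  have h1 : T < p := by
    by_contra h2
    exact (sm_basic T n hn).2.2 p hp (not_lt.1 h2) (Int.natCast_dvd.2 h)
  exact ⟨h1, (sm_prime T n hn p hp h1).2 h⟩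

private theorem cop_odd (T : ℕ) (hT : 5 ≤ T) (n : ℤ) (hn : n ≠ 0) : Odd (ro T n) := by
  rw [← Nat.not_even_iff_odd, even_iff_two_dvd]
  intro h
  have := (cop_dvd T n hn 2 Nat.prime_two h).1
  omega

private theorem cop_sm (T : ℕ) (n : ℤ) (p : ℕ) (hp : p.Prime) (h : p ∣ sm T n) : p ≤ T := by
  rw [sm, Prime.dvd_finsetProd_iff hp.prime] at h
  obtain ⟨q, hq, hpq⟩ := h
  rw [mem_filter, mem_range] at hq
  have h1 := hp.dvd_of_dvd_pow hpq
  rw [Nat.prime_dvd_prime_iff_eq hp hq.2] at h1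
  omega

/-- L4. For non exceptional pairs a prime `p > T` divides at most one of `u`, `v`, `s` (`s = u + v`), so the rough parts are pairwise coprime; they are coprime to everything composed of primes `≤ T`; odd; `v` is prime to `u'`. -/
theorem cop (T j : ℕ) (hT : 5 ≤ T) (a b : ℤ) (h : ¬ Exc2 T j a b) :
    Nat.Coprime (ro T (uu a b)) (ro T (vv a b)) ∧ Nat.Coprime (ro T (uu a b)) (ro T (ss a b)) ∧ Nat.Coprime (ro T (vv a b)) (ro T (ss a b)) ∧
    Int.gcd (vv a b) (ro T (uu a b)) = 1 ∧ Odd (ro T (uu a b)) ∧ Odd (ro T (vv a b)) ∧ Odd (ro T (ss a b)) ∧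
    Nat.Coprime (sm T (ss a b)) (ro T (uu a b)) := by
  have hu : uu a b ≠ 0 := fun h0 => h (Or.inl h0)
  have hv : vv a b ≠ 0 := fun h0 => h (Or.inr (Or.inl h0))
  have hs : ss a b ≠ 0 := fun h0 => h (Or.inr (Or.inr (Or.inl h0)))
  have huv : ∀ p : ℕ, p.Prime → T < p → (p : ℤ) ∣ uu a b → (p : ℤ) ∣ vv a b → False :=
    fun p hp hpT h1 h2 => h (Or.inr (Or.inr (Or.inr (Or.inl ⟨p, hp, hpT, Or.inl ⟨h1, h2⟩⟩))))
  have hss := ss_eq a b
  refine ⟨?_, ?_, ?_, ?_, cop_odd T hT _ hu, cop_odd T hT _ hv, cop_odd T hT _ hs, ?_⟩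
  · by_contra hc
    obtain ⟨p, hp, h1, h2⟩ := Nat.Prime.not_coprime_iff_dvd.1 hc
    have h3 := cop_dvd T _ hu p hp h1
    exact huv p hp h3.1 h3.2 (cop_dvd T _ hv p hp h2).2
  · by_contra hc
    obtain ⟨p, hp, h1, h2⟩ := Nat.Prime.not_coprime_iff_dvd.1 hc
    have h3 := cop_dvd T _ hu p hp h1
    have h4 := (cop_dvd T _ hs p hp h2).2
    rw [hss] at h4
    exact huv p hp h3.1 h3.2 ((dvd_add_right h3.2).1 h4)
  · by_contra hc
    obtain ⟨p, hp, h1, h2⟩ := Nat.Prime.not_coprime_iff_dvd.1 hc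
    have h3 := cop_dvd T _ hv p hp h1
    have h4 := (cop_dvd T _ hs p hp h2).2
    rw [hss] at h4
    exact huv p hp h3.1 ((dvd_add_left h3.2).1 h4) h3.2
  · by_contra hc
    have hc' : ¬ Nat.Coprime (vv a b).natAbs (ro T (uu a b)) := by
      intro h1
      apply hc
      rw [Int.gcd, Int.natAbs_natCast]
      exact h1
    obtain ⟨p, hp, h1, h2⟩ := Nat.Prime.not_coprime_iff_dvd.1 hc'
    have h3 := cop_dvd T _ hu p hp h2
    exact huv p hp h3.1 h3.2 (Int.natCast_dvd.2 h1)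
  · by_contra hc
    obtain ⟨p, hp, h1, h2⟩ := Nat.Prime.not_coprime_iff_dvd.1 hc
    have h3 := (cop_dvd T _ hu p hp h2).1
    have h4 := cop_sm T _ p hp h1
    omega
-- END cop

-- BEGIN prod_big
private theorem prod_big_aux (a : ℤ) (n : ℕ) : Squarefree n →
    ∏ p ∈ n.primeFactors, (-jacobiSym a p) = ArithmeticFunction.moebius n * jacobiSym a n := by
  induction n using induction_on_primes with
  | zero => intro h; exact absurd h not_squarefree_zero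
  | one => intro _; simp
  | prime_mul p m hp ih =>
    intro h
    have hco : Nat.Coprime p m := Nat.coprime_of_squarefree_mul h
    have hm : Squarefree m := h.of_mul_right
    have hm0 : m ≠ 0 := hm.ne_zero
    rw [hco.primeFactors_mul, prod_union hco.disjoint_primeFactors, ih hm, hp.primeFactors,
      prod_singleton, ArithmeticFunction.isMultiplicative_moebius.map_mul_of_coprime hco,
      ArithmeticFunction.moebius_apply_prime hp, jacobiSym.mul_right' a hp.ne_zero hm0]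
    ring

private theorem prod_big_mem (T : ℕ) (n : ℤ) (hn : n ≠ 0) (p : ℕ) (hp : p.Prime) :
    p ∣ ro T n ↔ T < p ∧ (p : ℤ) ∣ n := by
  unfold ro
  constructor
  · intro hd
    have hTp : T < p := by
      by_contra hle
      exact (sm_basic T n hn).2.2 p hp (by omega) (Int.natCast_dvd.2 hd)
    exact ⟨hTp, (sm_prime T n hn p hp hTp).2 hd⟩
  · rintro ⟨hTp, hd⟩
    exact (sm_prime T n hn p hp hTp).1 hd

/-- L5. As `Rn3.prod_big`, `Rnt.prod_big`: a prime `p > T` dividing `disc = -(uvs)²` divides exactly one of `u`, `v`, `s`; `wp_u`, `wp_v`, `wp_s`; the product over the primes of `u'` (squarefree) of `-(v/p)` is `μ(u') (v/u')`, etc. -/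
theorem prod_big (T j : ℕ) (hT : 5 ≤ T) (a b : ℤ) (h : ¬ Exc2 T j a b) :
    ∏ p ∈ (disc (Af a b) (Bf a b)).natAbs.primeFactors with T < p, wp (Af a b) (Bf a b) p =
      ArithmeticFunction.moebius (ro T (uu a b)) * ArithmeticFunction.moebius (ro T (vv a b)) * ArithmeticFunction.moebius (ro T (ss a b)) *
      (jacobiSym (vv a b) (ro T (uu a b)) * jacobiSym (-uu a b) (ro T (vv a b)) * jacobiSym (uu a b) (ro T (ss a b))) := by
  unfold Exc2 at h
  push Not at h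
  obtain ⟨hu0, hv0, hs0, hbig, hsmall⟩ := h
  have huv : ∀ p : ℕ, p.Prime → T < p → (p : ℤ) ∣ uu a b → ¬ (p : ℤ) ∣ vv a b := fun p hp hTp =>
    (hbig p hp hTp).1
  have hsu : ∀ p : ℕ, p.Prime → T < p → (p : ℤ) ∣ ss a b → ¬ (p : ℤ) ∣ uu a b := by
    intro p hp hTp hs hu
    refine huv p hp hTp hu ?_
    have h1 : vv a b = ss a b - uu a b := by rw [ss_eq]; ring
    rw [h1]
    exact dvd_sub hs hu
  have hsv : ∀ p : ℕ, p.Prime → T < p → (p : ℤ) ∣ ss a b → ¬ (p : ℤ) ∣ vv a b := by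
    intro p hp hTp hs hv
    refine huv p hp hTp ?_ hv
    have h1 : uu a b = ss a b - vv a b := by rw [ss_eq]; ring
    rw [h1]
    exact dvd_sub hs hv
  have hsqu : Squarefree (ro T (uu a b)) := sm_sqf T _ hu0 fun p hp hTp => (hbig p hp hTp).2.1
  have hsqv : Squarefree (ro T (vv a b)) := sm_sqf T _ hv0 fun p hp hTp => (hbig p hp hTp).2.2.1
  have hsqs : Squarefree (ro T (ss a b)) := sm_sqf T _ hs0 fun p hp hTp => (hbig p hp hTp).2.2.2
  have hd0 : disc (Af a b) (Bf a b) ≠ 0 := by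
    rw [disc_eq]
    exact neg_ne_zero.2 (pow_ne_zero 2 (mul_ne_zero (mul_ne_zero hu0 hv0) hs0))
  have hset : (disc (Af a b) (Bf a b)).natAbs.primeFactors.filter (fun p => T < p) =
      ((ro T (uu a b)).primeFactors ∪ (ro T (vv a b)).primeFactors) ∪
        (ro T (ss a b)).primeFactors := by
    ext p
    simp only [mem_filter, mem_union, Nat.mem_primeFactors]
    constructor
    · rintro ⟨⟨hp, hd, _⟩, hTp⟩
      have hpp : Prime (p : ℤ) := Nat.prime_iff_prime_int.1 hp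
      rw [← Int.natCast_dvd, disc_eq, dvd_neg] at hd
      rcases hpp.dvd_or_dvd (hpp.dvd_of_dvd_pow hd) with h1 | h1
      · rcases hpp.dvd_or_dvd h1 with h2 | h2
        · exact Or.inl (Or.inl ⟨hp, (prod_big_mem T _ hu0 p hp).2 ⟨hTp, h2⟩, hsqu.ne_zero⟩)
        · exact Or.inl (Or.inr ⟨hp, (prod_big_mem T _ hv0 p hp).2 ⟨hTp, h2⟩, hsqv.ne_zero⟩)
      · exact Or.inr ⟨hp, (prod_big_mem T _ hs0 p hp).2 ⟨hTp, h1⟩, hsqs.ne_zero⟩
    · have key : ∀ n : ℤ, n ≠ 0 → n ∣ uu a b * vv a b * ss a b → p.Prime → p ∣ ro T n →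
          (p.Prime ∧ p ∣ (disc (Af a b) (Bf a b)).natAbs ∧
            (disc (Af a b) (Bf a b)).natAbs ≠ 0) ∧ T < p := by
        intro n hn hnd hp hd
        obtain ⟨hTp, h1⟩ := (prod_big_mem T n hn p hp).1 hd
        refine ⟨⟨hp, ?_, Int.natAbs_ne_zero.2 hd0⟩, hTp⟩
        rw [← Int.natCast_dvd, disc_eq, dvd_neg]
        exact (h1.trans hnd).trans (dvd_pow_self _ two_ne_zero)
      rintro ((⟨hp, hd, _⟩ | ⟨hp, hd, _⟩) | ⟨hp, hd, _⟩)
      · exact key _ hu0 ((dvd_mul_right _ _).mul_right _) hp hd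
      · exact key _ hv0 ((dvd_mul_left _ _).mul_right _) hp hd
      · exact key _ hs0 (dvd_mul_left _ _) hp hd
  have hdis1 : Disjoint (ro T (uu a b)).primeFactors (ro T (vv a b)).primeFactors := by
    rw [disjoint_left]
    intro p h1 h2
    rw [Nat.mem_primeFactors] at h1 h2
    obtain ⟨hTp, h3⟩ := (prod_big_mem T _ hu0 p h1.1).1 h1.2.1
    exact huv p h1.1 hTp h3 ((prod_big_mem T _ hv0 p h1.1).1 h2.2.1).2
  have hdis2 : Disjoint ((ro T (uu a b)).primeFactors ∪ (ro T (vv a b)).primeFactors)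
      (ro T (ss a b)).primeFactors := by
    rw [disjoint_left]
    intro p h1 h2
    rw [Nat.mem_primeFactors] at h2
    obtain ⟨hTp, h3⟩ := (prod_big_mem T _ hs0 p h2.1).1 h2.2.1
    rw [mem_union, Nat.mem_primeFactors, Nat.mem_primeFactors] at h1
    rcases h1 with h1 | h1
    · exact hsu p h2.1 hTp h3 ((prod_big_mem T _ hu0 p h2.1).1 h1.2.1).2
    · exact hsv p h2.1 hTp h3 ((prod_big_mem T _ hv0 p h2.1).1 h1.2.1).2
  have e1 : ∏ p ∈ (ro T (uu a b)).primeFactors, wp (Af a b) (Bf a b) p =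
      ∏ p ∈ (ro T (uu a b)).primeFactors, (-jacobiSym (vv a b) p) := by
    refine prod_congr rfl (fun p hp => ?_)
    rw [Nat.mem_primeFactors] at hp
    obtain ⟨hTp, h3⟩ := (prod_big_mem T _ hu0 p hp.1).1 hp.2.1
    exact wp_u a b p hp.1 (by omega) h3 (huv p hp.1 hTp h3)
  have e2 : ∏ p ∈ (ro T (vv a b)).primeFactors, wp (Af a b) (Bf a b) p =
      ∏ p ∈ (ro T (vv a b)).primeFactors, (-jacobiSym (-uu a b) p) := by
    refine prod_congr rfl (fun p hp => ?_)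
    rw [Nat.mem_primeFactors] at hp
    obtain ⟨hTp, h3⟩ := (prod_big_mem T _ hv0 p hp.1).1 hp.2.1
    exact wp_v a b p hp.1 (by omega) h3 (fun hu => huv p hp.1 hTp hu h3)
  have e3 : ∏ p ∈ (ro T (ss a b)).primeFactors, wp (Af a b) (Bf a b) p =
      ∏ p ∈ (ro T (ss a b)).primeFactors, (-jacobiSym (uu a b) p) := by
    refine prod_congr rfl (fun p hp => ?_)
    rw [Nat.mem_primeFactors] at hp
    obtain ⟨hTp, h3⟩ := (prod_big_mem T _ hs0 p hp.1).1 hp.2.1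
    exact wp_s a b p hp.1 (by omega) h3 (hsu p hp.1 hTp h3)
  rw [hset, prod_union hdis2, prod_union hdis1, e1, e2, e3, prod_big_aux _ _ hsqu,
    prod_big_aux _ _ hsqv, prod_big_aux _ _ hsqs]
  ring
-- END prod_big

-- BEGIN jac_form
/-- L6. Pure Jacobi symbols. `J(u|s') = J(sgn u · U|s') J(u'|s')`, `J(u'|s') = ± J(s'|u')` (`jacobiSym.quadratic_reciprocity`), `J(s'|u') J(sgn s · S|u') = J(s|u') = J(v|u')`, `J(v|u')² = J(sgn s · S|u')² = 1`; `J(-u|v') = J(-sgn u · U|v') J(u'|v')`. -/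
theorem jac_form (u v s : ℤ) (U S u' v' s' : ℕ) (hs : s = u + v) (hu : u = u.sign * (U * u' : ℕ)) (hs' : s = s.sign * (S * s' : ℕ))
    (ou : Odd u') (ov : Odd v') (os : Odd s') (h1 : Int.gcd v u' = 1) (h2 : Nat.Coprime S u') (h3 : s ≠ 0) (h4 : u ≠ 0) :
    jacobiSym v u' * jacobiSym (-u) v' * jacobiSym u s' =
      jacobiSym (u' : ℤ) v' * (jacobiSym (u.sign * U) s' * jacobiSym (s.sign * S) u' * jacobiSym (-(u.sign * U)) v' * (-1) ^ (u' / 2 * (s' / 2))) := by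
  have e1 : jacobiSym (-u) v' = jacobiSym (-(u.sign * U)) v' * jacobiSym (u' : ℤ) v' := by
    rw [← jacobiSym.mul_left]
    congr 1
    conv_lhs => rw [hu]
    push_cast
    ring
  have e2 : jacobiSym u s' = jacobiSym (u.sign * U) s' * jacobiSym (u' : ℤ) s' := by
    rw [← jacobiSym.mul_left]
    congr 1
    conv_lhs => rw [hu]
    push_cast
    ring
  have e3 : jacobiSym (u' : ℤ) s' = (-1) ^ (u' / 2 * (s' / 2)) * jacobiSym (s' : ℤ) u' :=
    jacobiSym.quadratic_reciprocity ou os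
  have hdvd : (u' : ℤ) ∣ u := by
    refine ⟨u.sign * U, ?_⟩
    conv_lhs => rw [hu]
    push_cast
    ring
  have e4 : jacobiSym v u' = jacobiSym s u' := by
    apply jacobiSym.mod_left'
    apply Int.ModEq.eq
    rw [Int.modEq_iff_dvd, hs]
    obtain ⟨k, hk⟩ := hdvd
    exact ⟨k, by rw [hk]; ring⟩
  have e5 : jacobiSym s u' = jacobiSym (s.sign * S) u' * jacobiSym (s' : ℤ) u' := by
    rw [← jacobiSym.mul_left]
    congr 1
    conv_lhs => rw [hs']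
    push_cast
    ring
  have e6 : jacobiSym (s' : ℤ) u' * jacobiSym (s' : ℤ) u' = 1 := by
    have h5 : jacobiSym v u' ≠ 0 := by
      intro h8
      exact (jacobiSym.eq_zero_iff.1 h8).2 h1
    have h6 : jacobiSym (s' : ℤ) u' ≠ 0 := by
      intro h7
      rw [e4, e5, h7, mul_zero] at h5
      exact h5 rfl
    rcases jacobiSym.trichotomy (s' : ℤ) u' with h | h | h
    · exact absurd h h6
    · rw [h]; norm_num
    · rw [h]; norm_num
  rw [e1, e2, e3, e4, e5]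
  linear_combination (jacobiSym (s.sign * S) u' * jacobiSym (-(u.sign * U)) v' * jacobiSym (u' : ℤ) v' *
    jacobiSym (u.sign * U) s' * (-1) ^ (u' / 2 * (s' / 2))) * e6
-- END jac_form

-- BEGIN jac_congr
private theorem jac_congr_split (T : ℕ) (n : ℤ) (hn : n ≠ 0) :
    n = n.sign * ((sm T n * ro T n : ℕ) : ℤ) := by
  obtain ⟨h0, h1, -⟩ := sm_basic T n hn
  have e : (sm T n : ℤ) * (n / sm T n) = n := Int.mul_ediv_cancel' h1
  have e2 : sm T n * ro T n = n.natAbs := by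
    have := congrArg Int.natAbs e
    rwa [Int.natAbs_mul, Int.natAbs_natCast] at this
  rw [e2]
  exact (Int.sign_mul_natAbs n).symm

private theorem jac_congr_pp_add (T a b : ℕ) : PP T (a + b) = PP T a * PP T b := by
  unfold PP
  rw [← Finset.prod_mul_distrib]
  exact Finset.prod_congr rfl (fun p _ => pow_add p a b)

private theorem jac_congr_pow_dvd (T k p : ℕ) (hp : p.Prime) (hpT : p ≤ T) : p ^ k ∣ PP T k := by
  unfold PP
  exact Finset.dvd_prod_of_mem (fun p => p ^ k) (mem_filter.mpr ⟨mem_range.mpr (by omega), hp⟩)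

private theorem jac_congr_form (T j : ℕ) (hT : 5 ≤ T) (a b : ℤ) (h : ¬ Exc2 T j a b) :
    jacobiSym (vv a b) (ro T (uu a b)) * jacobiSym (-uu a b) (ro T (vv a b)) * jacobiSym (uu a b) (ro T (ss a b)) * jj T a b =
      jacobiSym ((uu a b).sign * (sm T (uu a b) : ℕ)) (ro T (ss a b)) *
      jacobiSym ((ss a b).sign * (sm T (ss a b) : ℕ)) (ro T (uu a b)) *
      jacobiSym (-((uu a b).sign * (sm T (uu a b) : ℕ))) (ro T (vv a b)) *
      (-1) ^ (ro T (uu a b) / 2 * (ro T (ss a b) / 2)) := by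
  obtain ⟨c1, c2, c3, c4, o1, o2, o3, c5⟩ := cop T j hT a b h
  unfold Exc2 at h
  push Not at h
  obtain ⟨hu, hv, hs, -, -⟩ := h
  rw [jac_form (uu a b) (vv a b) (ss a b) (sm T (uu a b)) (sm T (ss a b)) (ro T (uu a b)) (ro T (vv a b)) (ro T (ss a b))
    (ss_eq a b) (jac_congr_split T _ hu) (jac_congr_split T _ hs) o1 o2 o3 c4 c5 hs hu]
  have hj : jacobiSym ((ro T (uu a b) : ℕ) : ℤ) (ro T (vv a b)) * jacobiSym ((ro T (uu a b) : ℕ) : ℤ) (ro T (vv a b)) = 1 := by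
    rw [← pow_two]
    apply jacobiSym.sq_one
    rw [Int.gcd_natCast_natCast]
    exact c1
  unfold jj
  calc _ = (jacobiSym ((ro T (uu a b) : ℕ) : ℤ) (ro T (vv a b)) * jacobiSym ((ro T (uu a b) : ℕ) : ℤ) (ro T (vv a b))) *
        (jacobiSym ((uu a b).sign * (sm T (uu a b) : ℕ)) (ro T (ss a b)) *
      jacobiSym ((ss a b).sign * (sm T (ss a b) : ℕ)) (ro T (uu a b)) *
      jacobiSym (-((uu a b).sign * (sm T (uu a b) : ℕ))) (ro T (vv a b)) *
      (-1) ^ (ro T (uu a b) / 2 * (ro T (ss a b) / 2))) := by ring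
    _ = _ := by rw [hj, one_mul]

/-- L7. `jac_form` for both pairs, `(u'/v')² = 1`; `U, S` are the same (`sm_congr`) and divide `PP T j` (`sm_div`); `rough_congr` with `i = j + 2` for `u`, `v`, `s`; `jac_mod` (`4 U`, `4 S` divide `PP T (j + 2)`); `u'`, `s'` mod `4` for the sign. Copy of `Rnt.jac_congr` (helper56). -/
theorem jac_congr (T j : ℕ) (hT : 5 ≤ T) (a b a' b' : ℤ) (h : ¬ Exc2 T j a b) (h' : ¬ Exc2 T j a' b')
    (h1 : ((PP T (2 * j + 4) : ℕ) : ℤ) ∣ a - a') (h2 : ((PP T (2 * j + 4) : ℕ) : ℤ) ∣ b - b')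
    (s1 : (uu a b).sign = (uu a' b').sign) (s2 : (vv a b).sign = (vv a' b').sign) (s3 : (ss a b).sign = (ss a' b').sign) :
    jacobiSym (vv a b) (ro T (uu a b)) * jacobiSym (-uu a b) (ro T (vv a b)) * jacobiSym (uu a b) (ro T (ss a b)) * jj T a b =
    jacobiSym (vv a' b') (ro T (uu a' b')) * jacobiSym (-uu a' b') (ro T (vv a' b')) * jacobiSym (uu a' b') (ro T (ss a' b')) * jj T a' b' := by
  rw [jac_congr_form T j hT a b h, jac_congr_form T j hT a' b' h']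
  obtain ⟨-, -, -, -, o1, o2, o3, -⟩ := cop T j hT a b h
  obtain ⟨-, -, -, -, o1', o2', o3', -⟩ := cop T j hT a' b' h'
  unfold Exc2 at h h'
  push Not at h h'
  obtain ⟨hu0, hv0, hs0, -, hsm⟩ := h
  obtain ⟨hu0', hv0', hs0', -, -⟩ := h'
  have hu : ((PP T (2 * j + 4) : ℕ) : ℤ) ∣ uu a b - uu a' b' := by
    have e : uu a b - uu a' b' = (a - a') - (b - b') := by unfold uu; ring
    rw [e]
    exact dvd_sub h1 h2
  have hv : ((PP T (2 * j + 4) : ℕ) : ℤ) ∣ vv a b - vv a' b' := by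
    have e : vv a b - vv a' b' = (a - a') + 2 * (b - b') := by unfold vv; ring
    rw [e]
    exact dvd_add h1 (Dvd.dvd.mul_left h2 2)
  have hs : ((PP T (2 * j + 4) : ℕ) : ℤ) ∣ ss a b - ss a' b' := by
    have e : ss a b - ss a' b' = 2 * (a - a') + (b - b') := by unfold ss; ring
    rw [e]
    exact dvd_add (Dvd.dvd.mul_left h1 2) h2
  have hM : ∀ p : ℕ, p.Prime → p ≤ T → (p : ℤ) ^ j ∣ ((PP T (2 * j + 4) : ℕ) : ℤ) := by
    intro p hp hpT
    have a1 : p ^ (2 * j + 4) ∣ PP T (2 * j + 4) := jac_congr_pow_dvd T _ p hp hpT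
    have a2 : p ^ j ∣ PP T (2 * j + 4) := dvd_trans (pow_dvd_pow p (by omega)) a1
    exact_mod_cast a2
  have e3 : 2 * j + 4 = j + (j + 4) := by omega
  have smu : sm T (uu a b) = sm T (uu a' b') :=
    sm_congr T j _ hM _ _ hu (fun p hp hpT => (hsm p hp hpT).1)
  have sms : sm T (ss a b) = sm T (ss a' b') :=
    sm_congr T j _ hM _ _ hs (fun p hp hpT => (hsm p hp hpT).2.2)
  have cu : ro T (uu a b) ≡ ro T (uu a' b') [MOD PP T (j + 4)] :=
    rough_congr T j (j + 4) _ _ hu0 hu0' s1 (by rw [← e3]; exact hu) (fun p hp hpT => (hsm p hp hpT).1)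
  have cv : ro T (vv a b) ≡ ro T (vv a' b') [MOD PP T (j + 4)] :=
    rough_congr T j (j + 4) _ _ hv0 hv0' s2 (by rw [← e3]; exact hv) (fun p hp hpT => (hsm p hp hpT).2.1)
  have cs : ro T (ss a b) ≡ ro T (ss a' b') [MOD PP T (j + 4)] :=
    rough_congr T j (j + 4) _ _ hs0 hs0' s3 (by rw [← e3]; exact hs) (fun p hp hpT => (hsm p hp hpT).2.2)
  have du : sm T (uu a b) ∣ PP T j := sm_div T j _ hu0 (fun p hp hpT => (hsm p hp hpT).1)
  have ds : sm T (ss a b) ∣ PP T j := sm_div T j _ hs0 (fun p hp hpT => (hsm p hp hpT).2.2)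
  have pp1 : PP T (j + 4) = PP T 4 * PP T j := by
    rw [add_comm, jac_congr_pp_add]
  have h4 : 4 ∣ PP T 4 := by
    have a1 : 2 ^ 4 ∣ PP T 4 := jac_congr_pow_dvd T 4 2 Nat.prime_two (by omega)
    exact dvd_trans (by norm_num) a1
  have sgu : (uu a b).sign.natAbs = 1 := Int.natAbs_sign_of_ne_zero hu0
  have sgs : (ss a b).sign.natAbs = 1 := Int.natAbs_sign_of_ne_zero hs0
  rw [← smu, ← sms, ← s1, ← s3]
  have d1 : 4 * (((uu a b).sign * (sm T (uu a b) : ℕ) : ℤ)).natAbs ∣ PP T (j + 4) := by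
    rw [Int.natAbs_mul, sgu, Int.natAbs_natCast, one_mul, pp1]
    exact mul_dvd_mul h4 du
  have d2 : 4 * (((ss a b).sign * (sm T (ss a b) : ℕ) : ℤ)).natAbs ∣ PP T (j + 4) := by
    rw [Int.natAbs_mul, sgs, Int.natAbs_natCast, one_mul, pp1]
    exact mul_dvd_mul h4 ds
  have d3 : 4 * (-((uu a b).sign * (sm T (uu a b) : ℕ) : ℤ)).natAbs ∣ PP T (j + 4) := by
    rw [Int.natAbs_neg]
    exact d1
  have j1 : jacobiSym ((uu a b).sign * (sm T (uu a b) : ℕ)) (ro T (ss a b)) =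
      jacobiSym ((uu a b).sign * (sm T (uu a b) : ℕ)) (ro T (ss a' b')) :=
    jac_mod _ _ _ o3 o3' (Nat.ModEq.of_dvd d1 cs)
  have j2 : jacobiSym ((ss a b).sign * (sm T (ss a b) : ℕ)) (ro T (uu a b)) =
      jacobiSym ((ss a b).sign * (sm T (ss a b) : ℕ)) (ro T (uu a' b')) :=
    jac_mod _ _ _ o1 o1' (Nat.ModEq.of_dvd d2 cu)
  have j3 : jacobiSym (-((uu a b).sign * (sm T (uu a b) : ℕ))) (ro T (vv a b)) =
      jacobiSym (-((uu a b).sign * (sm T (uu a b) : ℕ))) (ro T (vv a' b')) :=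
    jac_mod _ _ _ o2 o2' (Nat.ModEq.of_dvd d3 cv)
  have h4' : 4 ∣ PP T (j + 4) := by
    rw [pp1]
    exact dvd_mul_of_dvd_left h4 _
  have m1 : ro T (uu a b) % 4 = ro T (uu a' b') % 4 := cu.of_dvd h4'
  have m2 : ro T (ss a b) % 4 = ro T (ss a' b') % 4 := cs.of_dvd h4'
  have p1 : ro T (uu a b) / 2 % 2 = ro T (uu a' b') / 2 % 2 := by omega
  have p2 : ro T (ss a b) / 2 % 2 = ro T (ss a' b') / 2 % 2 := by omega
  have j4 : (-1 : ℤ) ^ (ro T (uu a b) / 2 * (ro T (ss a b) / 2)) = (-1) ^ (ro T (uu a' b') / 2 * (ro T (ss a' b') / 2)) := by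
    rw [neg_one_pow_eq_pow_mod_two, neg_one_pow_eq_pow_mod_two (n := ro T (uu a' b') / 2 * (ro T (ss a' b') / 2)),
      Nat.mul_mod, p1, p2, ← Nat.mul_mod]
  rw [j1, j2, j3, j4]
-- END jac_congr

-- BEGIN disc_pow
private theorem disc_pow_val {p j : ℕ} {x : ℤ} (h : ¬ (p : ℤ) ^ j ∣ x) :
    ∃ m : ℕ, emultiplicity (p : ℤ) x = m ∧ m < j := by
  have h1 := emultiplicity_lt_iff_not_dvd.2 h
  have h2 : emultiplicity (p : ℤ) x ≠ ⊤ := (h1.trans_le le_top).ne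
  obtain ⟨m, hm⟩ := ENat.ne_top_iff_exists.1 h2
  refine ⟨m, hm.symm, ?_⟩
  rw [← hm] at h1
  exact_mod_cast h1

/-- L8. `v_p((uvs)²) ≤ 6 (j - 1)`. -/
theorem disc_pow (T j : ℕ) (hj : 1 ≤ j) (a b : ℤ) (h : ¬ Exc2 T j a b) (p : ℕ) (hp : p.Prime) (hpT : p ≤ T) :
    ¬ (p : ℤ) ^ (6 * j) ∣ disc (Af a b) (Bf a b) := by
  have hp' : Prime (p : ℤ) := Nat.prime_iff_prime_int.1 hp
  have hu : ¬ (p : ℤ) ^ j ∣ uu a b := fun h1 =>
    h (Or.inr (Or.inr (Or.inr (Or.inr ⟨p, hp, hpT, Or.inl h1⟩))))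
  have hv : ¬ (p : ℤ) ^ j ∣ vv a b := fun h1 =>
    h (Or.inr (Or.inr (Or.inr (Or.inr ⟨p, hp, hpT, Or.inr (Or.inl h1)⟩))))
  have hs : ¬ (p : ℤ) ^ j ∣ ss a b := fun h1 =>
    h (Or.inr (Or.inr (Or.inr (Or.inr ⟨p, hp, hpT, Or.inr (Or.inr h1)⟩))))
  obtain ⟨m1, h1, h1'⟩ := disc_pow_val hu
  obtain ⟨m2, h2, h2'⟩ := disc_pow_val hv
  obtain ⟨m3, h3, h3'⟩ := disc_pow_val hs
  rw [disc_eq, dvd_neg, ← emultiplicity_lt_iff_not_dvd, sq, emultiplicity_mul hp',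
    emultiplicity_mul hp', emultiplicity_mul hp', h1, h2, h3]
  have h4 : m1 + m2 + m3 + (m1 + m2 + m3) < 6 * j := by omega
  exact_mod_cast h4
-- END disc_pow

-- BEGIN min_iff
private theorem min_iff_root (p : ℕ) (hp : p.Prime) (A B z : ℤ) (hA : (p : ℤ) ^ 4 ∣ A) (hB : (p : ℤ) ^ 6 ∣ B)
    (hz : z ^ 3 + A * z + B = 0) : (p : ℤ) ^ 2 ∣ z := by
  have hpi : Prime (p : ℤ) := Nat.prime_iff_prime_int.1 hp
  have hp0 : (p : ℤ) ≠ 0 := hpi.ne_zero
  obtain ⟨α, rfl⟩ := hA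
  obtain ⟨β, rfl⟩ := hB
  have h1 : (p : ℤ) ∣ z := by
    refine hpi.dvd_of_dvd_pow (n := 3) ?_
    refine ⟨-((p : ℤ) ^ 3 * α * z) - (p : ℤ) ^ 5 * β, ?_⟩
    linear_combination hz
  obtain ⟨s, rfl⟩ := h1
  have h4 : (p : ℤ) ∣ s := by
    refine hpi.dvd_of_dvd_pow (n := 3) ?_
    have h5 : (p : ℤ) ^ 3 * (s ^ 3 + (p : ℤ) ^ 2 * α * s + (p : ℤ) ^ 3 * β) = (p : ℤ) ^ 3 * 0 := by
      linear_combination hz
    have h6 := mul_left_cancel₀ (pow_ne_zero 3 hp0) h5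
    refine ⟨-((p : ℤ) * α * s) - (p : ℤ) ^ 2 * β, ?_⟩
    linear_combination h6
  rw [pow_two]
  exact mul_dvd_mul_left _ h4

/-- L9. `←` of the negations clear. `→`: if `p⁴ ∣ A`, `p⁶ ∣ B` then `a / p²` is a rational root of the monic `z³ + (A/p⁴) z + B/p⁶`, so an integer; the same for `b`. -/
theorem min_iff (a b : ℤ) : Minimal (Af a b) (Bf a b) ↔ ∀ p : ℕ, p.Prime → ¬ ((p : ℤ) ^ 2 ∣ a ∧ (p : ℤ) ^ 2 ∣ b) := by
  unfold Rnt.Minimal
  refine forall_congr' fun p => forall_congr' fun hp => not_congr ?_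
  constructor
  · rintro ⟨hA, hB⟩
    refine ⟨min_iff_root p hp _ _ a hA hB ?_, min_iff_root p hp _ _ b hA hB ?_⟩
    · unfold Af Bf
      ring
    · unfold Af Bf
      ring
  · rintro ⟨⟨x, rfl⟩, ⟨y, rfl⟩⟩
    constructor
    · exact ⟨-(x ^ 2 + x * y + y ^ 2), by unfold Af; ring⟩
    · exact ⟨x * y * (x + y), by unfold Bf; ring⟩
-- END min_iff

-- BEGIN min_congr
private theorem min_congr_dvd (T : ℕ) (p : ℕ) (hp : p.Prime) (hpT : p ≤ T) :
    (p : ℤ) ^ 2 ∣ ((PP T 2 : ℕ) : ℤ) := by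
  have h : p ^ 2 ∣ PP T 2 := by
    unfold PP
    exact Finset.dvd_prod_of_mem (fun q => q ^ 2)
      (Finset.mem_filter.2 ⟨Finset.mem_range.2 (by omega), hp⟩)
  exact_mod_cast Int.natCast_dvd_natCast.2 h

private theorem min_congr_aux (T j : ℕ) (a b a' b' : ℤ) (h' : ¬ Exc2 T j a' b')
    (h1 : ((PP T 2 : ℕ) : ℤ) ∣ a - a') (h2 : ((PP T 2 : ℕ) : ℤ) ∣ b - b')
    (hm : ∀ p : ℕ, p.Prime → ¬ ((p : ℤ) ^ 2 ∣ a ∧ (p : ℤ) ^ 2 ∣ b)) :
    ∀ p : ℕ, p.Prime → ¬ ((p : ℤ) ^ 2 ∣ a' ∧ (p : ℤ) ^ 2 ∣ b') := by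
  rintro p hp ⟨ha, hb⟩
  rcases le_or_gt p T with hpT | hpT
  · have hd := min_congr_dvd T p hp hpT
    exact hm p hp ⟨(dvd_iff_dvd_of_dvd_sub (hd.trans h1)).2 ha,
      (dvd_iff_dvd_of_dvd_sub (hd.trans h2)).2 hb⟩
  · have ha1 : (p : ℤ) ∣ a' := (dvd_pow_self (p : ℤ) (by norm_num)).trans ha
    have hb1 : (p : ℤ) ∣ b' := (dvd_pow_self (p : ℤ) (by norm_num)).trans hb
    refine h' (Or.inr (Or.inr (Or.inr (Or.inl ⟨p, hp, hpT, Or.inl ⟨?_, ?_⟩⟩))))
    · exact dvd_sub ha1 hb1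
    · exact dvd_add ha1 (hb1.mul_left 2)

/-- L10. `min_iff`; primes `> T` do not matter for non exceptional pairs (`p ∣ a, b` gives `p ∣ u, v`). -/
theorem min_congr (T j : ℕ) (a b a' b' : ℤ) (h : ¬ Exc2 T j a b) (h' : ¬ Exc2 T j a' b')
    (h1 : ((PP T 2 : ℕ) : ℤ) ∣ a - a') (h2 : ((PP T 2 : ℕ) : ℤ) ∣ b - b') :
    Minimal (Af a b) (Bf a b) ↔ Minimal (Af a' b') (Bf a' b') := by
  rw [min_iff, min_iff]
  refine ⟨min_congr_aux T j a b a' b' h' h1 h2, min_congr_aux T j a' b' a b h ?_ ?_⟩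
  · rwa [dvd_sub_comm]
  · rwa [dvd_sub_comm]
-- END min_congr

-- BEGIN ident
private theorem ident_rn (w2 : ℤ_[2] × ℤ_[2] → ℤ) (w3 : ℤ_[3] × ℤ_[3] → ℤ) (T j : ℕ) (hT : 5 ≤ T) (a b : ℤ)
    (h : ¬ Exc2 T j a b) : rootNumber w2 w3 (Af a b) (Bf a b) =
      -(w2 ((Af a b : ℤ_[2]), (Bf a b : ℤ_[2])) * w3 ((Af a b : ℤ_[3]), (Bf a b : ℤ_[3])) *
        ((∏ p ∈ (range (T + 1)).filter (fun p => p.Prime ∧ 5 ≤ p), wp (Af a b) (Bf a b) p) *
        (ArithmeticFunction.moebius (ro T (uu a b)) * ArithmeticFunction.moebius (ro T (vv a b)) * ArithmeticFunction.moebius (ro T (ss a b)) *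
      (jacobiSym (vv a b) (ro T (uu a b)) * jacobiSym (-uu a b) (ro T (vv a b)) * jacobiSym (uu a b) (ro T (ss a b)))))) := by
  have hD : disc (Af a b) (Bf a b) ≠ 0 := by
    unfold Exc2 at h
    push Not at h
    obtain ⟨hu, hv, hs, _, _⟩ := h
    rw [disc_eq]
    exact neg_ne_zero.2 (pow_ne_zero 2 (mul_ne_zero (mul_ne_zero hu hv) hs))
  unfold rootNumber
  rw [← prod_big T j hT a b h,
    ← Finset.prod_filter_mul_prod_filter_not ((disc (Af a b) (Bf a b)).natAbs.primeFactors.filter fun p => 5 ≤ p)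
      (fun p => p ≤ T)]
  have e1 : ((disc (Af a b) (Bf a b)).natAbs.primeFactors.filter fun p => 5 ≤ p).filter (fun p => ¬ p ≤ T) =
      (disc (Af a b) (Bf a b)).natAbs.primeFactors.filter fun p => T < p := by
    ext p
    simp only [Finset.mem_filter, not_le]
    constructor
    · rintro ⟨⟨h1, h2⟩, h3⟩
      exact ⟨h1, h3⟩
    · rintro ⟨h1, h3⟩
      exact ⟨⟨h1, by omega⟩, h3⟩
  have e2 : ∏ p ∈ ((disc (Af a b) (Bf a b)).natAbs.primeFactors.filter fun p => 5 ≤ p).filter (fun p => p ≤ T),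
      wp (Af a b) (Bf a b) p =
      ∏ p ∈ (range (T + 1)).filter (fun p => p.Prime ∧ 5 ≤ p), wp (Af a b) (Bf a b) p := by
    refine Finset.prod_subset ?_ ?_
    · intro p hp
      obtain ⟨hp1, hp2⟩ := Finset.mem_filter.1 hp
      obtain ⟨hp3, hp4⟩ := Finset.mem_filter.1 hp1
      exact Finset.mem_filter.2 ⟨Finset.mem_range.2 (by omega), Nat.prime_of_mem_primeFactors hp3, hp4⟩
    · intro p hp hp'
      obtain ⟨hp1, hp2, hp3⟩ := Finset.mem_filter.1 hp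
      have hnd : ¬ (p : ℤ) ∣ disc (Af a b) (Bf a b) := by
        intro hd
        refine hp' (Finset.mem_filter.2 ⟨Finset.mem_filter.2 ⟨?_, hp3⟩, by have := Finset.mem_range.1 hp1; omega⟩)
        exact Nat.mem_primeFactors.2 ⟨hp2, Int.natCast_dvd.1 hd, Int.natAbs_ne_zero.2 hD⟩
      unfold wp
      rw [if_pos hnd]
  rw [e1, e2]

/-- L11. MAIN IDENTITY, copy of `Rn3.ident` (helper54). `M = PP T (6 * j + 4 + K)` with `K` from `lc_unif` for `w2`, `w3` and exponent `6j`; `disc_pow`, `wp_congr`, `prod_big`, `jac_congr`, `min_congr`; `mob² = 1` (`sm_sqf`), `jj² = 1` (`cop`). -/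
theorem ident (w2 : ℤ_[2] × ℤ_[2] → ℤ) (w3 : ℤ_[3] × ℤ_[3] → ℤ) (h2 : LocalSign 2 w2) (h3 : LocalSign 3 w3)
    (T j : ℕ) (hT : 5 ≤ T) (hj : 1 ≤ j) : ∃ M : ℕ, 0 < M ∧ PP T (6 * j + 4) ∣ M ∧ ∀ a b a' b' : ℤ, ¬ Exc2 T j a b → ¬ Exc2 T j a' b' →
      (M : ℤ) ∣ a - a' → (M : ℤ) ∣ b - b' → (uu a b).sign = (uu a' b').sign → (vv a b).sign = (vv a' b').sign → (ss a b).sign = (ss a' b').sign →
      (Minimal (Af a b) (Bf a b) ↔ Minimal (Af a' b') (Bf a' b')) ∧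
        (rootNumber w2 w3 (Af a b) (Bf a b) : ℝ) * (mob (ro T (uu a b)) * mob (ro T (vv a b)) * mob (ro T (ss a b)) * (jj T a b : ℝ)) =
          rootNumber w2 w3 (Af a' b') (Bf a' b') * (mob (ro T (uu a' b')) * mob (ro T (vv a' b')) * mob (ro T (ss a' b')) * (jj T a' b' : ℝ)) ∧
        (mob (ro T (uu a b)) * mob (ro T (vv a b)) * mob (ro T (ss a b)) * (jj T a b : ℝ)) ^ 2 = 1 := by
  obtain ⟨K2, hK2⟩ := lc_unif 2 w2 h2 (6 * j)
  obtain ⟨K3, hK3⟩ := lc_unif 3 w3 h3 (6 * j)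
  have hPP : ∀ m n, m ≤ n → PP T m ∣ PP T n := fun m n hmn =>
    Finset.prod_dvd_prod_of_dvd _ _ fun p _ => pow_dvd_pow p hmn
  have hpM : ∀ p : ℕ, p.Prime → p ≤ T → ∀ n, p ^ n ∣ PP T n := fun p hp hpT n =>
    Finset.dvd_prod_of_mem (fun p => p ^ n) (Finset.mem_filter.2 ⟨Finset.mem_range.2 (by omega), hp⟩)
  refine ⟨PP T (6 * j + 4 + (K2 + K3)), ?_, hPP _ _ (by omega), ?_⟩
  · exact Finset.prod_pos fun p hp => pow_pos (Finset.mem_filter.1 hp).2.pos _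
  intro a b a' b' h h' ha hb s1 s2 s3
  obtain ⟨M, hM⟩ : ∃ M, M = PP T (6 * j + 4 + (K2 + K3)) := ⟨_, rfl⟩
  rw [← hM] at ha hb
  have hdM : ∀ n, n ≤ 6 * j + 4 + (K2 + K3) → ((PP T n : ℕ) : ℤ) ∣ (M : ℤ) := fun n hn => by
    rw [hM]
    exact Int.natCast_dvd_natCast.2 (hPP _ _ hn)
  have hpd : ∀ p : ℕ, p.Prime → p ≤ T → ∀ n, n ≤ 6 * j + 4 + (K2 + K3) → (p : ℤ) ^ n ∣ (M : ℤ) := fun p hp hpT n hn => by
    refine dvd_trans ?_ (hdM n hn)
    exact_mod_cast hpM p hp hpT n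
  have hA : (M : ℤ) ∣ Af a b - Af a' b' := by
    have e : Af a b - Af a' b' = (a - a') * (-(a + a' + b)) + (b - b') * (-(b + b' + a')) := by
      unfold Af
      ring
    rw [e]
    exact dvd_add (ha.mul_right _) (hb.mul_right _)
  have hB : (M : ℤ) ∣ Bf a b - Bf a' b' := by
    have e : Bf a b - Bf a' b' = (a - a') * (b * (a + a' + b)) + (b - b') * (a' * (a' + b + b')) := by
      unfold Bf
      ring
    rw [e]
    exact dvd_add (ha.mul_right _) (hb.mul_right _)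
  have hmin := min_congr T j a b a' b' h h' ((hdM 2 (by omega)).trans ha) ((hdM 2 (by omega)).trans hb)
  have hJ := jac_congr T j hT a b a' b' h h' ((hdM _ (by omega)).trans ha) ((hdM _ (by omega)).trans hb) s1 s2 s3
  have e2 : w2 ((Af a b : ℤ_[2]), (Bf a b : ℤ_[2])) = w2 ((Af a' b' : ℤ_[2]), (Bf a' b' : ℤ_[2])) :=
    hK2 (Af a b) (Bf a b) (Af a' b') (Bf a' b') ((hpd 2 Nat.prime_two (by omega) K2 (by omega)).trans hA)
      ((hpd 2 Nat.prime_two (by omega) K2 (by omega)).trans hB) (disc_pow T j hj a b h 2 Nat.prime_two (by omega))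
  have e3 : w3 ((Af a b : ℤ_[3]), (Bf a b : ℤ_[3])) = w3 ((Af a' b' : ℤ_[3]), (Bf a' b' : ℤ_[3])) :=
    hK3 (Af a b) (Bf a b) (Af a' b') (Bf a' b') ((hpd 3 Nat.prime_three (by omega) K3 (by omega)).trans hA)
      ((hpd 3 Nat.prime_three (by omega) K3 (by omega)).trans hB) (disc_pow T j hj a b h 3 Nat.prime_three (by omega))
  have e4 : ∏ p ∈ (range (T + 1)).filter (fun p => p.Prime ∧ 5 ≤ p), wp (Af a b) (Bf a b) p =
      ∏ p ∈ (range (T + 1)).filter (fun p => p.Prime ∧ 5 ≤ p), wp (Af a' b') (Bf a' b') p := by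
    refine Finset.prod_congr rfl fun p hp => ?_
    obtain ⟨hp1, hp2, hp3⟩ := Finset.mem_filter.1 hp
    have hpT : p ≤ T := by
      have := Finset.mem_range.1 hp1
      omega
    exact wp_congr (Af a b) (Bf a b) (Af a' b') (Bf a' b') p (6 * j) hp2 hp3 ((hpd p hp2 hpT _ (by omega)).trans hA)
      ((hpd p hp2 hpT _ (by omega)).trans hB) (disc_pow T j hj a b h p hp2 hpT)
  have hsq : ∀ a b : ℤ, ¬ Exc2 T j a b → mob (ro T (uu a b)) ^ 2 = 1 ∧ mob (ro T (vv a b)) ^ 2 = 1 ∧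
      mob (ro T (ss a b)) ^ 2 = 1 ∧ ((jj T a b : ℤ) : ℝ) ^ 2 = 1 := by
    intro a b h
    obtain ⟨c1, -⟩ := cop T j hT a b h
    unfold Exc2 at h
    push Not at h
    obtain ⟨hu, hv, hs, h4, _⟩ := h
    have key : ∀ n : ℤ, n ≠ 0 → (∀ p : ℕ, p.Prime → T < p → ¬ (p : ℤ) ^ 2 ∣ n) → mob (ro T n) ^ 2 = 1 := by
      intro n hn hn'
      have h5 := ArithmeticFunction.moebius_sq_eq_one_of_squarefree (sm_sqf T n hn hn')
      unfold mob ro
      rw [Int.natAbs_natCast]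
      exact_mod_cast h5
    refine ⟨key _ hu fun p hp hpT => (h4 p hp hpT).2.1, key _ hv fun p hp hpT => (h4 p hp hpT).2.2.1,
      key _ hs fun p hp hpT => (h4 p hp hpT).2.2.2, ?_⟩
    have h6 : (jj T a b) ^ 2 = 1 := by
      unfold jj
      apply jacobiSym.sq_one
      rw [Int.gcd_natCast_natCast]
      exact c1
    exact_mod_cast h6
  refine ⟨hmin, ?_, ?_⟩
  · rw [ident_rn w2 w3 T j hT a b h, ident_rn w2 w3 T j hT a' b' h', e2, e3, e4]
    obtain ⟨q1, q2, q3, q4⟩ := hsq a b h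
    obtain ⟨r1, r2, r3, r4⟩ := hsq a' b' h'
    have hJr : ((jacobiSym (vv a b) (ro T (uu a b)) : ℤ) : ℝ) * ((jacobiSym (-uu a b) (ro T (vv a b)) : ℤ) : ℝ) *
        ((jacobiSym (uu a b) (ro T (ss a b)) : ℤ) : ℝ) * ((jj T a b : ℤ) : ℝ) =
        ((jacobiSym (vv a' b') (ro T (uu a' b')) : ℤ) : ℝ) * ((jacobiSym (-uu a' b') (ro T (vv a' b')) : ℤ) : ℝ) *
        ((jacobiSym (uu a' b') (ro T (ss a' b')) : ℤ) : ℝ) * ((jj T a' b' : ℤ) : ℝ) := by exact_mod_cast hJ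
    have m : ∀ n : ℤ, ((ArithmeticFunction.moebius (ro T n) : ℤ) : ℝ) = mob (ro T n) := fun n => rfl
    push_cast
    rw [m, m, m, m, m, m]
    generalize mob (ro T (uu a b)) = x1 at *
    generalize mob (ro T (vv a b)) = x2 at *
    generalize mob (ro T (ss a b)) = x3 at *
    generalize mob (ro T (uu a' b')) = y1 at *
    generalize mob (ro T (vv a' b')) = y2 at *
    generalize mob (ro T (ss a' b')) = y3 at *
    generalize ((jj T a b : ℤ) : ℝ) = x4 at *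
    generalize ((jj T a' b' : ℤ) : ℝ) = y4 at *
    have f1 : ∀ W P J1 J2 J3 : ℝ, -(W * (P * (x1 * x2 * x3 * (J1 * J2 * J3)))) * (x1 * x2 * x3 * x4) = -(W * P * (J1 * J2 * J3 * x4)) := by
      intro W P J1 J2 J3
      calc -(W * (P * (x1 * x2 * x3 * (J1 * J2 * J3)))) * (x1 * x2 * x3 * x4) = -(W * P * (J1 * J2 * J3 * x4)) * (x1 ^ 2 * x2 ^ 2 * x3 ^ 2) := by ring
        _ = -(W * P * (J1 * J2 * J3 * x4)) := by rw [q1, q2, q3]; ring
    have f2 : ∀ W P J1 J2 J3 : ℝ, -(W * (P * (y1 * y2 * y3 * (J1 * J2 * J3)))) * (y1 * y2 * y3 * y4) = -(W * P * (J1 * J2 * J3 * y4)) := by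
      intro W P J1 J2 J3
      calc -(W * (P * (y1 * y2 * y3 * (J1 * J2 * J3)))) * (y1 * y2 * y3 * y4) = -(W * P * (J1 * J2 * J3 * y4)) * (y1 ^ 2 * y2 ^ 2 * y3 ^ 2) := by ring
        _ = -(W * P * (J1 * J2 * J3 * y4)) := by rw [r1, r2, r3]; ring
    rw [f1, f2, hJr]
  · obtain ⟨q1, q2, q3, q4⟩ := hsq a b h
    rw [mul_pow, mul_pow, mul_pow, q1, q2, q3, q4]
    norm_num
-- END ident

end Rn2
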